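import Mathlib

open Polynomial

namespace Pool.Agent.L7h91.GT

/-- The polynomial S_n. -/
noncomputable def S (n : ℕ) : ℤ[X] :=
  C ((n : ℤ) - 1) * (X ^ (n + 1) - 1) - C ((n : ℤ) + 1) * (X ^ n - X)

/-- The reduced polynomial. -/
noncomputable def redS (n : ℕ) : ℤ[X] :=
  if Odd n then S n /ₘ ((X - 1) ^ 3 * (X + 1)) else S n /ₘ (X - 1) ^ 3

noncomputable def Q (k : ℕ) : ℤ[X] := ∑ j ∈ Finset.range k, C ((j : ℤ) + 1) * X ^ j

noncomputable def T (n : ℕ) : ℤ[X] := ∑ i ∈ Finset.range n, Q i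

lemma Q_id (k : ℕ) : (X - 1) ^ 2 * Q k = C (k : ℤ) * X ^ (k + 1) - C ((k : ℤ) + 1) * X ^ k + 1 := by
  induction k with
  | zero => simp [Q]
  | succ k ih =>
    have : Q (k + 1) = Q k + C ((k : ℤ) + 1) * X ^ k := by
      rw [Q, Finset.sum_range_succ]; rfl
    rw [this, mul_add, ih]
    push_cast
    simp only [map_add, map_one, map_natCast]
    ring

lemma S_eq (n : ℕ) : S n = (X - 1) ^ 3 * T n := by
  induction n with
  | zero => simp [S, T]
  | succ n ih =>
    have h1 : T (n + 1) = T n + Q n := by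
      rw [T, Finset.sum_range_succ]; rfl
    have h2 : S (n + 1) = S n + (X - 1) * (C (n : ℤ) * X ^ (n + 1) - C ((n : ℤ) + 1) * X ^ n + 1) := by
      unfold S
      push_cast
      simp only [map_add, map_one, map_sub, map_natCast]
      ring
    rw [h2, h1, ← Q_id, ih]
    ring

lemma monic_one : ((X - 1 : ℤ[X]) ^ 3).Monic := by
  have : (X - 1 : ℤ[X]) = X - C 1 := by simp
  rw [this]
  exact (monic_X_sub_C 1).pow 3

lemma monic_two : ((X - 1 : ℤ[X]) ^ 3 * (X + 1)).Monic := by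
  have : (X + 1 : ℤ[X]) = X + C 1 := by simp
  rw [this]
  exact monic_one.mul (monic_X_add_C 1)

lemma eval_S_neg_one {n : ℕ} (hn : Odd n) : (S n).eval (-1) = 0 := by
  have h1 : (-1 : ℤ) ^ (n + 1) = 1 := hn.add_one.neg_one_pow
  have h2 : (-1 : ℤ) ^ n = -1 := hn.neg_one_pow
  simp [S, h1, h2]

lemma S_odd {n : ℕ} (hn : Odd n) : S n = (X - 1) ^ 3 * (X + 1) * redS n := by
  have h0 : (T n).eval (-1) = 0 := by
    have := eval_S_neg_one hn
    rw [S_eq, eval_mul] at this
    rcases mul_eq_zero.mp this with h | h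
    · exfalso
      simp at h
    · exact h
  obtain ⟨P, hP⟩ := dvd_iff_isRoot.mpr h0
  have hX : (X - C (-1) : ℤ[X]) = X + 1 := by simp
  rw [hX] at hP
  have hS : S n = (X - 1) ^ 3 * (X + 1) * P := by rw [S_eq, hP]; ring
  have hr : redS n = P := by
    rw [redS, if_pos hn, hS]
    exact mul_divByMonic_cancel_left P monic_two
  rw [hr, hS]

lemma S_even {n : ℕ} (hn : Even n) : S n = (X - 1) ^ 3 * redS n := by
  have hr : redS n = T n := by
    rw [redS, if_neg (Nat.not_odd_iff_even.mpr hn), S_eq]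
    exact mul_divByMonic_cancel_left _ monic_one
  rw [hr, S_eq]

lemma redS_dvd (n : ℕ) : redS n ∣ S n := by
  rcases Nat.even_or_odd n with h | h
  · exact ⟨_, (S_even h).trans (mul_comm _ _)⟩
  · exact ⟨_, (S_odd h).trans (mul_comm _ _)⟩

lemma T_dvd (n : ℕ) : redS n ∣ T n := by
  have h0 : ((X - 1 : ℤ[X]) ^ 3) ≠ 0 := monic_one.ne_zero
  rcases Nat.even_or_odd n with h | h
  · have : T n = redS n := mul_left_cancel₀ h0 ((S_eq n).symm.trans (S_even h))
    rw [this]
  · have : T n = (X + 1) * redS n := by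
      apply mul_left_cancel₀ h0
      rw [← S_eq, S_odd h, mul_assoc]
    rw [this]
    exact dvd_mul_left _ _

lemma Q_eval_one (k : ℕ) : 2 * (Q k).eval 1 = (k : ℤ) * ((k : ℤ) + 1) := by
  induction k with
  | zero => simp [Q]
  | succ k ih =>
    have : Q (k + 1) = Q k + C ((k : ℤ) + 1) * X ^ k := by
      rw [Q, Finset.sum_range_succ]; rfl
    rw [this, eval_add, mul_add, ih]
    simp
    ring

lemma T_eval_one (n : ℕ) : 6 * (T n).eval 1 = ((n : ℤ) + 1) * n * ((n : ℤ) - 1) := by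
  induction n with
  | zero => simp [T]
  | succ n ih =>
    have h1 : T (n + 1) = T n + Q n := by
      rw [T, Finset.sum_range_succ]; rfl
    have := Q_eval_one n
    rw [h1, eval_add, mul_add, ih]
    push_cast
    linarith

lemma redS_eval_one {n : ℕ} (hn : 4 ≤ n) : (redS n).eval 1 ≠ 0 := by
  intro h
  obtain ⟨R, hR⟩ := T_dvd n
  have h1 := T_eval_one n
  rw [hR, eval_mul, h, zero_mul, mul_zero] at h1
  have h4 : (4 : ℤ) ≤ n := by exact_mod_cast hn
  have : (0 : ℤ) < ((n : ℤ) + 1) * n * ((n : ℤ) - 1) := by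
    apply mul_pos (mul_pos _ _) <;> linarith
  linarith

lemma redS_eval_neg_one {n : ℕ} (hn : 4 ≤ n) : (redS n).eval (-1) ≠ 0 := by
  intro h
  have h4 : (4 : ℤ) ≤ n := by exact_mod_cast hn
  rcases Nat.even_or_odd n with hp | hp
  · have h1 : (S n).eval (-1) = 0 := by rw [S_even hp, eval_mul, h, mul_zero]
    have h2 : (-1 : ℤ) ^ (n + 1) = -1 := hp.add_one.neg_one_pow
    have h3 : (-1 : ℤ) ^ n = 1 := hp.neg_one_pow
    simp [S, h2, h3] at h1
    linarith
  · have h1 : (derivative (S n)).eval (-1) = 0 := by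
      have e : S n = (X + 1) * ((X - 1) ^ 3 * redS n) := by rw [S_odd hp]; ring
      rw [e, derivative_mul, eval_add, eval_mul, eval_mul, eval_mul, h]
      simp
    have h2 : (-1 : ℤ) ^ n = -1 := hp.neg_one_pow
    have h3 : (-1 : ℤ) ^ (n - 1) = 1 := (Nat.Odd.sub_odd hp odd_one).neg_one_pow
    simp [S, derivative_mul, derivative_pow, h2, h3] at h1
    nlinarith

end Pool.Agent.L7h91.GT
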