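import Mathlib

open Finset

namespace Pool.Agent.L7h91.GT

lemma no_big_root (n : ℕ) (hn : 2 ≤ n) (z : ℂ) (hz : 1 < ‖z‖) :
    ((n : ℂ) - 1) * (z ^ (n + 1) - 1) - ((n : ℂ) + 1) * (z ^ n - z) ≠ 0 := by
  obtain ⟨N, rfl⟩ : ∃ N, n = N + 1 := ⟨n - 1, by omega⟩
  have hN : 1 ≤ N := by omega
  set ρ : ℝ := ‖z‖ with hρ
  set E : ℂ := ∑ j ∈ range N, z ^ j with hE
  set e : ℝ := ∑ j ∈ range N, ρ ^ j with he
  have hgeom : E * (z - 1) = z ^ N - 1 := geom_sum_mul z N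
  have hρ0 : 0 ≤ ρ := norm_nonneg z
  have hρ1 : 1 ≤ ρ := hz.le
  set A : ℂ := (N : ℂ) * z ^ N - E with hA
  set B : ℂ := z * E - (N : ℂ) with hB
  have hfac : (((N + 1 : ℕ) : ℂ) - 1) * (z ^ (N + 1 + 1) - 1)
      - (((N + 1 : ℕ) : ℂ) + 1) * (z ^ (N + 1) - z) = (z - 1) * (z * A - B) := by
    have h1 : z * A - B = (N : ℂ) * (z ^ (N + 1) + 1) - 2 * (z * E) := by
      rw [hA, hB]; ring
    rw [h1]
    push_cast
    have h2 : (z - 1) * ((N : ℂ) * (z ^ (N + 1) + 1) - 2 * (z * E))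
        = (z - 1) * (N : ℂ) * (z ^ (N + 1) + 1) - 2 * z * (E * (z - 1)) := by ring
    rw [h2, hgeom]
    ring
  have hEe : ‖E‖ ≤ e := by
    rw [hE, he]
    refine (norm_sum_le _ _).trans (le_of_eq ?_)
    refine sum_congr rfl fun j _ => ?_
    rw [norm_pow]
  have he0 : 0 ≤ e := by
    rw [he]; exact sum_nonneg fun j _ => by positivity
  -- the reflected sums
  have hzE : z * E = ∑ j ∈ range N, z ^ (N - j) := by
    rw [hE, mul_sum, ← sum_range_reflect (fun j => z ^ (N - j)) N]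
    refine sum_congr rfl fun j hj => ?_
    rw [mem_range] at hj
    have : N - (N - 1 - j) = j + 1 := by omega
    rw [this, pow_succ]; ring
  have hρe : ρ * e = ∑ j ∈ range N, ρ ^ (N - j) := by
    rw [he, mul_sum, ← sum_range_reflect (fun j => ρ ^ (N - j)) N]
    refine sum_congr rfl fun j hj => ?_
    rw [mem_range] at hj
    have : N - (N - 1 - j) = j + 1 := by omega
    rw [this, pow_succ]; ring
  have hzNE : z ^ N * (starRingEnd ℂ) E = ∑ j ∈ range N, ((ρ ^ (2 * j) : ℝ) : ℂ) * z ^ (N - j) := by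
    rw [hE, map_sum, mul_sum]
    refine sum_congr rfl fun j hj => ?_
    rw [mem_range] at hj
    rw [map_pow]
    have h1 : z ^ N = z ^ (N - j) * z ^ j := by rw [← pow_add]; congr 1; omega
    have h2 : z ^ j * (starRingEnd ℂ) z ^ j = ((ρ ^ (2 * j) : ℝ) : ℂ) := by
      rw [← mul_pow, Complex.mul_conj, Complex.normSq_eq_norm_sq, pow_mul]
      push_cast
      rfl
    rw [h1, mul_assoc, h2, mul_comm]
  have hdiff : (z ^ N * (starRingEnd ℂ) E - z * E).re ≤ ρ ^ N * e - ρ * e := by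
    have h1 : z ^ N * (starRingEnd ℂ) E - z * E
        = ∑ j ∈ range N, ((ρ ^ (2 * j) - 1 : ℝ) : ℂ) * z ^ (N - j) := by
      rw [hzNE, hzE, ← sum_sub_distrib]
      refine sum_congr rfl fun j _ => ?_
      push_cast; ring
    have h2 : ρ ^ N * e - ρ * e = ∑ j ∈ range N, (ρ ^ (2 * j) - 1) * ρ ^ (N - j) := by
      rw [hρe, he, mul_sum, ← sum_sub_distrib]
      refine sum_congr rfl fun j hj => ?_
      rw [mem_range] at hj
      have : ρ ^ (2 * j) * ρ ^ (N - j) = ρ ^ N * ρ ^ j := by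
        rw [← pow_add, ← pow_add]; congr 1; omega
      linear_combination -this
    rw [h1, h2]
    refine (Complex.re_le_norm _).trans ((norm_sum_le _ _).trans (le_of_eq ?_))
    refine sum_congr rfl fun j _ => ?_
    rw [norm_mul, norm_pow, Complex.norm_real, Real.norm_of_nonneg]
    have := one_le_pow₀ hρ1 (n := 2 * j)
    linarith
  have hnA : ‖A‖ ^ 2 = (N : ℝ) ^ 2 * (ρ ^ N) ^ 2 + ‖E‖ ^ 2
      - 2 * (N : ℝ) * (z ^ N * (starRingEnd ℂ) E).re := by
    rw [← Complex.normSq_eq_norm_sq, hA, Complex.normSq_sub]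
    rw [map_mul, map_pow, Complex.normSq_natCast, Complex.normSq_eq_norm_sq, Complex.normSq_eq_norm_sq]
    have : ((N : ℂ) * z ^ N * (starRingEnd ℂ) E).re = (N : ℝ) * (z ^ N * (starRingEnd ℂ) E).re := by
      rw [mul_assoc]
      simp
    rw [this]
    ring
  have hnB : ‖B‖ ^ 2 = ρ ^ 2 * ‖E‖ ^ 2 + (N : ℝ) ^ 2 - 2 * (N : ℝ) * (z * E).re := by
    rw [← Complex.normSq_eq_norm_sq, hB, Complex.normSq_sub]
    rw [map_mul, Complex.normSq_natCast, Complex.normSq_eq_norm_sq, Complex.normSq_eq_norm_sq]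
    have : (z * E * (starRingEnd ℂ) (N : ℂ)).re = (N : ℝ) * (z * E).re := by
      rw [Complex.conj_natCast, mul_comm]
      simp
    rw [this]
    ring
  have hkey1 : 0 ≤ (N : ℝ) * ρ ^ N - e - (ρ * e - N) := by
    have : (N : ℝ) * ρ ^ N - e - (ρ * e - N)
        = ∑ j ∈ range N, (ρ ^ j - 1) * (ρ ^ (N - j) - 1) := by
      have h1 : ∑ j ∈ range N, (ρ ^ j - 1) * (ρ ^ (N - j) - 1)
          = ∑ j ∈ range N, (ρ ^ N + 1) - ∑ j ∈ range N, ρ ^ j - ∑ j ∈ range N, ρ ^ (N - j) := by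
        rw [← sum_sub_distrib, ← sum_sub_distrib]
        refine sum_congr rfl fun j hj => ?_
        rw [mem_range] at hj
        have : ρ ^ j * ρ ^ (N - j) = ρ ^ N := by
          rw [← pow_add]; congr 1; omega
        linear_combination this
      rw [h1, ← hρe, ← he, sum_const, card_range, nsmul_eq_mul]
      ring
    rw [this]
    refine sum_nonneg fun j _ => mul_nonneg ?_ ?_
    · have := one_le_pow₀ hρ1 (n := j); linarith
    · have := one_le_pow₀ hρ1 (n := N - j); linarith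
  have hρN : 1 ≤ ρ ^ N := one_le_pow₀ hρ1
  have hkey2 : 0 ≤ (N : ℝ) * ρ ^ N - e + (ρ * e - N) := by
    have h1 : 0 ≤ (N : ℝ) * (ρ ^ N - 1) := mul_nonneg (Nat.cast_nonneg _) (by linarith)
    have h2 : 0 ≤ (ρ - 1) * e := mul_nonneg (by linarith) he0
    nlinarith
  have hAB : ‖B‖ ^ 2 ≤ ‖A‖ ^ 2 := by
    rw [hnA, hnB]
    have h1 : (z ^ N * (starRingEnd ℂ) E).re - (z * E).re ≤ ρ ^ N * e - ρ * e := by
      rw [← Complex.sub_re]; exact hdiff
    have h2 : ‖E‖ ^ 2 ≤ e ^ 2 := pow_le_pow_left₀ (norm_nonneg _) hEe 2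
    have h3 : 0 ≤ ρ ^ 2 - 1 := by nlinarith
    have h4 : (ρ ^ 2 - 1) * ‖E‖ ^ 2 ≤ (ρ ^ 2 - 1) * e ^ 2 := mul_le_mul_of_nonneg_left h2 h3
    have h5 : 2 * (N : ℝ) * ((z ^ N * (starRingEnd ℂ) E).re - (z * E).re)
        ≤ 2 * (N : ℝ) * (ρ ^ N * e - ρ * e) := mul_le_mul_of_nonneg_left h1 (by positivity)
    have h6 := mul_nonneg hkey1 hkey2
    nlinarith
  have hAB' : ‖B‖ ≤ ‖A‖ := by
    exact le_of_sq_le_sq hAB (norm_nonneg _)
  have hApos : 0 < ‖A‖ := by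
    have h1 : e < (N : ℝ) * ρ ^ N := by
      have : (N : ℝ) * ρ ^ N = ∑ j ∈ range N, ρ ^ N := by
        rw [sum_const, card_range, nsmul_eq_mul]
      rw [this, he]
      refine sum_lt_sum_of_nonempty ⟨0, by rw [mem_range]; omega⟩ fun j hj => ?_
      rw [mem_range] at hj
      exact pow_lt_pow_right₀ hz hj
    have h2 : ‖(N : ℂ) * z ^ N‖ = (N : ℝ) * ρ ^ N := by
      rw [norm_mul, norm_pow, Complex.norm_natCast]
    have h3 := norm_sub_norm_le ((N : ℂ) * z ^ N) E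
    rw [h2] at h3
    linarith
  rw [hfac]
  refine mul_ne_zero ?_ ?_
  · intro h
    rw [sub_eq_zero] at h
    rw [hρ, h] at hz
    simp at hz
  · intro h
    rw [sub_eq_zero] at h
    have : ρ * ‖A‖ = ‖B‖ := by rw [← norm_mul, h]
    nlinarith

end Pool.Agent.L7h91.GT
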