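import Mathlib

open Finset

namespace Pool.Agent.L7h91.GT

lemma sin_ge (N : ℕ) (hN : 1 ≤ N) (k : ℤ) (h : Real.sin (k * (Real.pi / N)) ≠ 0) :
    Real.sin (Real.pi / N) ≤ |Real.sin (k * (Real.pi / N))| := by
  have hNp : (0 : ℝ) < N := by exact_mod_cast hN
  have hpi := Real.pi_pos
  set r : ℤ := k % (N : ℤ) with hr
  set q : ℤ := k / (N : ℤ) with hq
  have hk : k = N * q + r := (Int.mul_ediv_add_emod k N).symm
  have hr0 : 0 ≤ r := Int.emod_nonneg _ (by positivity)
  have hrN : r < N := Int.emod_lt_of_pos _ (by positivity)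
  have hkr : (k : ℝ) * (Real.pi / N) = (r : ℝ) * (Real.pi / N) + (q : ℝ) * Real.pi := by
    rw [hk]; push_cast; field_simp; ring
  have habs : |Real.sin (k * (Real.pi / N))| = |Real.sin (r * (Real.pi / N))| := by
    rw [hkr, Real.sin_add_int_mul_pi, abs_mul]
    have : |((-1 : ℝ)) ^ q| = 1 := by
      rw [abs_zpow, abs_neg, abs_one, one_zpow]
    rw [this, one_mul]
  have hrne : r ≠ 0 := by
    intro h0
    apply h
    rw [← abs_eq_zero, habs, h0]
    simp
  have hr1 : 1 ≤ r := by omega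
  rw [habs]
  refine le_trans ?_ (le_abs_self _)
  have hr1' : (1 : ℝ) ≤ r := by exact_mod_cast hr1
  have hrN' : (r : ℝ) ≤ N - 1 := by
    have : r ≤ (N : ℤ) - 1 := by omega
    exact_mod_cast this
  have hθ : 0 < Real.pi / N := by positivity
  have hNθ : (N : ℝ) * (Real.pi / N) = Real.pi := by field_simp
  rcases le_total ((r : ℝ) * (Real.pi / N)) (Real.pi / 2) with hc | hc
  · apply Real.sin_le_sin_of_le_of_le_pi_div_two _ hc
    · nlinarith
    · linarith
  · rw [← Real.sin_pi_sub (r * (Real.pi / N))]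
    apply Real.sin_le_sin_of_le_of_le_pi_div_two
    · linarith
    · linarith
    · nlinarith

lemma neg_exp_not_root (n N : ℕ) (hn : 4 ≤ n) (hN : 3 ≤ N) :
    ((n : ℂ) - 1) * ((-Complex.exp (2 * Real.pi * Complex.I / N)) ^ (n + 1) - 1)
      - ((n : ℂ) + 1) * ((-Complex.exp (2 * Real.pi * Complex.I / N)) ^ n
        - (-Complex.exp (2 * Real.pi * Complex.I / N))) ≠ 0 := by
  intro h
  have hNp : (0 : ℝ) < N := by exact_mod_cast (by omega : 0 < N)
  have hNC : (N : ℂ) ≠ 0 := by exact_mod_cast (by omega : N ≠ 0)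
  have hpi := Real.pi_pos
  set θ : ℝ := Real.pi / N with hθ
  have hθ0 : 0 < θ := by positivity
  have hθ3 : θ ≤ Real.pi / 3 := by
    rw [hθ]
    apply div_le_div_of_nonneg_left hpi.le (by norm_num)
    exact_mod_cast hN
  set v : ℂ := Complex.exp (2 * Real.pi * Complex.I / N) with hv
  set a : ℂ := Complex.exp (((((n : ℝ) + 1) * θ : ℝ) : ℂ) * Complex.I) with ha
  set b : ℂ := Complex.exp (((((n : ℝ) - 1) * θ : ℝ) : ℂ) * Complex.I) with hb
  set a' : ℂ := Complex.exp (((-(((n : ℝ) + 1) * θ) : ℝ) : ℂ) * Complex.I) with ha'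
  set b' : ℂ := Complex.exp (((-(((n : ℝ) - 1) * θ) : ℝ) : ℂ) * Complex.I) with hb'
  have haa : a * a' = 1 := by
    rw [ha, ha', ← Complex.exp_add]
    rw [← Complex.exp_zero]; congr 1; push_cast; ring
  have hbb : b * b' = 1 := by
    rw [hb, hb', ← Complex.exp_add]
    rw [← Complex.exp_zero]; congr 1; push_cast; ring
  have h1 : v ^ (n + 1) = a * a := by
    rw [hv, ha, ← Complex.exp_nat_mul, ← Complex.exp_add]
    congr 1; rw [hθ]; push_cast; field_simp; ring
  have h2 : v ^ n = a * b := by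
    rw [hv, ha, hb, ← Complex.exp_nat_mul, ← Complex.exp_add]
    congr 1; rw [hθ]; push_cast; field_simp; ring
  have h3 : v = a * b' := by
    rw [hv, ha, hb', ← Complex.exp_add]
    congr 1; rw [hθ]; push_cast; field_simp; ring
  have ha0 : a ≠ 0 := Complex.exp_ne_zero _
  have hare : a.re = Real.cos (((n : ℝ) + 1) * θ) := Complex.exp_ofReal_mul_I_re _
  have haim : a.im = Real.sin (((n : ℝ) + 1) * θ) := Complex.exp_ofReal_mul_I_im _
  have hbre : b.re = Real.cos (((n : ℝ) - 1) * θ) := Complex.exp_ofReal_mul_I_re _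
  have hbim : b.im = Real.sin (((n : ℝ) - 1) * θ) := Complex.exp_ofReal_mul_I_im _
  have hare' : a'.re = Real.cos (((n : ℝ) + 1) * θ) := by
    rw [ha', Complex.exp_ofReal_mul_I_re, Real.cos_neg]
  have haim' : a'.im = -Real.sin (((n : ℝ) + 1) * θ) := by
    rw [ha', Complex.exp_ofReal_mul_I_im, Real.sin_neg]
  have hbre' : b'.re = Real.cos (((n : ℝ) - 1) * θ) := by
    rw [hb', Complex.exp_ofReal_mul_I_re, Real.cos_neg]
  have hbim' : b'.im = -Real.sin (((n : ℝ) - 1) * θ) := by
    rw [hb', Complex.exp_ofReal_mul_I_im, Real.sin_neg]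
  have hn4 : (4 : ℝ) ≤ n := by exact_mod_cast hn
  have hsθ : 0 < Real.sin θ := Real.sin_pos_of_pos_of_lt_pi hθ0 (by linarith)
  have hcθ : 1 / 2 ≤ Real.cos θ := by
    rw [← Real.cos_pi_div_three]
    exact Real.cos_le_cos_of_nonneg_of_le_pi hθ0.le (by linarith) hθ3
  have hsc := Real.sin_sq_add_cos_sq ((n : ℝ) * θ)
  have hs1 : |Real.sin ((n : ℝ) * θ)| ≤ 1 := Real.abs_sin_le_one _
  have hc1 : |Real.cos ((n : ℝ) * θ)| ≤ 1 := Real.abs_cos_le_one _
  have ep : ((n : ℝ) + 1) * θ = (n : ℝ) * θ + θ := by ring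
  have em : ((n : ℝ) - 1) * θ = (n : ℝ) * θ - θ := by ring
  rcases Nat.even_or_odd n with hpar | hpar
  · -- n even
    have e1 : (-v) ^ (n + 1) = -(a * a) := by rw [hpar.add_one.neg_pow, h1]
    have e2 : (-v) ^ n = a * b := by rw [hpar.neg_pow, h2]
    rw [e1, e2] at h
    have h' : ((n : ℂ) - 1) * (a + a') + ((n : ℂ) + 1) * (b + b') = 0 := by
      have : a * (((n : ℂ) - 1) * (a + a') + ((n : ℂ) + 1) * (b + b')) = 0 := by
        have : a * (((n : ℂ) - 1) * (a + a') + ((n : ℂ) + 1) * (b + b'))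
          = ((n : ℂ) - 1) * (a * a + a * a') + ((n : ℂ) + 1) * (a * b + a * b') := by ring
        rw [this, haa, ← h3]
        linear_combination -h
      exact (mul_eq_zero.mp this).resolve_left ha0
    have hre := congrArg Complex.re h'
    have hn1 : ((n : ℂ) - 1) = (((n : ℝ) - 1 : ℝ) : ℂ) := by push_cast; rfl
    have hn2 : ((n : ℂ) + 1) = (((n : ℝ) + 1 : ℝ) : ℂ) := by push_cast; rfl
    rw [hn1, hn2, Complex.add_re, Complex.re_ofReal_mul, Complex.re_ofReal_mul, Complex.add_re,
      Complex.add_re, hare, hare', hbre, hbre', Complex.zero_re, ep, em, Real.cos_add,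
      Real.cos_sub] at hre
    have hmain : (n : ℝ) * Real.cos (n * θ) * Real.cos θ = -(Real.sin (n * θ) * Real.sin θ) := by
      linarith
    have hcne : Real.cos ((n : ℝ) * θ) ≠ 0 := by
      intro h0
      rw [h0] at hmain hsc
      have : Real.sin ((n : ℝ) * θ) * Real.sin θ = 0 := by linarith
      rcases mul_eq_zero.mp this with h5 | h5
      · rw [h5] at hsc; norm_num at hsc
      · exact hsθ.ne' h5
    have hconv : Real.cos ((n : ℝ) * θ) = Real.sin (((N : ℤ) - 2 * (n : ℤ) : ℤ) * (Real.pi / ((2 * N : ℕ) : ℝ))) := by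
      rw [← Real.sin_pi_div_two_sub]
      congr 1
      rw [hθ]; push_cast; field_simp
    have hge := sin_ge (2 * N) (by omega) ((N : ℤ) - 2 * (n : ℤ)) (by rw [← hconv]; exact hcne)
    rw [← hconv] at hge
    have hhalf : Real.pi / ((2 * N : ℕ) : ℝ) = θ / 2 := by
      rw [hθ]; push_cast; field_simp
    rw [hhalf] at hge
    have hs2 : Real.sin θ = 2 * Real.sin (θ / 2) * Real.cos (θ / 2) := by
      rw [← Real.sin_two_mul]; congr 1; ring
    have hsh : 0 < Real.sin (θ / 2) := Real.sin_pos_of_pos_of_lt_pi (by linarith) (by linarith)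
    have hch : Real.cos (θ / 2) < 1 := by
      have h6 := Real.sin_sq_add_cos_sq (θ / 2)
      by_contra hcon
      have hcon' : 1 ≤ Real.cos (θ / 2) := not_lt.mp hcon
      have h61 : 0 < Real.sin (θ / 2) ^ 2 := pow_pos hsh 2
      have h62 : 1 * 1 ≤ Real.cos (θ / 2) * Real.cos (θ / 2) :=
        mul_le_mul hcon' hcon' zero_le_one (by linarith)
      have h63 : Real.cos (θ / 2) ^ 2 = Real.cos (θ / 2) * Real.cos (θ / 2) := sq _
      linarith
    have habs : (n : ℝ) * |Real.cos (n * θ)| * Real.cos θ = |Real.sin (n * θ)| * Real.sin θ := by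
      have := congrArg abs hmain
      rw [abs_mul, abs_mul, abs_neg, abs_mul, abs_of_pos hsθ, Nat.abs_cast,
        abs_of_pos (show 0 < Real.cos θ by linarith)] at this
      exact this
    have h7 : (n : ℝ) * Real.sin (θ / 2) * Real.cos θ ≤ (n : ℝ) * |Real.cos (n * θ)| * Real.cos θ := by
      apply mul_le_mul_of_nonneg_right _ (by linarith)
      exact mul_le_mul_of_nonneg_left hge (by linarith)
    have h8 : |Real.sin (n * θ)| * Real.sin θ ≤ 1 * Real.sin θ :=
      mul_le_mul_of_nonneg_right hs1 hsθ.le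
    have h9 : (n : ℝ) * Real.cos θ * Real.sin (θ / 2) ≤ 2 * Real.cos (θ / 2) * Real.sin (θ / 2) := by
      calc (n : ℝ) * Real.cos θ * Real.sin (θ / 2) = (n : ℝ) * Real.sin (θ / 2) * Real.cos θ := by
            ring
        _ ≤ _ := h7
        _ = _ := habs
        _ ≤ _ := h8
        _ = 2 * Real.cos (θ / 2) * Real.sin (θ / 2) := by rw [hs2]; ring
    have h10 : (n : ℝ) * Real.cos θ ≤ 2 * Real.cos (θ / 2) := le_of_mul_le_mul_right h9 hsh
    have h11 : (4 : ℝ) * (1 / 2) ≤ (n : ℝ) * Real.cos θ :=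
      mul_le_mul hn4 hcθ (by norm_num) (by linarith)
    linarith
  · -- n odd
    have e1 : (-v) ^ (n + 1) = a * a := by rw [hpar.add_one.neg_pow, h1]
    have e2 : (-v) ^ n = -(a * b) := by rw [hpar.neg_pow, h2]
    rw [e1, e2] at h
    have h' : ((n : ℂ) - 1) * (a - a') + ((n : ℂ) + 1) * (b - b') = 0 := by
      have : a * (((n : ℂ) - 1) * (a - a') + ((n : ℂ) + 1) * (b - b')) = 0 := by
        have : a * (((n : ℂ) - 1) * (a - a') + ((n : ℂ) + 1) * (b - b'))
          = ((n : ℂ) - 1) * (a * a - a * a') + ((n : ℂ) + 1) * (a * b - a * b') := by ring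
        rw [this, haa, ← h3]
        linear_combination h
      exact (mul_eq_zero.mp this).resolve_left ha0
    have him := congrArg Complex.im h'
    have hn1 : ((n : ℂ) - 1) = (((n : ℝ) - 1 : ℝ) : ℂ) := by push_cast; rfl
    have hn2 : ((n : ℂ) + 1) = (((n : ℝ) + 1 : ℝ) : ℂ) := by push_cast; rfl
    rw [hn1, hn2, Complex.add_im, Complex.im_ofReal_mul, Complex.im_ofReal_mul, Complex.sub_im,
      Complex.sub_im, haim, haim', hbim, hbim', Complex.zero_im, ep, em, Real.sin_add,
      Real.sin_sub] at him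
    have hmain : (n : ℝ) * Real.sin (n * θ) * Real.cos θ = Real.cos (n * θ) * Real.sin θ := by
      linarith
    have hsne : Real.sin ((n : ℝ) * θ) ≠ 0 := by
      intro h0
      rw [h0] at hmain hsc
      have : Real.cos ((n : ℝ) * θ) * Real.sin θ = 0 := by linarith
      rcases mul_eq_zero.mp this with h5 | h5
      · rw [h5] at hsc; norm_num at hsc
      · exact hsθ.ne' h5
    have hge := sin_ge N (by omega) (n : ℤ) (by push_cast; exact hsne)
    have hge' : Real.sin θ ≤ |Real.sin ((n : ℝ) * θ)| := by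
      have := hge
      push_cast at this
      exact this
    have habs : (n : ℝ) * |Real.sin (n * θ)| * Real.cos θ = |Real.cos (n * θ)| * Real.sin θ := by
      have := congrArg abs hmain
      rw [abs_mul, abs_mul, abs_mul, abs_of_pos hsθ, Nat.abs_cast,
        abs_of_pos (show 0 < Real.cos θ by linarith)] at this
      exact this
    have h7 : (n : ℝ) * Real.sin θ * Real.cos θ ≤ (n : ℝ) * |Real.sin (n * θ)| * Real.cos θ := by
      apply mul_le_mul_of_nonneg_right _ (by linarith)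
      exact mul_le_mul_of_nonneg_left hge' (by linarith)
    have h8 : |Real.cos (n * θ)| * Real.sin θ ≤ 1 * Real.sin θ :=
      mul_le_mul_of_nonneg_right hc1 hsθ.le
    have h9 : (n : ℝ) * Real.cos θ * Real.sin θ ≤ 1 * Real.sin θ := by
      calc (n : ℝ) * Real.cos θ * Real.sin θ = (n : ℝ) * Real.sin θ * Real.cos θ := by
            ring
        _ ≤ _ := h7
        _ = _ := habs
        _ ≤ _ := h8
    have h10 : (n : ℝ) * Real.cos θ ≤ 1 := le_of_mul_le_mul_right h9 hsθ
    have h11 : (4 : ℝ) * (1 / 2) ≤ (n : ℝ) * Real.cos θ :=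
      mul_le_mul hn4 hcθ (by norm_num) (by linarith)
    linarith

end Pool.Agent.L7h91.GT
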