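import Mathlib
import Pool.Agent.L7h91.GT.Circle
import Pool.Agent.L7h91.GT.Unity
import Pool.Agent.L7h91.GT.Alg

open Polynomial

namespace Pool.Agent.L7h91.GT

/-- (n-1)/(2,n-1) -/
def M (n : ℕ) : ℕ := (n - 1) / Nat.gcd 2 (n - 1)

def L (n : ℕ) : ℕ := (n + 1) / Nat.gcd 2 (n - 1)

noncomputable def S' (n : ℕ) : ℤ[X] :=
  C (M n : ℤ) * (X ^ (n + 1) - 1) - C (L n : ℤ) * (X ^ n - X)

lemma gcd_dvd_add {n : ℕ} (hn : 1 ≤ n) : Nat.gcd 2 (n - 1) ∣ n + 1 := by
  have h1 : Nat.gcd 2 (n - 1) ∣ 2 := Nat.gcd_dvd_left _ _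
  have h2 : Nat.gcd 2 (n - 1) ∣ n - 1 := Nat.gcd_dvd_right _ _
  have : n + 1 = (n - 1) + 2 := by omega
  rw [this]
  exact dvd_add h2 h1

lemma M_mul {n : ℕ} : M n * Nat.gcd 2 (n - 1) = n - 1 :=
  Nat.div_mul_cancel (Nat.gcd_dvd_right _ _)

lemma L_mul {n : ℕ} (hn : 1 ≤ n) : L n * Nat.gcd 2 (n - 1) = n + 1 :=
  Nat.div_mul_cancel (gcd_dvd_add hn)

lemma coprime_ML {n : ℕ} (hn : 1 ≤ n) : Nat.Coprime (M n) (L n) := by
  rw [Nat.coprime_iff_gcd_eq_one]
  set g := Nat.gcd 2 (n - 1) with hg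
  have hg0 : 0 < g := Nat.gcd_pos_of_pos_left _ (by norm_num)
  set d := Nat.gcd (M n) (L n) with hd
  have h1 : d * g ∣ n - 1 := by
    rw [← M_mul (n := n)]
    exact Nat.mul_dvd_mul_right (Nat.gcd_dvd_left _ _) _
  have h2 : d * g ∣ n + 1 := by
    rw [← L_mul hn]
    exact Nat.mul_dvd_mul_right (Nat.gcd_dvd_right _ _) _
  have h3 : d * g ∣ 2 := by
    have : 2 = (n + 1) - (n - 1) := by omega
    rw [this]
    exact Nat.dvd_sub h2 h1
  have h4 : d * g ∣ g := Nat.dvd_gcd h3 h1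
  have h5 : d * g ≤ 1 * g := by simpa using Nat.le_of_dvd hg0 h4
  have h6 : d ≤ 1 := Nat.le_of_mul_le_mul_right h5 hg0
  have h7 : d ≠ 0 := by
    intro h0
    rw [h0, zero_mul] at h1
    have : 0 = 2 := by
      rw [h0, zero_mul] at h3
      exact (Nat.eq_zero_of_zero_dvd h3).symm
    omega
  omega

lemma S_eq' {n : ℕ} (hn : 1 ≤ n) : S n = C ((Nat.gcd 2 (n - 1) : ℕ) : ℤ) * S' n := by
  have h1 : ((n : ℤ) - 1) = ((Nat.gcd 2 (n - 1) : ℕ) : ℤ) * (M n : ℤ) := by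
    have h := M_mul (n := n)
    have h' : ((M n * Nat.gcd 2 (n - 1) : ℕ) : ℤ) = ((n - 1 : ℕ) : ℤ) := by rw [h]
    rw [Nat.cast_mul, Nat.cast_sub hn] at h'
    push_cast at h'
    linarith
  have h2 : ((n : ℤ) + 1) = ((Nat.gcd 2 (n - 1) : ℕ) : ℤ) * (L n : ℤ) := by
    have h := L_mul hn
    have h' : ((L n * Nat.gcd 2 (n - 1) : ℕ) : ℤ) = ((n + 1 : ℕ) : ℤ) := by rw [h]
    rw [Nat.cast_mul] at h'
    push_cast at h'
    linarith
  rw [S, S', h1, h2]
  simp only [map_mul]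
  ring

lemma M_pos {n : ℕ} (hn : 4 ≤ n) : 0 < M n := by
  have := M_mul (n := n)
  rcases Nat.eq_zero_or_pos (M n) with h | h
  · rw [h, zero_mul] at this; omega
  · exact h

lemma S'_coeff_top {n : ℕ} (hn : 4 ≤ n) : (S' n).coeff (n + 1) = M n := by
  have h1 : n + 1 ≠ 0 := by omega
  have h2 : n + 1 ≠ n := by omega
  have h3 : (1 : ℕ) ≠ n + 1 := by omega
  simp [S', coeff_X_pow, coeff_one, coeff_X, h2, show n ≠ 0 by omega]

lemma S'_coeff_n {n : ℕ} (hn : 4 ≤ n) : (S' n).coeff n = -(L n : ℤ) := by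
  have h1 : n ≠ 0 := by omega
  have h2 : n ≠ n + 1 := by omega
  have h3 : (1 : ℕ) ≠ n := by omega
  simp [S', coeff_X_pow, coeff_one, coeff_X, h1, h3]

lemma S'_natDegree {n : ℕ} (hn : 4 ≤ n) : (S' n).natDegree = n + 1 := by
  apply le_antisymm
  · unfold S'
    compute_degree
    all_goals omega
  · apply le_natDegree_of_ne_zero
    rw [S'_coeff_top hn]
    exact_mod_cast (M_pos hn).ne'

lemma S'_leadingCoeff {n : ℕ} (hn : 4 ≤ n) : (S' n).leadingCoeff = M n := by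
  rw [leadingCoeff, S'_natDegree hn, S'_coeff_top hn]

lemma S'_ne_zero {n : ℕ} (hn : 4 ≤ n) : S' n ≠ 0 := by
  intro h
  have := S'_natDegree hn
  rw [h, natDegree_zero] at this
  omega

lemma S'_primitive {n : ℕ} (hn : 4 ≤ n) : (S' n).IsPrimitive := by
  intro r hr
  rw [C_dvd_iff_dvd_coeff] at hr
  have h1 := hr (n + 1)
  have h2 := hr n
  rw [S'_coeff_top hn] at h1
  rw [S'_coeff_n hn, dvd_neg] at h2
  exact (Nat.isCoprime_iff_coprime.mpr (coprime_ML (by omega : 1 ≤ n))).isUnit_of_dvd' h1 h2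

lemma exists_primitive (f : ℚ[X]) (hf : f ≠ 0) :
    ∃ F : ℤ[X], F.IsPrimitive ∧ ∃ c : ℚ, c ≠ 0 ∧ F.map (Int.castRingHom ℚ) = C c * f := by
  obtain ⟨b, hb⟩ := IsLocalization.integerNormalization_map_to_map (nonZeroDivisors ℤ) f
  set G := IsLocalization.integerNormalization (nonZeroDivisors ℤ) f with hG
  have hb0 : (b : ℤ) ≠ 0 := nonZeroDivisors.ne_zero b.2
  have hbq : ((b : ℤ) : ℚ) ≠ 0 := by exact_mod_cast hb0
  have hmap : G.map (Int.castRingHom ℚ) = C ((b : ℤ) : ℚ) * f := by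
    rw [← algebraMap_int_eq, hb]
    rw [← smul_eq_C_mul]
    ext i
    simp
  have hG0 : G ≠ 0 := by
    intro h0
    rw [h0, Polynomial.map_zero] at hmap
    have := (mul_eq_zero.mp hmap.symm).resolve_right hf
    rw [C_eq_zero] at this
    exact hbq this
  have hc0 : G.content ≠ 0 := by rwa [Ne, content_eq_zero_iff]
  have hcq : ((G.content : ℤ) : ℚ) ≠ 0 := by exact_mod_cast hc0
  refine ⟨G.primPart, G.isPrimitive_primPart, ((b : ℤ) : ℚ) / (G.content : ℚ), div_ne_zero hbq hcq, ?_⟩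
  have h1 := G.eq_C_content_mul_primPart
  have h2 : C ((G.content : ℤ) : ℚ) * G.primPart.map (Int.castRingHom ℚ) = C ((b : ℤ) : ℚ) * f := by
    rw [← hmap]
    conv_rhs => rw [h1]
    rw [Polynomial.map_mul, map_C]
    rfl
  have h3 : C ((G.content : ℤ) : ℚ) ≠ 0 := by rwa [Ne, C_eq_zero]
  apply mul_left_cancel₀ h3
  rw [h2, ← mul_assoc, ← C_mul]
  congr 2
  field_simp

lemma coprime_lc {n : ℕ} (hn : 4 ≤ n) (F G : ℤ[X]) (hFG : F * G ∣ S' n) (hF : 0 < F.natDegree)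
    (hG : 0 < G.natDegree) (p : ℕ) (hp : p.Prime) (h1 : (p : ℤ) ∣ F.leadingCoeff)
    (h2 : (p : ℤ) ∣ G.leadingCoeff) : False := by
  haveI : Fact p.Prime := ⟨hp⟩
  obtain ⟨H, hH⟩ := hFG
  have hS0 := S'_ne_zero hn
  have hF0 : F ≠ 0 := by rintro rfl; simp at hF
  have hG0 : G ≠ 0 := by rintro rfl; simp at hG
  have hH0 : H ≠ 0 := by rintro rfl; rw [mul_zero] at hH; exact hS0 hH
  have hdeg : F.natDegree + G.natDegree + H.natDegree = n + 1 := by
    rw [← S'_natDegree hn, hH, natDegree_mul (mul_ne_zero hF0 hG0) hH0, natDegree_mul hF0 hG0]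
  have hdM : (p : ℤ) ∣ M n := by
    have : F.leadingCoeff ∣ (S' n).leadingCoeff := by
      apply leadingCoeff_dvd_leadingCoeff
      exact ⟨G * H, by rw [hH]; ring⟩
    rw [S'_leadingCoeff hn] at this
    exact h1.trans this
  have hndL : ¬ (p : ℤ) ∣ L n := by
    intro h
    rw [Int.natCast_dvd_natCast] at h hdM
    have := Nat.dvd_gcd hdM h
    rw [Nat.Coprime.gcd_eq_one (coprime_ML (by omega : 1 ≤ n))] at this
    exact hp.one_lt.ne' (Nat.dvd_one.mp this)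
  set φ := Int.castRingHom (ZMod p) with hφ
  have e1 : (F.map φ).natDegree < F.natDegree := by
    apply natDegree_map_lt' _ hF
    rw [hφ, eq_intCast, ZMod.intCast_zmod_eq_zero_iff_dvd]
    exact h1
  have e2 : (G.map φ).natDegree < G.natDegree := by
    apply natDegree_map_lt' _ hG
    rw [hφ, eq_intCast, ZMod.intCast_zmod_eq_zero_iff_dvd]
    exact h2
  have e3 : (H.map φ).natDegree ≤ H.natDegree := natDegree_map_le
  have e4 : ((S' n).map φ).natDegree ≤ (F.map φ).natDegree + (G.map φ).natDegree + (H.map φ).natDegree := by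
    rw [hH, Polynomial.map_mul, Polynomial.map_mul]
    refine natDegree_mul_le.trans ?_
    gcongr
    exact natDegree_mul_le
  have e5 : n ≤ ((S' n).map φ).natDegree := by
    apply le_natDegree_of_ne_zero
    rw [coeff_map, S'_coeff_n hn, hφ, eq_intCast, Int.cast_neg, neg_ne_zero, Ne,
      ZMod.intCast_zmod_eq_zero_iff_dvd]
    exact hndL
  omega

end Pool.Agent.L7h91.GT
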