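import Mathlib
import Pool.Agent.L7h91.GT.Count

open Polynomial

namespace Pool.Agent.L7h91.GT

lemma aeval_S (n : ℕ) (z : ℂ) : aeval z (S n)
    = ((n : ℂ) - 1) * (z ^ (n + 1) - 1) - ((n : ℂ) + 1) * (z ^ n - z) := by
  simp [S]

lemma root_transfer {F G : ℤ[X]}
    (h : F.map (Int.castRingHom ℚ) ∣ G.map (Int.castRingHom ℚ)) (z : ℂ) (hz : aeval z F = 0) :
    aeval z G = 0 := by
  obtain ⟨H, hH⟩ := h
  have h1 : aeval z (G.map (Int.castRingHom ℚ)) = aeval z (F.map (Int.castRingHom ℚ)) * aeval z H := by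
    rw [hH, map_mul]
  rw [← algebraMap_int_eq, aeval_map_algebraMap, aeval_map_algebraMap, hz, zero_mul] at h1
  exact h1

lemma aeval_intCast_eq (G : ℤ[X]) (a : ℤ) : aeval ((a : ℤ) : ℂ) G = ((G.eval a : ℤ) : ℂ) := by
  have := (Polynomial.aeval_algebraMap_apply ℂ a G)
  simpa using this

lemma mahler_eq {n : ℕ} (hn : 4 ≤ n) (F : ℤ[X])
    (hF : F.map (Int.castRingHom ℚ) ∣ (redS n).map (Int.castRingHom ℚ)) :
    (F.map (Int.castRingHom ℂ)).mahlerMeasure = |(F.leadingCoeff : ℝ)| := by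
  have hrootP : ∀ z : ℂ, aeval z F = 0 → aeval z (redS n) = 0 := fun z hz => root_transfer hF z hz
  have hrootS : ∀ z : ℂ, aeval z F = 0 → aeval z (S n) = 0 := by
    intro z hz
    obtain ⟨R, hR⟩ := redS_dvd n
    rw [hR, map_mul, hrootP z hz, zero_mul]
  rw [mahlerMeasure_eq_leadingCoeff_mul_prod_roots,
    leadingCoeff_map_of_injective (Int.castRingHom ℂ).injective_int, eq_intCast,
    Complex.norm_intCast]
  have : ((F.map (Int.castRingHom ℂ)).roots.map (fun a ↦ max 1 ‖a‖)).prod = 1 := by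
    apply Multiset.prod_eq_one
    intro x hx
    rw [Multiset.mem_map] at hx
    obtain ⟨z, hz, rfl⟩ := hx
    rw [mem_roots', IsRoot.def, eval_map] at hz
    have hz' : aeval z F = 0 := by
      rw [aeval_def]; exact hz.2
    have hzS := hrootS z hz'
    rw [aeval_S] at hzS
    have : ‖z‖ ≤ 1 := by
      by_contra hcon
      exact no_big_root n (by omega) z (not_le.mp hcon) hzS
    exact max_eq_left this
  rw [this, mul_one]

lemma lc_ne_one {n : ℕ} (hn : 4 ≤ n) (F : ℤ[X]) (hd : 0 < F.natDegree)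
    (hF : F.map (Int.castRingHom ℚ) ∣ (redS n).map (Int.castRingHom ℚ)) :
    F.leadingCoeff.natAbs ≠ 1 := by
  intro hlc
  have hF0 : F ≠ 0 := by rintro rfl; simp at hd
  have hrootP : ∀ z : ℂ, aeval z F = 0 → aeval z (redS n) = 0 := fun z hz => root_transfer hF z hz
  have hrootS : ∀ z : ℂ, aeval z F = 0 → aeval z (S n) = 0 := by
    intro z hz
    obtain ⟨R, hR⟩ := redS_dvd n
    rw [hR, map_mul, hrootP z hz, zero_mul]
  have hn1 : ((n : ℂ) - 1) ≠ 0 := by
    rw [sub_ne_zero]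
    exact_mod_cast (by omega : n ≠ 1)
  -- the Mahler measure is one
  have hM : (F.map (Int.castRingHom ℂ)).mahlerMeasure = 1 := by
    rw [mahlerMeasure_eq_leadingCoeff_mul_prod_roots,
      leadingCoeff_map_of_injective (Int.castRingHom ℂ).injective_int, eq_intCast]
    have h1 : ‖((F.leadingCoeff : ℤ) : ℂ)‖ = 1 := by
      rw [Complex.norm_intCast]
      have : |F.leadingCoeff| = 1 := by
        rw [Int.abs_eq_natAbs, hlc]; rfl
      exact_mod_cast this
    rw [h1, one_mul]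
    apply Multiset.prod_eq_one
    intro x hx
    rw [Multiset.mem_map] at hx
    obtain ⟨z, hz, rfl⟩ := hx
    rw [mem_roots', IsRoot.def, eval_map] at hz
    have hz' : aeval z F = 0 := by
      rw [aeval_def]; exact hz.2
    have hzS := hrootS z hz'
    rw [aeval_S] at hzS
    have : ‖z‖ ≤ 1 := by
      by_contra hcon
      exact no_big_root n (by omega) z (not_le.mp hcon) hzS
    exact max_eq_left this
  have hX : ¬ X ∣ F := by
    intro h
    obtain ⟨R, hR⟩ := h
    have h0 : aeval (0 : ℂ) F = 0 := by rw [hR]; simp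
    have h1 := hrootS 0 h0
    rw [aeval_S] at h1
    have : n ≠ 0 := by omega
    simp [this] at h1
    exact hn1 (by linear_combination -h1)
  obtain ⟨m, hm0, hm⟩ := cyclotomic_dvd_of_mahlerMeasure_eq_one hM hX
    (by intro h; rw [natDegree_eq_of_degree_eq_some h] at hd; exact lt_irrefl _ hd)
  have hroot : ∀ z : ℂ, aeval z (cyclotomic m ℤ) = 0 → aeval z F = 0 := by
    intro z hz
    obtain ⟨R, hR⟩ := hm
    rw [hR, map_mul, hz, zero_mul]
  have hm1 : m ≠ 1 := by
    rintro rfl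
    have h1 : aeval ((1 : ℤ) : ℂ) (cyclotomic 1 ℤ) = 0 := by simp
    have h2 := hrootP _ (hroot _ h1)
    rw [aeval_intCast_eq] at h2
    exact redS_eval_one hn (by exact_mod_cast h2)
  have hm2 : m ≠ 2 := by
    rintro rfl
    have h1 : aeval ((-1 : ℤ) : ℂ) (cyclotomic 2 ℤ) = 0 := by simp
    have h2 := hrootP _ (hroot _ h1)
    rw [aeval_intCast_eq] at h2
    exact redS_eval_neg_one hn (by exact_mod_cast h2)
  have hm3 : 3 ≤ m := by omega
  set ζ : ℂ := Complex.exp (2 * Real.pi * Complex.I / m) with hζ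
  have hζp : IsPrimitiveRoot ζ m := Complex.isPrimitiveRoot_exp m (by omega)
  have hcyc : ∀ (k : ℕ) (w : ℂ), 0 < k → IsPrimitiveRoot w k → aeval w (cyclotomic k ℤ) = 0 := by
    intro k w hk hw
    have h1 : eval w (cyclotomic k ℂ) = 0 := by
      have : NeZero ((k : ℕ) : ℂ) := ⟨by exact_mod_cast hk.ne'⟩
      exact (isRoot_cyclotomic_iff.mpr hw)
    rw [← map_cyclotomic_int k ℂ, eval_map] at h1
    rw [aeval_def]; exact h1
  have hSζ : aeval ζ (S n) = 0 := hrootS ζ (hroot ζ (hcyc m ζ (by omega) hζp))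
  have hζm : ζ ^ m = 1 := hζp.pow_eq_one
  have hneg : (-ζ) ^ (2 * m) = 1 := by
    rw [(even_two_mul m).neg_pow, mul_comm, pow_mul, hζm, one_pow]
  set m' := orderOf (-ζ) with hm'
  have hm'0 : 0 < m' := by
    rw [hm', orderOf_pos_iff, isOfFinOrder_iff_pow_eq_one]
    exact ⟨2 * m, by omega, hneg⟩
  have hprim : IsPrimitiveRoot (-ζ) m' := IsPrimitiveRoot.orderOf (-ζ)
  have hsq : ζ ^ 2 ≠ 1 := by
    intro h
    have := hζp.dvd_of_pow_eq_one 2 h
    have := Nat.le_of_dvd (by norm_num) this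
    omega
  have hm'3 : 3 ≤ m' := by
    by_contra hcon
    have h1 : (-ζ) ^ m' = 1 := hprim.pow_eq_one
    have : m' = 1 ∨ m' = 2 := by omega
    rcases this with h | h
    · rw [h, pow_one] at h1
      apply hsq
      have : ζ = -1 := by rw [← h1]; ring
      rw [this]; norm_num
    · rw [h, neg_sq] at h1
      exact hsq h1
  have hR : aeval (-ζ) ((S n).comp (-X)) = 0 := by
    rw [aeval_comp]
    simp only [map_neg, aeval_X, neg_neg]
    exact hSζ
  have hint : IsIntegral ℤ (-ζ) := hprim.isIntegral hm'0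
  have hdvd : cyclotomic m' ℤ ∣ (S n).comp (-X) := by
    rw [cyclotomic_eq_minpoly hprim hm'0]
    exact minpoly.isIntegrallyClosed_dvd hint hR
  obtain ⟨R, hR'⟩ := hdvd
  have hlast : aeval (Complex.exp (2 * Real.pi * Complex.I / m')) ((S n).comp (-X)) = 0 := by
    rw [hR', map_mul, hcyc m' _ hm'0 (Complex.isPrimitiveRoot_exp m' (by omega)), zero_mul]
  rw [aeval_comp] at hlast
  simp only [map_neg, aeval_X] at hlast
  rw [aeval_S] at hlast
  exact neg_exp_not_root n m' hn hm'3 hlast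

lemma redS_dvd_S' {n : ℕ} (hn : 4 ≤ n) :
    (redS n).map (Int.castRingHom ℚ) ∣ (S' n).map (Int.castRingHom ℚ) := by
  have h1 : (redS n).map (Int.castRingHom ℚ) ∣ (S n).map (Int.castRingHom ℚ) :=
    Polynomial.map_dvd _ (redS_dvd n)
  rw [S_eq' (by omega : 1 ≤ n), Polynomial.map_mul, map_C] at h1
  have hg : ((Nat.gcd 2 (n - 1) : ℕ) : ℚ) ≠ 0 := by
    have : 0 < Nat.gcd 2 (n - 1) := Nat.gcd_pos_of_pos_left _ (by norm_num)
    exact_mod_cast this.ne'
  have hu : IsUnit (C ((Int.castRingHom ℚ) ((Nat.gcd 2 (n - 1) : ℕ) : ℤ))) := by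
    rw [isUnit_C, isUnit_iff_ne_zero]
    simpa using hg
  rwa [hu.dvd_mul_left] at h1

/-- The main counting theorem. -/
theorem count {n : ℕ} (hn : 4 ≤ n) (k : ℕ) (f : Fin k → ℚ[X]) (hf : ∀ i, 0 < (f i).natDegree)
    (hprod : (redS n).map (Int.castRingHom ℚ) = ∏ i, f i) : k ≤ (M n).primeFactors.card := by
  have hf0 : ∀ i, f i ≠ 0 := by
    intro i h
    have := hf i
    rw [h] at this; simp at this
  choose F hFp c hc hFc using fun i => exists_primitive (f i) (hf0 i)
  have hdeg : ∀ i, 0 < (F i).natDegree := by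
    intro i
    have h1 : ((F i).map (Int.castRingHom ℚ)).natDegree = (F i).natDegree :=
      natDegree_map_eq_of_injective (Int.castRingHom ℚ).injective_int _
    rw [← h1, hFc i, natDegree_C_mul (hc i)]
    exact hf i
  have hunit : ∀ i, IsUnit (C (c i)) := fun i => isUnit_C.mpr (isUnit_iff_ne_zero.mpr (hc i))
  have hdvd1 : ∀ i, (F i).map (Int.castRingHom ℚ) ∣ (redS n).map (Int.castRingHom ℚ) := by
    intro i
    rw [hFc i, hprod, (hunit i).mul_left_dvd]
    exact Finset.dvd_prod_of_mem _ (Finset.mem_univ i)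
  have hSdvd : (redS n).map (Int.castRingHom ℚ) ∣ (S' n).map (Int.castRingHom ℚ) := by
    have h1 : (redS n).map (Int.castRingHom ℚ) ∣ (S n).map (Int.castRingHom ℚ) :=
      Polynomial.map_dvd _ (redS_dvd n)
    rw [S_eq' (by omega : 1 ≤ n), Polynomial.map_mul, map_C] at h1
    have hg : ((Nat.gcd 2 (n - 1) : ℕ) : ℚ) ≠ 0 := by
      have : 0 < Nat.gcd 2 (n - 1) := Nat.gcd_pos_of_pos_left _ (by norm_num)
      exact_mod_cast this.ne'
    have hu : IsUnit (C ((Int.castRingHom ℚ) ((Nat.gcd 2 (n - 1) : ℕ) : ℤ))) := by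
      rw [isUnit_C, isUnit_iff_ne_zero]
      simpa using hg
    rwa [hu.dvd_mul_left] at h1
  have hdvd2 : ∀ i, F i ∣ S' n := by
    intro i
    rw [IsPrimitive.Int.dvd_iff_map_cast_dvd_map_cast _ _ (hFp i)]
    exact (hdvd1 i).trans hSdvd
  have hdvd3 : ∀ i j, i ≠ j → F i * F j ∣ S' n := by
    intro i j hij
    rw [IsPrimitive.Int.dvd_iff_map_cast_dvd_map_cast _ _ ((hFp i).mul (hFp j))]
    refine dvd_trans ?_ hSdvd
    rw [Polynomial.map_mul, hFc i, hFc j, hprod]
    have h1 : f i * f j ∣ ∏ i, f i := by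
      rw [← Finset.mul_prod_erase Finset.univ f (Finset.mem_univ i)]
      exact mul_dvd_mul_left _ (Finset.dvd_prod_of_mem _ (Finset.mem_erase.mpr ⟨hij.symm, Finset.mem_univ j⟩))
    have h2 : C (c i) * f i * (C (c j) * f j) = (C (c i) * C (c j)) * (f i * f j) := by ring
    rw [h2, ((hunit i).mul (hunit j)).mul_left_dvd]
    exact h1
  choose p hp hpd using fun i => Nat.exists_prime_and_dvd (lc_ne_one hn (F i) (hdeg i) (hdvd1 i))
  have hpd' : ∀ i, (p i : ℤ) ∣ (F i).leadingCoeff := fun i => Int.natCast_dvd.mpr (hpd i)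
  have hmem : ∀ i, p i ∈ (M n).primeFactors := by
    intro i
    rw [Nat.mem_primeFactors]
    refine ⟨hp i, ?_, (M_pos hn).ne'⟩
    have h1 : (F i).leadingCoeff ∣ (S' n).leadingCoeff := leadingCoeff_dvd_leadingCoeff (hdvd2 i)
    rw [S'_leadingCoeff hn] at h1
    exact Int.natCast_dvd_natCast.mp ((hpd' i).trans h1)
  have hinj : Function.Injective p := by
    intro i j hij
    by_contra hne
    exact coprime_lc hn (F i) (F j) (hdvd3 i j hne) (hdeg i) (hdeg j) (p i) (hp i) (hpd' i)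
      (by rw [hij]; exact hpd' j)
  calc k = (Finset.univ : Finset (Fin k)).card := by simp
    _ ≤ (M n).primeFactors.card :=
      Finset.card_le_card_of_injOn p (fun i _ => hmem i) (hinj.injOn)

end Pool.Agent.L7h91.GT
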