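import Mathlib
import Pool.Agent.L7h91.GT.Main

open Polynomial

namespace Pool.Agent.L7h91.GT

/-- homogenised value at L/M. -/
noncomputable def A (n : ℕ) (F : ℤ[X]) : ℤ :=
  ∑ i ∈ Finset.range (F.natDegree + 1), F.coeff i * (L n : ℤ) ^ i * (M n : ℤ) ^ (F.natDegree - i)

lemma A_cast {n : ℕ} (hn : 4 ≤ n) (F : ℤ[X]) : ((A n F : ℤ) : ℚ)
    = (M n : ℚ) ^ F.natDegree * (F.map (Int.castRingHom ℚ)).eval ((L n : ℚ) / (M n : ℚ)) := by
  have hM : (M n : ℚ) ≠ 0 := by exact_mod_cast (M_pos hn).ne'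
  have hd : (F.map (Int.castRingHom ℚ)).natDegree = F.natDegree :=
    natDegree_map_eq_of_injective (Int.castRingHom ℚ).injective_int _
  rw [eval_eq_sum_range, hd, Finset.mul_sum, A]
  push_cast
  refine Finset.sum_congr rfl fun i hi => ?_
  rw [Finset.mem_range] at hi
  have h1 : (M n : ℚ) ^ F.natDegree = (M n : ℚ) ^ (F.natDegree - i) * (M n : ℚ) ^ i := by
    rw [← pow_add]; congr 1; omega
  rw [h1, coeff_map, eq_intCast, div_pow]
  field_simp

lemma A_mul {n : ℕ} (hn : 4 ≤ n) (F G : ℤ[X]) (hF : F ≠ 0) (hG : G ≠ 0) :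
    A n (F * G) = A n F * A n G := by
  have h : ((A n (F * G) : ℤ) : ℚ) = ((A n F * A n G : ℤ) : ℚ) := by
    rw [Int.cast_mul, A_cast hn, A_cast hn, A_cast hn, natDegree_mul hF hG, Polynomial.map_mul,
      eval_mul, pow_add]
    ring
  exact_mod_cast h

lemma A_S' {n : ℕ} (hn : 4 ≤ n) : A n (S' n) = (M n : ℤ) ^ n * ((L n : ℤ) ^ 2 - (M n : ℤ) ^ 2) := by
  have hM : (M n : ℚ) ≠ 0 := by exact_mod_cast (M_pos hn).ne'
  have h : ((A n (S' n) : ℤ) : ℚ)
      = (((M n : ℤ) ^ n * ((L n : ℤ) ^ 2 - (M n : ℤ) ^ 2) : ℤ) : ℚ) := by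
    rw [A_cast hn, S'_natDegree hn]
    have : ((S' n).map (Int.castRingHom ℚ)).eval ((L n : ℚ) / (M n : ℚ))
        = (M n : ℚ) * (((L n : ℚ) / (M n : ℚ)) ^ (n + 1) - 1)
          - (L n : ℚ) * (((L n : ℚ) / (M n : ℚ)) ^ n - (L n : ℚ) / (M n : ℚ)) := by
      simp [S']
    rw [this, div_pow, div_pow]
    push_cast
    field_simp
    ring
  exact_mod_cast h

lemma A_mod {n : ℕ} (F : ℤ[X]) :
    (M n : ℤ) ∣ A n F - F.leadingCoeff * (L n : ℤ) ^ F.natDegree := by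
  rw [A, Finset.sum_range_succ, Nat.sub_self, pow_zero, mul_one, leadingCoeff, add_sub_cancel_right]
  apply Finset.dvd_sum
  intro i hi
  rw [Finset.mem_range] at hi
  exact Dvd.dvd.mul_left (dvd_pow_self _ (by omega)) _

lemma L_gt_M {n : ℕ} (hn : 4 ≤ n) : M n < L n := by
  have h1 := M_mul (n := n)
  have h2 := L_mul (n := n) (by omega)
  have hg : 0 < Nat.gcd 2 (n - 1) := Nat.gcd_pos_of_pos_left _ (by norm_num)
  by_contra hcon
  have := Nat.mul_le_mul_right (Nat.gcd 2 (n - 1)) (not_lt.mp hcon)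
  omega

/-- leading coefficient against degree. -/
lemma lc_pow_le {n : ℕ} (hn : 4 ≤ n) (F : ℤ[X]) (hFp : F.IsPrimitive) (hd : 0 < F.natDegree)
    (hF : F.map (Int.castRingHom ℚ) ∣ (redS n).map (Int.castRingHom ℚ)) :
    F.leadingCoeff.natAbs ^ (n - 1) ≤ (L n + M n) ^ F.natDegree ∧
      F.leadingCoeff.natAbs ∣ M n := by
  have hF0 : F ≠ 0 := by rintro rfl; simp at hd
  have hS0 := S'_ne_zero hn
  have hdS : F ∣ S' n := by
    rw [IsPrimitive.Int.dvd_iff_map_cast_dvd_map_cast _ _ hFp]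
    exact hF.trans (redS_dvd_S' hn)
  obtain ⟨G, hG⟩ := hdS
  have hG0 : G ≠ 0 := by rintro rfl; rw [mul_zero] at hG; exact hS0 hG
  have hlcM : F.leadingCoeff.natAbs ∣ M n := by
    have h1 : F.leadingCoeff ∣ (S' n).leadingCoeff := leadingCoeff_dvd_leadingCoeff ⟨G, hG⟩
    rw [S'_leadingCoeff hn] at h1
    exact Int.natAbs_dvd_natAbs.mpr h1
  refine ⟨?_, hlcM⟩
  -- the complement has positive degree
  have hGd : 0 < G.natDegree := by
    by_contra hcon
    have hGd0 : G.natDegree = 0 := by omega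
    obtain ⟨b, hb⟩ : ∃ b : ℤ, G = C b := ⟨_, eq_C_of_natDegree_eq_zero hGd0⟩
    have h1 : (S' n).eval 1 = 0 := by simp [S']
    rw [hG, hb, eval_mul, eval_C] at h1
    have hb0 : b ≠ 0 := by rintro rfl; rw [C_0] at hb; exact hG0 hb
    have h2 : F.eval 1 = 0 := (mul_eq_zero.mp h1).resolve_right hb0
    have h3 : aeval ((1 : ℤ) : ℂ) F = 0 := by rw [aeval_intCast_eq, h2, Int.cast_zero]
    have h4 := root_transfer hF _ h3
    rw [aeval_intCast_eq] at h4
    exact redS_eval_one hn (by exact_mod_cast h4)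
  have hcop : IsCoprime F.leadingCoeff G.leadingCoeff := by
    rw [Int.isCoprime_iff_gcd_eq_one, Int.gcd_eq_natAbs]
    by_contra hcon
    obtain ⟨p, hp, h1, h2⟩ := Nat.Prime.not_coprime_iff_dvd.mp hcon
    exact coprime_lc hn F G ⟨1, by rw [hG, mul_one]⟩ hd hGd p hp (Int.natCast_dvd.mpr h1)
      (Int.natCast_dvd.mpr h2)
  have hlcM' : F.leadingCoeff ∣ (M n : ℤ) := Int.dvd_natCast.mpr hlcM
  have hcL : IsCoprime F.leadingCoeff (L n : ℤ) :=
    (Nat.isCoprime_iff_coprime.mpr (coprime_ML (by omega : 1 ≤ n))).of_isCoprime_of_dvd_left hlcM'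
  have hcA : IsCoprime F.leadingCoeff (A n G) := by
    obtain ⟨t, ht⟩ := A_mod (n := n) G
    obtain ⟨u, hu⟩ := hlcM'
    have h1 : IsCoprime F.leadingCoeff (G.leadingCoeff * (L n : ℤ) ^ G.natDegree) :=
      hcop.mul_right hcL.pow_right
    have h2 : A n G = G.leadingCoeff * (L n : ℤ) ^ G.natDegree + F.leadingCoeff * (u * t) := by
      have : A n G = G.leadingCoeff * (L n : ℤ) ^ G.natDegree + (M n : ℤ) * t := by linarith
      rw [this, hu]; ring
    rw [h2]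
    exact h1.add_mul_left_right _
  have hAA : A n F * A n G = (M n : ℤ) ^ n * ((L n : ℤ) ^ 2 - (M n : ℤ) ^ 2) := by
    rw [← A_mul hn F G hF0 hG0, ← hG, A_S' hn]
  have hdvd : F.leadingCoeff ^ n ∣ A n F := by
    have h1 : F.leadingCoeff ^ n ∣ A n F * A n G := by
      rw [hAA]
      exact Dvd.dvd.mul_right (pow_dvd_pow_of_dvd hlcM' n) _
    exact (hcA.pow_left).dvd_of_dvd_mul_right h1
  have hAne : A n F ≠ 0 := by
    intro h0
    rw [h0, zero_mul] at hAA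
    have h1 : (0 : ℤ) < M n := by exact_mod_cast M_pos hn
    have h2 : (M n : ℤ) < L n := by exact_mod_cast L_gt_M hn
    have h3 : (0 : ℤ) < (M n : ℤ) ^ n := by positivity
    have h4 : (0 : ℤ) < (L n : ℤ) ^ 2 - (M n : ℤ) ^ 2 := by nlinarith
    have h5 := mul_pos h3 h4
    omega
  have hle : |F.leadingCoeff| ^ n ≤ |A n F| := by
    rw [← abs_pow]
    exact Int.le_of_dvd (abs_pos.mpr hAne) ((abs_dvd_abs _ _).mpr hdvd)
  have hcoef : ∀ i, |(F.coeff i : ℝ)| ≤ (F.natDegree.choose i : ℝ) * |(F.leadingCoeff : ℝ)| := by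
    intro i
    have h1 := norm_coeff_le_choose_mul_mahlerMeasure i (F.map (Int.castRingHom ℂ))
    rw [mahler_eq hn F hF, natDegree_map_eq_of_injective (Int.castRingHom ℂ).injective_int,
      coeff_map, eq_intCast, Complex.norm_intCast] at h1
    exact h1
  have hup : |((A n F : ℤ) : ℝ)| ≤ |(F.leadingCoeff : ℝ)| * ((L n : ℝ) + (M n : ℝ)) ^ F.natDegree := by
    rw [A]
    push_cast
    refine (Finset.abs_sum_le_sum_abs _ _).trans ?_
    rw [add_pow, Finset.mul_sum]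
    refine Finset.sum_le_sum fun i _ => ?_
    rw [abs_mul, abs_mul, abs_of_nonneg (show (0 : ℝ) ≤ (L n : ℝ) ^ i by positivity),
      abs_of_nonneg (show (0 : ℝ) ≤ (M n : ℝ) ^ (F.natDegree - i) by positivity)]
    calc |(F.coeff i : ℝ)| * (L n : ℝ) ^ i * (M n : ℝ) ^ (F.natDegree - i)
        ≤ ((F.natDegree.choose i : ℝ) * |(F.leadingCoeff : ℝ)|) * (L n : ℝ) ^ i
          * (M n : ℝ) ^ (F.natDegree - i) := by
          have := hcoef i
          gcongr
      _ = _ := by ring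
  have hlc0 : 0 < |(F.leadingCoeff : ℝ)| := by
    rw [abs_pos]
    exact_mod_cast leadingCoeff_ne_zero.mpr hF0
  have hfin : |(F.leadingCoeff : ℝ)| ^ (n - 1) ≤ ((L n : ℝ) + (M n : ℝ)) ^ F.natDegree := by
    have h1 : |(F.leadingCoeff : ℝ)| ^ n ≤ |((A n F : ℤ) : ℝ)| := by exact_mod_cast hle
    have h2 : |(F.leadingCoeff : ℝ)| ^ n = |(F.leadingCoeff : ℝ)| * |(F.leadingCoeff : ℝ)| ^ (n - 1) := by
      rw [← pow_succ']; congr 1; omega
    rw [h2] at h1
    exact le_of_mul_le_mul_left (h1.trans hup) hlc0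
  have h3 : |(F.leadingCoeff : ℝ)| = ((F.leadingCoeff.natAbs : ℕ) : ℝ) := by
    rw [Nat.cast_natAbs]; push_cast; rfl
  rw [h3] at hfin
  exact_mod_cast hfin

end Pool.Agent.L7h91.GT
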