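import Mathlib
import Pool.Agent.L7h91.GT.Degree

open Polynomial

namespace Pool.Agent.L7h91.GT

/-- a real polynomial with positive leading coefficient and no root is positive. -/
lemma pos_of_no_root (p : ℝ[X]) (hp : 0 < p.leadingCoeff) (hr : ∀ x, p.eval x ≠ 0) (x : ℝ) :
    0 < p.eval x := by
  by_contra hcon
  have hx : p.eval x < 0 := lt_of_le_of_ne (not_lt.mp hcon) (hr x)
  rcases Nat.eq_zero_or_pos p.natDegree with h0 | h0
  · obtain ⟨b, hb⟩ : ∃ b : ℝ, p = C b := ⟨_, eq_C_of_natDegree_eq_zero h0⟩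
    rw [hb, leadingCoeff_C] at hp
    rw [hb, eval_C] at hx
    linarith
  · have ht := Polynomial.tendsto_atTop_of_leadingCoeff_nonneg p
      (natDegree_pos_iff_degree_pos.mp h0) hp.le
    have h1 := (ht.eventually_gt_atTop 0).and (Filter.eventually_ge_atTop x)
    obtain ⟨y, hy1, hy2⟩ := h1.exists
    have hcont : ContinuousOn (fun t => p.eval t) (Set.Icc x y) := p.continuous.continuousOn
    obtain ⟨t, _, ht⟩ := intermediate_value_Icc hy2 hcont (show (0 : ℝ) ∈ Set.Icc _ _ from ⟨hx.le, hy1.le⟩)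
    exact hr t ht

lemma even_of_no_root (p : ℝ[X]) (hp : 0 < p.leadingCoeff) (hr : ∀ x, p.eval x ≠ 0) :
    Even p.natDegree := by
  by_contra hodd
  rw [Nat.not_even_iff_odd] at hodd
  set q : ℝ[X] := -(p.comp (-X)) with hq
  have hlc : q.leadingCoeff = p.leadingCoeff := by
    have hX : (-X : ℝ[X]).natDegree ≠ 0 := by rw [natDegree_neg, natDegree_X]; norm_num
    rw [hq, leadingCoeff_neg, leadingCoeff_comp hX, leadingCoeff_neg, leadingCoeff_X,
      hodd.neg_one_pow]
    ring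
  have hrq : ∀ x, q.eval x ≠ 0 := by
    intro x
    rw [hq, eval_neg, eval_comp, neg_ne_zero]
    exact hr _
  have h1 := pos_of_no_root p hp hr 0
  have h2 := pos_of_no_root q (by rw [hlc]; exact hp) hrq 0
  rw [hq, eval_neg, eval_comp] at h2
  simp at h2
  linarith

lemma no_real_root {n : ℕ} (hn : 4 ≤ n) (F : ℤ[X])
    (hF : F.map (Int.castRingHom ℚ) ∣ (redS n).map (Int.castRingHom ℚ)) (x : ℝ) :
    (F.map (Int.castRingHom ℝ)).eval x ≠ 0 := by
  intro h
  have h1 : aeval (x : ℂ) F = 0 := by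
    have h2 : aeval x F = 0 := by rw [aeval_def, ← eval_map]; exact h
    have h3 := Polynomial.aeval_algebraMap_apply ℂ x F
    rw [h2, map_zero] at h3
    exact h3
  have hP := root_transfer hF _ h1
  have hS : aeval (x : ℂ) (S n) = 0 := by
    obtain ⟨R, hR⟩ := redS_dvd n
    rw [hR, map_mul, hP, zero_mul]
  rw [aeval_S] at hS
  have hn1 : ((n : ℂ) - 1) ≠ 0 := by
    rw [sub_ne_zero]
    exact_mod_cast (by omega : n ≠ 1)
  have hx0 : (x : ℂ) ≠ 0 := by
    intro h0
    rw [h0] at hS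
    have : n ≠ 0 := by omega
    simp [this] at hS
    exact hn1 (by linear_combination -hS)
  have hle : ‖(x : ℂ)‖ ≤ 1 := by
    by_contra hcon
    exact no_big_root n (by omega) _ (not_le.mp hcon) hS
  have hinv : ((n : ℂ) - 1) * (((x : ℂ)⁻¹) ^ (n + 1) - 1)
      - ((n : ℂ) + 1) * (((x : ℂ)⁻¹) ^ n - (x : ℂ)⁻¹) = 0 := by
    have h4 : (x : ℂ) ^ (n + 1) * (((n : ℂ) - 1) * (((x : ℂ)⁻¹) ^ (n + 1) - 1)
      - ((n : ℂ) + 1) * (((x : ℂ)⁻¹) ^ n - (x : ℂ)⁻¹)) = 0 := by
      rw [inv_pow, inv_pow]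
      have e1 : (x : ℂ) ^ (n + 1) * ((x : ℂ) ^ (n + 1))⁻¹ = 1 :=
        mul_inv_cancel₀ (pow_ne_zero _ hx0)
      have e2 : (x : ℂ) ^ (n + 1) * ((x : ℂ) ^ n)⁻¹ = x := by
        rw [pow_succ]
        field_simp
      have e3 : (x : ℂ) ^ (n + 1) * (x : ℂ)⁻¹ = (x : ℂ) ^ n := by
        rw [pow_succ]
        field_simp
      linear_combination -hS + ((n : ℂ) - 1) * e1 - ((n : ℂ) + 1) * e2 + ((n : ℂ) + 1) * e3
    exact (mul_eq_zero.mp h4).resolve_left (pow_ne_zero _ hx0)
  have hle2 : ‖(x : ℂ)⁻¹‖ ≤ 1 := by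
    by_contra hcon
    exact no_big_root n (by omega) _ (not_le.mp hcon) hinv
  rw [norm_inv] at hle2
  have hpos : 0 < ‖(x : ℂ)‖ := norm_pos_iff.mpr hx0
  have hge : 1 ≤ ‖(x : ℂ)‖ := by
    by_contra hcon
    have := (one_lt_inv₀ hpos).mpr (not_le.mp hcon)
    linarith
  have hone : |x| = 1 := by
    have : ‖(x : ℂ)‖ = 1 := le_antisymm hle hge
    rwa [Complex.norm_real, Real.norm_eq_abs] at this
  rcases (abs_eq (by norm_num : (0 : ℝ) ≤ 1)).mp hone with h5 | h5
  · have h6 : aeval ((1 : ℤ) : ℂ) (redS n) = 0 := by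
      rw [h5] at hP; simpa using hP
    rw [aeval_intCast_eq] at h6
    exact redS_eval_one hn (by exact_mod_cast h6)
  · have h6 : aeval ((-1 : ℤ) : ℂ) (redS n) = 0 := by
      rw [h5] at hP; simpa using hP
    rw [aeval_intCast_eq] at h6
    exact redS_eval_neg_one hn (by exact_mod_cast h6)

lemma coeff_zero_le {n : ℕ} (hn : 4 ≤ n) (F : ℤ[X])
    (hF : F.map (Int.castRingHom ℚ) ∣ (S n).map (Int.castRingHom ℚ)) :
    |F.coeff 0| ≤ |F.leadingCoeff| := by
  have hrootS : ∀ z : ℂ, aeval z F = 0 → aeval z (S n) = 0 := fun z hz => root_transfer hF z hz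
  have h0 : (F.map (Int.castRingHom ℂ)).mahlerMeasure = |(F.leadingCoeff : ℝ)| := by
    rw [mahlerMeasure_eq_leadingCoeff_mul_prod_roots,
      leadingCoeff_map_of_injective (Int.castRingHom ℂ).injective_int, eq_intCast,
      Complex.norm_intCast]
    have : ((F.map (Int.castRingHom ℂ)).roots.map (fun a ↦ max 1 ‖a‖)).prod = 1 := by
      apply Multiset.prod_eq_one
      intro x hx
      rw [Multiset.mem_map] at hx
      obtain ⟨z, hz, rfl⟩ := hx
      rw [mem_roots', IsRoot.def, eval_map] at hz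
      have hz' : aeval z F = 0 := by
        rw [aeval_def]; exact hz.2
      have hzS := hrootS z hz'
      rw [aeval_S] at hzS
      have : ‖z‖ ≤ 1 := by
        by_contra hcon
        exact no_big_root n (by omega) z (not_le.mp hcon) hzS
      exact max_eq_left this
    rw [this, mul_one]
  have h1 := norm_coeff_le_choose_mul_mahlerMeasure 0 (F.map (Int.castRingHom ℂ))
  rw [h0, coeff_map, eq_intCast, Complex.norm_intCast, Nat.choose_zero_right, Nat.cast_one,
    one_mul] at h1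
  exact_mod_cast h1

lemma A_mod_L {n : ℕ} (F : ℤ[X]) :
    (L n : ℤ) ∣ A n F - F.coeff 0 * (M n : ℤ) ^ F.natDegree := by
  rw [A, Finset.sum_range_succ', pow_zero, mul_one, Nat.sub_zero, add_sub_cancel_right]
  apply Finset.dvd_sum
  intro i hi
  exact Dvd.dvd.mul_right (Dvd.dvd.mul_left (dvd_pow_self _ (by omega)) _) _

end Pool.Agent.L7h91.GT
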