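import Mathlib
import Pool.Agent.L7h91.GT.Cong

open Polynomial

namespace Pool.Agent.L7h91.GT

/-- primitive integral version with positive leading coefficient. -/
lemma exists_primitive_pos (f : ℚ[X]) (hf : f ≠ 0) :
    ∃ F : ℤ[X], F.IsPrimitive ∧ 0 < F.leadingCoeff ∧
      ∃ c : ℚ, c ≠ 0 ∧ F.map (Int.castRingHom ℚ) = C c * f := by
  obtain ⟨F, hF, c, hc, h⟩ := exists_primitive f hf
  have hF0 : F ≠ 0 := by
    rintro rfl
    rw [Polynomial.map_zero] at h
    have := (mul_eq_zero.mp h.symm).resolve_right hf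
    rw [C_eq_zero] at this
    exact hc this
  rcases lt_or_gt_of_ne (leadingCoeff_ne_zero.mpr hF0) with hl | hl
  · refine ⟨-F, ?_, ?_, -c, neg_ne_zero.mpr hc, ?_⟩
    · intro r hr
      exact hF r ((dvd_neg).mp hr)
    · rw [leadingCoeff_neg]; linarith
    · rw [Polynomial.map_neg, h, C_neg, neg_mul]
  · exact ⟨F, hF, hl, c, hc, h⟩

/-- The trivial part of S_n. -/
noncomputable def W (n : ℕ) : ℤ[X] := if Odd n then (X - 1) ^ 3 * (X + 1) else (X - 1) ^ 3

lemma W_monic (n : ℕ) : (W n).Monic := by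
  unfold W
  split_ifs
  · exact monic_two
  · exact monic_one

lemma S_eq_W (n : ℕ) : S n = W n * redS n := by
  unfold W
  split_ifs with h
  · exact S_odd h
  · exact S_even (Nat.not_odd_iff_even.mp h)

/-- the primitive polynomial P' with S' = W P'. -/
lemma exists_P {n : ℕ} (hn : 4 ≤ n) : ∃ P : ℤ[X], S' n = W n * P ∧
    redS n = C ((Nat.gcd 2 (n - 1) : ℕ) : ℤ) * P ∧ P.leadingCoeff = M n ∧ P.IsPrimitive := by
  have hg : ((Nat.gcd 2 (n - 1) : ℕ) : ℚ) ≠ 0 := by
    have : 0 < Nat.gcd 2 (n - 1) := Nat.gcd_pos_of_pos_left _ (by norm_num)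
    exact_mod_cast this.ne'
  have hu : IsUnit (C ((Int.castRingHom ℚ) ((Nat.gcd 2 (n - 1) : ℕ) : ℤ))) := by
    rw [isUnit_C, isUnit_iff_ne_zero]
    simp only [eq_intCast, Int.cast_natCast]
    exact hg
  have h1 : W n ∣ S' n := by
    rw [IsPrimitive.Int.dvd_iff_map_cast_dvd_map_cast _ _ (W_monic n).isPrimitive]
    have h2 : (W n).map (Int.castRingHom ℚ) ∣ (S n).map (Int.castRingHom ℚ) :=
      Polynomial.map_dvd _ ⟨_, S_eq_W n⟩
    rw [S_eq' (by omega : 1 ≤ n), Polynomial.map_mul, map_C] at h2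
    rwa [hu.dvd_mul_left] at h2
  obtain ⟨P, hP⟩ := h1
  refine ⟨P, hP, ?_, ?_, ?_⟩
  · apply mul_left_cancel₀ (W_monic n).ne_zero
    rw [← S_eq_W, S_eq' (by omega : 1 ≤ n), hP]
    ring
  · have := congrArg leadingCoeff hP
    rw [S'_leadingCoeff hn, leadingCoeff_mul, (W_monic n).leadingCoeff, one_mul] at this
    exact this.symm
  · intro r hr
    exact S'_primitive hn r (hr.trans ⟨W n, by rw [hP]; ring⟩)

lemma A_W_odd {n : ℕ} (hn : 4 ≤ n) (ho : Odd n) :
    A n (W n) = ((L n : ℤ) - M n) ^ 3 * ((L n : ℤ) + M n) := by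
  have hM : (M n : ℚ) ≠ 0 := by exact_mod_cast (M_pos hn).ne'
  have hd : (W n).natDegree = 4 := by
    rw [W, if_pos ho]
    compute_degree!
  have h : ((A n (W n) : ℤ) : ℚ) = ((((L n : ℤ) - M n) ^ 3 * ((L n : ℤ) + M n) : ℤ) : ℚ) := by
    rw [A_cast hn, hd, W, if_pos ho]
    simp only [Polynomial.map_mul, Polynomial.map_pow, Polynomial.map_sub, Polynomial.map_add,
      map_X, Polynomial.map_one, eval_mul, eval_pow, eval_sub, eval_add, eval_X, eval_one]
    push_cast
    field_simp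
  exact_mod_cast h

lemma A_W_even {n : ℕ} (hn : 4 ≤ n) (he : Even n) :
    A n (W n) = ((L n : ℤ) - M n) ^ 3 := by
  have hM : (M n : ℚ) ≠ 0 := by exact_mod_cast (M_pos hn).ne'
  have hd : (W n).natDegree = 3 := by
    rw [W, if_neg (Nat.not_odd_iff_even.mpr he)]
    compute_degree!
  have h : ((A n (W n) : ℤ) : ℚ) = ((((L n : ℤ) - M n) ^ 3 : ℤ) : ℚ) := by
    rw [A_cast hn, hd, W, if_neg (Nat.not_odd_iff_even.mpr he)]
    simp only [Polynomial.map_mul, Polynomial.map_pow, Polynomial.map_sub, Polynomial.map_add,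
      map_X, Polynomial.map_one, eval_mul, eval_pow, eval_sub, eval_add, eval_X, eval_one]
    push_cast
    field_simp
  exact_mod_cast h

lemma gcd_odd {n : ℕ} (ho : Odd n) : Nat.gcd 2 (n - 1) = 2 := by
  apply Nat.gcd_eq_left
  obtain ⟨k, rfl⟩ := ho
  exact ⟨k, by omega⟩

lemma gcd_even {n : ℕ} (hn : 1 ≤ n) (he : Even n) : Nat.gcd 2 (n - 1) = 1 := by
  have : Odd (n - 1) := Nat.Even.sub_odd hn he odd_one
  exact (Nat.coprime_two_left.mpr this)

/-- positivity data of a factor. -/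
lemma factor_data {n : ℕ} (hn : 4 ≤ n) (F : ℤ[X]) (hlc : 0 < F.leadingCoeff)
    (hF : F.map (Int.castRingHom ℚ) ∣ (redS n).map (Int.castRingHom ℚ)) :
    Even F.natDegree ∧ 0 < F.coeff 0 ∧ 0 < A n F := by
  have hr := no_real_root hn F hF
  have hlcr : 0 < (F.map (Int.castRingHom ℝ)).leadingCoeff := by
    rw [leadingCoeff_map_of_injective (Int.castRingHom ℝ).injective_int, eq_intCast]
    exact_mod_cast hlc
  refine ⟨?_, ?_, ?_⟩
  · have := even_of_no_root _ hlcr hr
    rwa [natDegree_map_eq_of_injective (Int.castRingHom ℝ).injective_int] at this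
  · have := pos_of_no_root _ hlcr hr 0
    rw [← coeff_zero_eq_eval_zero, coeff_map, eq_intCast] at this
    exact_mod_cast this
  · have h1 := pos_of_no_root _ hlcr hr ((L n : ℝ) / (M n : ℝ))
    have h2 : (F.map (Int.castRingHom ℝ)).eval ((L n : ℝ) / (M n : ℝ))
        = (((F.map (Int.castRingHom ℚ)).eval ((L n : ℚ) / (M n : ℚ)) : ℚ) : ℝ) := by
      have e1 : F.map (Int.castRingHom ℝ) = (F.map (Int.castRingHom ℚ)).map (algebraMap ℚ ℝ) := by
        rw [Polynomial.map_map]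
        congr 1
      have e2 : ((L n : ℝ) / (M n : ℝ)) = algebraMap ℚ ℝ ((L n : ℚ) / (M n : ℚ)) := by
        simp
      rw [e1, e2, eval_map_algebraMap, aeval_algebraMap_apply]
      simp
    rw [h2] at h1
    have h3 : (0 : ℚ) < (F.map (Int.castRingHom ℚ)).eval ((L n : ℚ) / (M n : ℚ)) := by
      exact_mod_cast h1
    have h4 : (0 : ℚ) < ((A n F : ℤ) : ℚ) := by
      rw [A_cast hn]
      have : (0 : ℚ) < M n := by exact_mod_cast M_pos hn
      positivity
    exact_mod_cast h4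

end Pool.Agent.L7h91.GT
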