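import Mathlib
import Pool.Agent.L7h91.GT.Fin

open Polynomial

namespace Pool.Agent.L7h91.GT

lemma lc_pow_dvd {n : ℕ} (hn : 4 ≤ n) (F G : ℤ[X]) (hd : 0 < F.natDegree) (hGd : 0 < G.natDegree)
    (hG : S' n = F * G) : F.leadingCoeff ^ n ∣ A n F := by
  have hF0 : F ≠ 0 := by rintro rfl; simp at hd
  have hG0 : G ≠ 0 := by rintro rfl; simp at hGd
  have hlcM' : F.leadingCoeff ∣ (M n : ℤ) := by
    have h1 : F.leadingCoeff ∣ (S' n).leadingCoeff := leadingCoeff_dvd_leadingCoeff ⟨G, hG⟩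
    rwa [S'_leadingCoeff hn] at h1
  have hcop : IsCoprime F.leadingCoeff G.leadingCoeff := by
    rw [Int.isCoprime_iff_gcd_eq_one, Int.gcd_eq_natAbs]
    by_contra hcon
    obtain ⟨p, hp, h1, h2⟩ := Nat.Prime.not_coprime_iff_dvd.mp hcon
    exact coprime_lc hn F G ⟨1, by rw [hG, mul_one]⟩ hd hGd p hp (Int.natCast_dvd.mpr h1)
      (Int.natCast_dvd.mpr h2)
  have hcL : IsCoprime F.leadingCoeff (L n : ℤ) :=
    (Nat.isCoprime_iff_coprime.mpr (coprime_ML (by omega : 1 ≤ n))).of_isCoprime_of_dvd_left hlcM'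
  have hcA : IsCoprime F.leadingCoeff (A n G) := by
    obtain ⟨t, ht⟩ := A_mod (n := n) G
    obtain ⟨u, hu⟩ := hlcM'
    have h1 : IsCoprime F.leadingCoeff (G.leadingCoeff * (L n : ℤ) ^ G.natDegree) :=
      hcop.mul_right hcL.pow_right
    have h2 : A n G = G.leadingCoeff * (L n : ℤ) ^ G.natDegree + F.leadingCoeff * (u * t) := by
      have : A n G = G.leadingCoeff * (L n : ℤ) ^ G.natDegree + (M n : ℤ) * t := by linarith
      rw [this, hu]; ring
    rw [h2]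
    exact h1.add_mul_left_right _
  have hAA : A n F * A n G = (M n : ℤ) ^ n * ((L n : ℤ) ^ 2 - (M n : ℤ) ^ 2) := by
    rw [← A_mul hn F G hF0 hG0, ← hG, A_S' hn]
  have h1 : F.leadingCoeff ^ n ∣ A n F * A n G := by
    rw [hAA]
    exact Dvd.dvd.mul_right (pow_dvd_pow_of_dvd hlcM' n) _
  exact (hcA.pow_left).dvd_of_dvd_mul_right h1

lemma cong {n : ℕ} (hn : 4 ≤ n) (F G : ℤ[X]) (hFd : 0 < F.natDegree) (hGd : 0 < G.natDegree)
    (hFl : 0 < F.leadingCoeff) (hGl : 0 < G.leadingCoeff)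
    (hF : F.map (Int.castRingHom ℚ) ∣ (redS n).map (Int.castRingHom ℚ))
    (hG : G.map (Int.castRingHom ℚ) ∣ (redS n).map (Int.castRingHom ℚ))
    (hP : S' n = W n * (F * G)) :
    ∃ u : ℤ, 0 < u ∧ A n F = F.leadingCoeff ^ n * u ∧
      (L n : ℤ) * G.leadingCoeff ∣ F.leadingCoeff ^ (n - 1) * u
        - ((L n : ℤ) - (M n : ℤ)) ^ F.natDegree := by
  have hF0 : F ≠ 0 := by rintro rfl; simp at hFd
  have hG0 : G ≠ 0 := by rintro rfl; simp at hGd
  have hW0 : W n ≠ 0 := (W_monic n).ne_zero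
  have hGW : 0 < (G * W n).natDegree := by
    rw [natDegree_mul hG0 hW0]; omega
  have hS : S' n = F * (G * W n) := by rw [hP]; ring
  obtain ⟨u, hu⟩ := lc_pow_dvd hn F (G * W n) hFd hGW hS
  obtain ⟨hev, h0, hA⟩ := factor_data hn F hFl hF
  have hcn : 0 < F.leadingCoeff ^ n := by positivity
  have hupos : 0 < u := by
    rw [hu] at hA
    exact (pos_iff_pos_of_mul_pos hA).mp hcn
  -- the leading coefficients
  have hlcGW : (G * W n).leadingCoeff = G.leadingCoeff := by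
    rw [leadingCoeff_mul, (W_monic n).leadingCoeff, mul_one]
  have hcd : F.leadingCoeff * G.leadingCoeff = M n := by
    have := congrArg leadingCoeff hS
    rw [S'_leadingCoeff hn, leadingCoeff_mul, hlcGW] at this
    exact this.symm
  -- constant coefficient
  have hSmap : ∀ H : ℤ[X], H ∣ S' n → H.map (Int.castRingHom ℚ) ∣ (S n).map (Int.castRingHom ℚ) := by
    intro H hH
    apply Polynomial.map_dvd
    rw [S_eq' (by omega : 1 ≤ n)]
    exact Dvd.dvd.mul_left hH _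
  have hc0 : F.coeff 0 = F.leadingCoeff := by
    have h1 := coeff_zero_le hn F (hSmap F ⟨_, hS⟩)
    have h2 := coeff_zero_le hn (G * W n) (hSmap (G * W n) ⟨F, by rw [hS]; ring⟩)
    have h3 : (S' n).coeff 0 = -(M n : ℤ) := by
      have : (0 : ℕ) ≠ n + 1 := by omega
      have h' : (0 : ℕ) ≠ n := by omega
      simp [S', coeff_X_pow, h']
    have h4 : F.coeff 0 * (G * W n).coeff 0 = -(M n : ℤ) := by
      rw [← h3, hS]; exact (mul_coeff_zero F (G * W n)).symm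
    have h5 : |F.coeff 0| * |(G * W n).coeff 0| = (M n : ℤ) := by
      rw [← abs_mul, h4, abs_neg, abs_of_nonneg (by positivity)]
    rw [hlcGW, abs_of_pos hGl] at h2
    rw [abs_of_pos hFl, abs_of_pos h0] at h1
    rw [abs_of_pos h0, ← hcd] at h5
    apply le_antisymm h1
    have h6 : F.leadingCoeff * G.leadingCoeff ≤ F.coeff 0 * G.leadingCoeff := by
      rw [← h5]
      exact mul_le_mul_of_nonneg_left h2 h0.le
    exact le_of_mul_le_mul_right h6 hGl
  have hcop1 : IsCoprime F.leadingCoeff (L n : ℤ) :=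
    (Nat.isCoprime_iff_coprime.mpr (coprime_ML (by omega : 1 ≤ n))).of_isCoprime_of_dvd_left
      ⟨_, hcd.symm⟩
  have hcop2 : IsCoprime G.leadingCoeff (L n : ℤ) :=
    (Nat.isCoprime_iff_coprime.mpr (coprime_ML (by omega : 1 ≤ n))).of_isCoprime_of_dvd_left
      ⟨F.leadingCoeff, by rw [← hcd]; ring⟩
  set c := F.leadingCoeff with hc
  set d := G.leadingCoeff with hdd
  set k := F.natDegree with hk
  have hcn' : c ^ n = c * c ^ (n - 1) := by
    rw [← pow_succ']; congr 1; omega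
  -- modulo M
  have hm1 : (M n : ℤ) ∣ c * (c ^ (n - 1) * u - ((L n : ℤ) - (M n : ℤ)) ^ k) := by
    have h1 := A_mod (n := n) F
    have h2 : (M n : ℤ) ∣ (L n : ℤ) ^ k - ((L n : ℤ) - (M n : ℤ)) ^ k := by
      have := sub_dvd_pow_sub_pow (L n : ℤ) ((L n : ℤ) - (M n : ℤ)) k
      rwa [sub_sub_cancel] at this
    have h3 := dvd_add h1 (Dvd.dvd.mul_left h2 c)
    have h4 : A n F - F.leadingCoeff * (L n : ℤ) ^ F.natDegree
        + c * ((L n : ℤ) ^ k - ((L n : ℤ) - (M n : ℤ)) ^ k)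
        = c * (c ^ (n - 1) * u - ((L n : ℤ) - (M n : ℤ)) ^ k) := by
      rw [hu, ← hc, ← hk, hcn']; ring
    rwa [h4] at h3
  have hm2 : (L n : ℤ) ∣ c * (c ^ (n - 1) * u - ((L n : ℤ) - (M n : ℤ)) ^ k) := by
    have h1 := A_mod_L (n := n) F
    rw [hc0] at h1
    have h2 : (L n : ℤ) ∣ (M n : ℤ) ^ k - ((L n : ℤ) - (M n : ℤ)) ^ k := by
      have := sub_dvd_pow_sub_pow (M n : ℤ) ((M n : ℤ) - (L n : ℤ)) k
      rw [sub_sub_cancel] at this
      have h' : ((M n : ℤ) - (L n : ℤ)) ^ k = ((L n : ℤ) - (M n : ℤ)) ^ k := by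
        rw [← hev.neg_pow]; congr 1; ring
      rwa [h'] at this
    have h3 := dvd_add h1 (Dvd.dvd.mul_left h2 c)
    have h4 : A n F - c * (M n : ℤ) ^ F.natDegree
        + c * ((M n : ℤ) ^ k - ((L n : ℤ) - (M n : ℤ)) ^ k)
        = c * (c ^ (n - 1) * u - ((L n : ℤ) - (M n : ℤ)) ^ k) := by
      rw [hu, ← hk, hcn']; ring
    rwa [h4] at h3
  refine ⟨u, hupos, hu, ?_⟩
  have e1 : (L n : ℤ) ∣ c ^ (n - 1) * u - ((L n : ℤ) - (M n : ℤ)) ^ k :=
    hcop1.symm.dvd_of_dvd_mul_left hm2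
  have e2 : d ∣ c ^ (n - 1) * u - ((L n : ℤ) - (M n : ℤ)) ^ k := by
    have hm3 : c * d ∣ c * (c ^ (n - 1) * u - ((L n : ℤ) - (M n : ℤ)) ^ k) := by
      rw [hcd]; exact hm1
    exact (mul_dvd_mul_iff_left hFl.ne').mp hm3
  exact hcop2.symm.mul_dvd e1 e2

/-- Everything we know about a factorisation into two nonconstant factors. -/
theorem core {n : ℕ} (hn : 4 ≤ n) (f g : ℚ[X]) (hf : 0 < f.natDegree) (hg : 0 < g.natDegree)
    (hfg : (redS n).map (Int.castRingHom ℚ) = f * g) :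
    ∃ c d u v : ℕ, 1 < c ∧ 1 < d ∧ c * d = M n ∧ Nat.Coprime c d ∧
      c ^ (n - 1) ≤ (L n + M n) ^ f.natDegree ∧ d ^ (n - 1) ≤ (L n + M n) ^ g.natDegree ∧
      (Odd n → u = 1 ∧ v = 1) ∧ (Even n → 2 * (u * v) = n) ∧
      c ^ (n - 1) * u ≡ (L n - M n) ^ f.natDegree [MOD L n * d] ∧
      d ^ (n - 1) * v ≡ (L n - M n) ^ g.natDegree [MOD L n * c] ∧
      Even f.natDegree ∧ Even g.natDegree := by
  have hf0 : f ≠ 0 := by rintro rfl; simp at hf
  have hg0 : g ≠ 0 := by rintro rfl; simp at hg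
  obtain ⟨F, hFp, hFl, a, ha, hFa⟩ := exists_primitive_pos f hf0
  obtain ⟨G, hGp, hGl, b, hb, hGb⟩ := exists_primitive_pos g hg0
  obtain ⟨P, hP1, hP2, hP3, hP4⟩ := exists_P hn
  have hdF : F.natDegree = f.natDegree := by
    have h1 : (F.map (Int.castRingHom ℚ)).natDegree = F.natDegree :=
      natDegree_map_eq_of_injective (Int.castRingHom ℚ).injective_int _
    rw [← h1, hFa, natDegree_C_mul ha]
  have hdG : G.natDegree = g.natDegree := by
    have h1 : (G.map (Int.castRingHom ℚ)).natDegree = G.natDegree :=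
      natDegree_map_eq_of_injective (Int.castRingHom ℚ).injective_int _
    rw [← h1, hGb, natDegree_C_mul hb]
  have hFd : 0 < F.natDegree := by rw [hdF]; exact hf
  have hGd : 0 < G.natDegree := by rw [hdG]; exact hg
  have hF0 : F ≠ 0 := by rintro rfl; simp at hFd
  have hG0 : G ≠ 0 := by rintro rfl; simp at hGd
  have hua : IsUnit (C a) := isUnit_C.mpr (isUnit_iff_ne_zero.mpr ha)
  have hub : IsUnit (C b) := isUnit_C.mpr (isUnit_iff_ne_zero.mpr hb)
  have hFr : F.map (Int.castRingHom ℚ) ∣ (redS n).map (Int.castRingHom ℚ) := by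
    rw [hFa, hua.mul_left_dvd, hfg]; exact dvd_mul_right _ _
  have hGr : G.map (Int.castRingHom ℚ) ∣ (redS n).map (Int.castRingHom ℚ) := by
    rw [hGb, hub.mul_left_dvd, hfg]; exact dvd_mul_left _ _
  have hg0' : ((Nat.gcd 2 (n - 1) : ℕ) : ℚ) ≠ 0 := by
    have : 0 < Nat.gcd 2 (n - 1) := Nat.gcd_pos_of_pos_left _ (by norm_num)
    exact_mod_cast this.ne'
  have hu : IsUnit (C ((Int.castRingHom ℚ) ((Nat.gcd 2 (n - 1) : ℕ) : ℤ))) := by
    rw [isUnit_C, isUnit_iff_ne_zero]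
    simp only [eq_intCast, Int.cast_natCast]
    exact hg0'
  have hrP : (redS n).map (Int.castRingHom ℚ)
      = C ((Int.castRingHom ℚ) ((Nat.gcd 2 (n - 1) : ℕ) : ℤ)) * P.map (Int.castRingHom ℚ) := by
    rw [hP2, Polynomial.map_mul, map_C]
  have hFGmap : (F * G).map (Int.castRingHom ℚ) = C a * C b * (f * g) := by
    rw [Polynomial.map_mul, hFa, hGb]; ring
  have hd1 : F * G ∣ P := by
    rw [IsPrimitive.Int.dvd_iff_map_cast_dvd_map_cast _ _ (hFp.mul hGp), hFGmap,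
      (hua.mul hub).mul_left_dvd, ← hfg, hrP, hu.mul_left_dvd]
  have hd2 : P ∣ F * G := by
    rw [IsPrimitive.Int.dvd_iff_map_cast_dvd_map_cast _ _ hP4, hFGmap,
      (hua.mul hub).dvd_mul_left, ← hfg, hrP]
    exact dvd_mul_left _ _
  obtain ⟨w, hw⟩ := associated_of_dvd_dvd hd1 hd2
  have hMpos : (0 : ℤ) < M n := by exact_mod_cast M_pos hn
  have hFG : P = F * G := by
    obtain ⟨r, hr, hrw⟩ := Polynomial.isUnit_iff.mp w.isUnit
    have h1 : F.leadingCoeff * G.leadingCoeff * r = M n := by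
      rw [← hP3, ← hw, leadingCoeff_mul, leadingCoeff_mul, ← hrw, leadingCoeff_C]
    have h2 : 0 < F.leadingCoeff * G.leadingCoeff := mul_pos hFl hGl
    have h3 : r = 1 := by
      rcases Int.isUnit_iff.mp hr with h | h
      · exact h
      · exfalso; rw [h] at h1; linarith
    rw [← hw, ← hrw, h3, C_1, mul_one]
  have hS' : S' n = W n * (F * G) := by rw [hP1, hFG]
  have hS'' : S' n = W n * (G * F) := by rw [hS']; ring
  obtain ⟨u, hu0, huA, hucong⟩ := cong hn F G hFd hGd hFl hGl hFr hGr hS'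
  obtain ⟨v, hv0, hvA, hvcong⟩ := cong hn G F hGd hFd hGl hFl hGr hFr hS''
  obtain ⟨hFe, -, -⟩ := factor_data hn F hFl hFr
  obtain ⟨hGe, -, -⟩ := factor_data hn G hGl hGr
  obtain ⟨hle1, -⟩ := lc_pow_le hn F hFp hFd hFr
  obtain ⟨hle2, -⟩ := lc_pow_le hn G hGp hGd hGr
  have hne1 := lc_ne_one hn F hFd hFr
  have hne2 := lc_ne_one hn G hGd hGr
  obtain ⟨c, hc⟩ := Int.eq_ofNat_of_zero_le hFl.le
  obtain ⟨d, hd⟩ := Int.eq_ofNat_of_zero_le hGl.le
  obtain ⟨u', hu'⟩ := Int.eq_ofNat_of_zero_le hu0.le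
  obtain ⟨v', hv'⟩ := Int.eq_ofNat_of_zero_le hv0.le
  have hcd : F.leadingCoeff * G.leadingCoeff = M n := by
    rw [← hP3, hFG, leadingCoeff_mul]
  rw [hc, Int.natAbs_natCast] at hne1 hle1
  rw [hd, Int.natAbs_natCast] at hne2 hle2
  rw [hc] at hFl hucong huA hvcong
  rw [hd] at hGl hvcong hvA hucong
  rw [hu'] at hu0 hucong huA
  rw [hv'] at hv0 hvcong hvA
  have hcpos : 0 < c := by exact_mod_cast hFl
  have hdpos : 0 < d := by exact_mod_cast hGl
  have hcdM : c * d = M n := by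
    rw [hc, hd] at hcd
    exact_mod_cast hcd
  have hLM : M n ≤ L n := (L_gt_M hn).le
  have hcop : Nat.Coprime c d := by
    by_contra hcon
    obtain ⟨p, hp, h1, h2⟩ := Nat.Prime.not_coprime_iff_dvd.mp hcon
    refine coprime_lc hn F G ⟨W n, by rw [hS']; ring⟩ hFd hGd p hp ?_ ?_
    · rw [hc]; exact Int.natCast_dvd_natCast.mpr h1
    · rw [hd]; exact Int.natCast_dvd_natCast.mpr h2
  -- the product of the values
  have hAS : A n (W n) * (A n F * A n G) = (M n : ℤ) ^ n * ((L n : ℤ) ^ 2 - (M n : ℤ) ^ 2) := by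
    rw [← A_mul hn F G hF0 hG0, ← A_mul hn _ _ (W_monic n).ne_zero (mul_ne_zero hF0 hG0), ← hS',
      A_S' hn]
  have hAFG : A n F * A n G = (M n : ℤ) ^ n * (((u' * v' : ℕ)) : ℤ) := by
    rw [huA, hvA, ← hcdM]
    push_cast
    ring
  rw [hAFG] at hAS
  have hMn : (0 : ℤ) < (M n : ℤ) ^ n := by positivity
  have hM1 := M_mul (n := n)
  have hL1 := L_mul (n := n) (by omega)
  refine ⟨c, d, u', v', by omega, by omega, hcdM, hcop, ?_, ?_, ?_, ?_, ?_, ?_, ?_, ?_⟩
  · rw [← hdF]; exact hle1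
  · rw [← hdG]; exact hle2
  · intro ho
    rw [gcd_odd ho] at hM1 hL1
    have hLM1 : L n = M n + 1 := by omega
    rw [A_W_odd hn ho, hLM1] at hAS
    push_cast at hAS
    have h2 : ((M n : ℤ) ^ n * (2 * (M n : ℤ) + 1)) * (((u' * v' : ℕ)) : ℤ)
        = ((M n : ℤ) ^ n * (2 * (M n : ℤ) + 1)) * 1 := by
      push_cast
      linear_combination hAS
    have h3 : (((u' * v' : ℕ)) : ℤ) = 1 := by
      apply mul_left_cancel₀ _ h2
      positivity
    have h4 : u' * v' = 1 := by exact_mod_cast h3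
    simpa using h4
  · intro he
    rw [gcd_even (by omega) he] at hM1 hL1
    have hLM1 : L n = M n + 2 := by omega
    have hnM : (n : ℤ) = (M n : ℤ) + 1 := by
      have : n = M n + 1 := by omega
      exact_mod_cast this
    rw [A_W_even hn he, hLM1] at hAS
    push_cast at hAS
    have h2 : (4 * (M n : ℤ) ^ n) * (2 * (((u' * v' : ℕ)) : ℤ))
        = (4 * (M n : ℤ) ^ n) * (n : ℤ) := by
      rw [hnM]
      push_cast
      linear_combination hAS
    have h3 : 2 * (((u' * v' : ℕ)) : ℤ) = (n : ℤ) := by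
      apply mul_left_cancel₀ _ h2
      positivity
    exact_mod_cast h3
  · rw [← hdF]
    refine (Nat.modEq_iff_dvd.mpr ?_).symm
    push_cast [hLM]
    exact hucong
  · rw [← hdG]
    refine (Nat.modEq_iff_dvd.mpr ?_).symm
    push_cast [hLM]
    exact hvcong
  · rw [← hdF]; exact hFe
  · rw [← hdG]; exact hGe

end Pool.Agent.L7h91.GT
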