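import Mathlib
import Pool.Agent.L7h91.GT.Core

open Polynomial

namespace Pool.Agent.L7h91.GT

lemma irr_of {n : ℕ} (hn : 4 ≤ n)
    (h : ∀ f g : ℚ[X], 0 < f.natDegree → 0 < g.natDegree →
      (redS n).map (Int.castRingHom ℚ) = f * g → False) :
    Irreducible ((redS n).map (Int.castRingHom ℚ)) := by
  obtain ⟨P, hP1, hP2, hP3, hP4⟩ := exists_P hn
  have hP0 : P ≠ 0 := by
    rintro rfl
    have := M_pos hn
    simp at hP3
    omega
  have hdegS := S'_natDegree hn
  have hWd : (W n).natDegree ≤ 4 := by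
    unfold W
    split_ifs
    · compute_degree
    · compute_degree
      omega
  have hPd : 0 < P.natDegree := by
    rw [hP1, natDegree_mul (W_monic n).ne_zero hP0] at hdegS
    omega
  have hg0' : ((Nat.gcd 2 (n - 1) : ℕ) : ℤ) ≠ 0 := by
    have : 0 < Nat.gcd 2 (n - 1) := Nat.gcd_pos_of_pos_left _ (by norm_num)
    exact_mod_cast this.ne'
  have hr0 : redS n ≠ 0 := by
    rw [hP2]
    exact mul_ne_zero (by rwa [Ne, C_eq_zero]) hP0
  have hrd : 0 < ((redS n).map (Int.castRingHom ℚ)).natDegree := by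
    rw [natDegree_map_eq_of_injective (Int.castRingHom ℚ).injective_int, hP2,
      natDegree_C_mul hg0']
    exact hPd
  have hmap0 : (redS n).map (Int.castRingHom ℚ) ≠ 0 := by
    intro h0
    rw [h0] at hrd; simp at hrd
  refine ⟨?_, ?_⟩
  · intro hu
    have := natDegree_eq_zero_of_isUnit hu
    omega
  · intro f g hfg
    have hf0 : f ≠ 0 := by rintro rfl; rw [zero_mul] at hfg; exact hmap0 hfg
    have hg0 : g ≠ 0 := by rintro rfl; rw [mul_zero] at hfg; exact hmap0 hfg
    by_contra hcon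
    rw [not_or] at hcon
    refine h f g ?_ ?_ hfg
    · by_contra h1
      exact hcon.1 (isUnit_iff_degree_eq_zero.mpr (by
        rw [degree_eq_natDegree hf0]
        have : f.natDegree = 0 := by omega
        rw [this]; rfl))
    · by_contra h1
      exact hcon.2 (isUnit_iff_degree_eq_zero.mpr (by
        rw [degree_eq_natDegree hg0]
        have : g.natDegree = 0 := by omega
        rw [this]; rfl))

lemma irr_primePow {n : ℕ} (hn : 4 ≤ n) (h : IsPrimePow (M n)) :
    Irreducible ((redS n).map (Int.castRingHom ℚ)) := by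
  refine irr_of hn fun f g hf hg hfg => ?_
  have h2 := count hn 2 ![f, g] (by
    intro i
    fin_cases i
    · exact hf
    · exact hg) (by rw [hfg, Fin.prod_univ_two]; rfl)
  rw [isPrimePow_iff_card_primeFactors_eq_one] at h
  omega

lemma M_odd {n : ℕ} (ho : Odd n) : M n = (n - 1) / 2 := by rw [M, gcd_odd ho]

lemma L_odd {n : ℕ} (ho : Odd n) : L n = (n + 1) / 2 := by rw [L, gcd_odd ho]

lemma irr_four_p {p : ℕ} (hp : p.Prime) :
    Irreducible ((redS (4 * p - 1)).map (Int.castRingHom ℚ)) := by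
  have hp2 := hp.two_le
  have hn : 4 ≤ 4 * p - 1 := by omega
  have ho : Odd (4 * p - 1) := ⟨2 * p - 1, by omega⟩
  -- a divisor below the square root is impossible
  have key : ∀ c d : ℕ, 1 < c → c < d → c * d = 2 * p - 1 →
      c ^ (4 * p - 1 - 1) ≡ 1 [MOD p] → False := by
    intro c d hc hcd hm hcong
    have hcp : Nat.Coprime c p := by
      rw [Nat.coprime_comm, hp.coprime_iff_not_dvd]
      intro hdvd
      have h1 : p ∣ 2 * p - 1 := by rw [← hm]; exact Dvd.dvd.mul_right hdvd d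
      have h2 : p ∣ 2 * p - (2 * p - 1) := Nat.dvd_sub (Dvd.intro_left 2 rfl) h1
      have h3 : 2 * p - (2 * p - 1) = 1 := by omega
      rw [h3] at h2
      exact hp.one_lt.ne' (Nat.dvd_one.mp h2)
    have hf : c ^ (p - 1) ≡ 1 [MOD p] := by
      have := Nat.ModEq.pow_totient hcp
      rwa [Nat.totient_prime hp] at this
    have h4 : c ^ (4 * p - 1 - 1) = (c ^ (p - 1)) ^ 4 * c ^ 2 := by
      rw [← pow_mul, ← pow_add]; congr 1; omega
    have h5 : c ^ 2 ≡ 1 [MOD p] := by
      have h6 : (c ^ (p - 1)) ^ 4 * c ^ 2 ≡ 1 ^ 4 * c ^ 2 [MOD p] :=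
        Nat.ModEq.mul_right _ (hf.pow 4)
      rw [← h4, one_pow, one_mul] at h6
      exact h6.symm.trans hcong
    have h7 : p ∣ c ^ 2 - 1 := (Nat.modEq_iff_dvd' (Nat.one_le_pow _ _ (by omega))).mp h5.symm
    have h8 : c ^ 2 - 1 < 2 * p := by
      have : c ^ 2 ≤ c * d := by rw [sq]; exact Nat.mul_le_mul_left c hcd.le
      omega
    have h9 : c ^ 2 - 1 = (c + 1) * (c - 1) := by
      have := Nat.sq_sub_sq c 1
      simpa using this
    obtain ⟨t, ht⟩ := h7
    have h10 : 0 < c ^ 2 - 1 := by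
      have : 1 < c ^ 2 := Nat.one_lt_pow (by norm_num) hc
      omega
    have ht1 : t = 1 := by
      have h11 : t < 2 := by
        by_contra hcon
        have : p * 2 ≤ p * t := Nat.mul_le_mul_left p (not_lt.mp hcon)
        omega
      have h12 : t ≠ 0 := by rintro rfl; omega
      omega
    rw [ht1, mul_one, h9] at ht
    have h13 : c - 1 = 1 ∨ c + 1 = 1 := by
      have := (Nat.prime_mul_iff.mp (ht ▸ hp : ((c + 1) * (c - 1)).Prime))
      tauto
    have hc2 : c = 2 := by omega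
    subst hc2
    have : p = 3 := by omega
    omega
  refine irr_of hn fun f g hf hg hfg => ?_
  obtain ⟨c, d, u, v, hc, hd, hcd, hcop, -, -, huv, -, h1, h2, -⟩ := core hn f g hf hg hfg
  obtain ⟨hu, hv⟩ := huv ho
  have hM : M (4 * p - 1) = 2 * p - 1 := by rw [M_odd ho]; omega
  have hL : L (4 * p - 1) = 2 * p := by rw [L_odd ho]; omega
  rw [hM] at hcd
  rw [hM, hL, hu, mul_one] at h1
  rw [hM, hL, hv, mul_one] at h2
  have h3 : 2 * p - (2 * p - 1) = 1 := by omega
  rw [h3, one_pow] at h1 h2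
  have hne : c ≠ d := by
    rintro rfl
    rw [Nat.coprime_self] at hcop
    omega
  rcases lt_or_gt_of_ne hne with hlt | hlt
  · exact key c d hc hlt hcd (h1.of_dvd ⟨2 * d, by ring⟩)
  · exact key d c hd hlt (by rw [mul_comm]; exact hcd) (h2.of_dvd ⟨2 * c, by ring⟩)

lemma irr_mq {m q : ℕ} (hq : q.Prime) (hqm : ¬ q ∣ m)
    (he : ∀ e, e ∣ m → 1 < e → ¬ q ∣ e ^ (2 * m) - 1) (hn : 4 ≤ 2 * m * q + 1) :
    Irreducible ((redS (2 * m * q + 1)).map (Int.castRingHom ℚ)) := by
  have ho : Odd (2 * m * q + 1) := ⟨m * q, by ring⟩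
  have hM : M (2 * m * q + 1) = m * q := by
    rw [M_odd ho]
    have : 2 * m * q + 1 - 1 = 2 * (m * q) := by rw [Nat.add_sub_cancel]; ring
    rw [this]; omega
  have hL : L (2 * m * q + 1) = m * q + 1 := by
    rw [L_odd ho]
    have : 2 * m * q + 1 + 1 = 2 * (m * q + 1) := by ring
    rw [this]; omega
  have key : ∀ c d : ℕ, 1 < c → c * d = m * q → Nat.Coprime c d → q ∣ d →
      c ^ (2 * m * q + 1 - 1) ≡ 1 [MOD q] → False := by
    intro c d hc hcd hcop hqd hcong
    have hcq : Nat.Coprime c q := hcop.coprime_dvd_right hqd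
    have hcm : c ∣ m := by
      have : c ∣ m * q := ⟨d, hcd.symm⟩
      exact hcq.dvd_of_dvd_mul_right this
    apply he c hcm hc
    have hf : c ^ (q - 1) ≡ 1 [MOD q] := by
      have := Nat.ModEq.pow_totient hcq
      rwa [Nat.totient_prime hq] at this
    have hq1 := hq.one_lt
    have h4 : c ^ (2 * m * q + 1 - 1) = (c ^ (q - 1)) ^ (2 * m) * c ^ (2 * m) := by
      rw [← pow_mul, ← pow_add]; congr 1
      obtain ⟨r, rfl⟩ : ∃ r, q = r + 1 := ⟨q - 1, by omega⟩
      rw [Nat.add_sub_cancel, Nat.add_sub_cancel]; ring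
    have h5 : c ^ (2 * m) ≡ 1 [MOD q] := by
      have h6 : (c ^ (q - 1)) ^ (2 * m) * c ^ (2 * m) ≡ 1 ^ (2 * m) * c ^ (2 * m) [MOD q] :=
        Nat.ModEq.mul_right _ (hf.pow _)
      rw [← h4, one_pow, one_mul] at h6
      exact h6.symm.trans hcong
    exact (Nat.modEq_iff_dvd' (Nat.one_le_pow _ _ (by omega))).mp h5.symm
  refine irr_of hn fun f g hf hg hfg => ?_
  obtain ⟨c, d, u, v, hc, hd, hcd, hcop, -, -, huv, -, h1, h2, -⟩ := core hn f g hf hg hfg
  obtain ⟨hu, hv⟩ := huv ho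
  rw [hM] at hcd
  rw [hM, hL, hu, mul_one, Nat.add_sub_cancel_left, one_pow] at h1
  rw [hM, hL, hv, mul_one, Nat.add_sub_cancel_left, one_pow] at h2
  have hqcd : q ∣ c * d := by rw [hcd]; exact dvd_mul_left _ _
  rcases (hq.dvd_mul).mp hqcd with h | h
  · exact key d c hd (by rw [mul_comm]; exact hcd) hcop.symm h (h2.of_dvd (Dvd.dvd.mul_left h _))
  · exact key c d hc hcd hcop h (h1.of_dvd (Dvd.dvd.mul_left h _))

end Pool.Agent.L7h91.GT
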