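import Mathlib
import Pool.Agent.L7h91.GT.Cor

open Polynomial

namespace Pool.Agent.L7h91.GT

lemma irr_mqb {m q b : ℕ} (hq : q.Prime) (hb : 0 < b) (hqm : ¬ q ∣ m)
    (he : ∀ e, e ∣ m → 1 < e → ¬ q ∣ e ^ (2 * m) - 1) (hn : 4 ≤ 2 * m * q ^ b + 1) :
    Irreducible ((redS (2 * m * q ^ b + 1)).map (Int.castRingHom ℚ)) := by
  have : Fact q.Prime := ⟨hq⟩
  have ho : Odd (2 * m * q ^ b + 1) := ⟨m * q ^ b, by ring⟩
  have hM : M (2 * m * q ^ b + 1) = m * q ^ b := by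
    rw [M_odd ho]
    have : 2 * m * q ^ b + 1 - 1 = 2 * (m * q ^ b) := by rw [Nat.add_sub_cancel]; ring
    rw [this]; omega
  have hL : L (2 * m * q ^ b + 1) = m * q ^ b + 1 := by
    rw [L_odd ho]
    have : 2 * m * q ^ b + 1 + 1 = 2 * (m * q ^ b + 1) := by ring
    rw [this]; omega
  have key : ∀ c d : ℕ, 1 < c → c * d = m * q ^ b → Nat.Coprime c d → q ∣ d →
      c ^ (2 * m * q ^ b + 1 - 1) ≡ 1 [MOD q] → False := by
    intro c d hc hcd hcop hqd hcong
    have hcq : Nat.Coprime c q := hcop.coprime_dvd_right hqd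
    have hcm : c ∣ m := by
      have : c ∣ m * q ^ b := ⟨d, hcd.symm⟩
      exact (hcq.pow_right b).dvd_of_dvd_mul_right this
    apply he c hcm hc
    have h5 : c ^ (2 * m) ≡ 1 [MOD q] := by
      rw [← ZMod.natCast_eq_natCast_iff] at hcong ⊢
      push_cast at hcong ⊢
      rw [pow_mul, ZMod.pow_card_pow] at hcong
      exact hcong
    exact (Nat.modEq_iff_dvd' (Nat.one_le_pow _ _ (by omega))).mp h5.symm
  refine irr_of hn fun f g hf hg hfg => ?_
  obtain ⟨c, d, u, v, hc, hd, hcd, hcop, -, -, huv, -, h1, h2, -⟩ := core hn f g hf hg hfg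
  obtain ⟨hu, hv⟩ := huv ho
  rw [hM] at hcd
  rw [hM, hL, hu, mul_one, Nat.add_sub_cancel_left, one_pow] at h1
  rw [hM, hL, hv, mul_one, Nat.add_sub_cancel_left, one_pow] at h2
  have hqcd : q ∣ c * d := by rw [hcd]; exact Dvd.dvd.mul_left (dvd_pow_self q hb.ne') _
  rcases (hq.dvd_mul).mp hqcd with h | h
  · exact key d c hd (by rw [mul_comm]; exact hcd) hcop.symm h (h2.of_dvd (Dvd.dvd.mul_left h _))
  · exact key c d hc hcd hcop h (h1.of_dvd (Dvd.dvd.mul_left h _))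

end Pool.Agent.L7h91.GT
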