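import Mathlib
import Pool.Agent.L7h91.GT.Fin

open Polynomial

namespace Pool.Agent.L7h91.GT

lemma pow_sub_one_mem (I : Ideal ℤ[X]) (p m : ℕ) (hp : (C (p : ℤ) : ℤ[X]) ∈ I)
    (hy : (X ^ m - 1 : ℤ[X]) ∈ I) : (X ^ (m * p) - 1 : ℤ[X]) ∈ I ^ 2 := by
  have h1 : (X ^ (m * p) - 1 : ℤ[X]) = (∑ j ∈ Finset.range p, (X ^ m) ^ j) * (X ^ m - 1) := by
    rw [geom_sum_mul, pow_mul]
  have h2 : (∑ j ∈ Finset.range p, ((X : ℤ[X]) ^ m) ^ j) ∈ I := by
    have h3 : ∀ j : ℕ, ((X : ℤ[X]) ^ m) ^ j - 1 ∈ I := by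
      intro j
      have := sub_dvd_pow_sub_pow ((X : ℤ[X]) ^ m) 1 j
      rw [one_pow] at this
      exact Ideal.mem_of_dvd I this hy
    have h4 : (∑ j ∈ Finset.range p, (((X : ℤ[X]) ^ m) ^ j - 1)) ∈ I :=
      Ideal.sum_mem I fun j _ => h3 j
    rw [Finset.sum_sub_distrib, Finset.sum_const, Finset.card_range, nsmul_eq_mul, mul_one] at h4
    have h5 : ((p : ℕ) : ℤ[X]) ∈ I := by
      have : (C (p : ℤ) : ℤ[X]) = ((p : ℕ) : ℤ[X]) := by simp
      rwa [this] at hp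
    have := I.add_mem h4 h5
    rwa [sub_add_cancel] at this
  rw [h1, sq]
  exact Ideal.mul_mem_mul h2 hy

lemma sq_form (p : ℤ) (h : ℤ[X]) (q : ℤ[X])
    (hq : q ∈ (Ideal.span {C p, h} : Ideal ℤ[X]) ^ 2) :
    ∃ a b c : ℤ[X], q = C p * C p * a + C p * h * b + h * h * c := by
  rw [sq] at hq
  refine Submodule.mul_induction_on hq ?_ ?_
  · intro x hx y hy
    obtain ⟨a, b, rfl⟩ := Ideal.mem_span_pair.mp hx
    obtain ⟨c, d, rfl⟩ := Ideal.mem_span_pair.mp hy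
    exact ⟨a * c, a * d + b * c, b * d, by ring⟩
  · rintro x y ⟨a, b, c, rfl⟩ ⟨a', b', c', rfl⟩
    exact ⟨a + a', b + b', c + c', by ring⟩

lemma dvd_of_mem_sq (p : ℕ) [Fact p.Prime] (h w : ℤ[X])
    (hh : h.map (Int.castRingHom (ZMod p)) ≠ 0)
    (hw : C (p : ℤ) * w ∈ (Ideal.span {C (p : ℤ), h} : Ideal ℤ[X]) ^ 2) :
    h.map (Int.castRingHom (ZMod p)) ∣ w.map (Int.castRingHom (ZMod p)) := by
  obtain ⟨a, b, c, habc⟩ := sq_form _ _ _ hw
  have hp0 : (Int.castRingHom (ZMod p)) (p : ℤ) = 0 := by simp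
  have h1 := congrArg (Polynomial.map (Int.castRingHom (ZMod p))) habc
  simp only [Polynomial.map_mul, Polynomial.map_add, map_C, hp0, C_0, zero_mul, zero_add] at h1
  have h2 : c.map (Int.castRingHom (ZMod p)) = 0 := by
    have h3 := h1.symm
    rcases mul_eq_zero.mp h3 with h4 | h4
    · exact absurd (mul_self_eq_zero.mp h4) hh
    · exact h4
  have h3 : C (p : ℤ) ∣ c := by
    rw [C_dvd_iff_dvd_coeff]
    intro i
    have := congrArg (fun q => q.coeff i) h2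
    simp only [coeff_map, coeff_zero, eq_intCast] at this
    exact (ZMod.intCast_zmod_eq_zero_iff_dvd _ _).mp this
  obtain ⟨c', rfl⟩ := h3
  have hpne : (C (p : ℤ) : ℤ[X]) ≠ 0 := by
    rw [Ne, C_eq_zero]
    exact_mod_cast (Fact.out : p.Prime).ne_zero
  have h5 : w = C (p : ℤ) * a + h * b + h * h * c' := by
    apply mul_left_cancel₀ hpne
    rw [habc]; ring
  rw [h5]
  simp only [Polynomial.map_mul, Polynomial.map_add, map_C, hp0, C_0, zero_mul, zero_add]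
  exact ⟨b.map _ + h.map _ * c'.map _, by ring⟩

end Pool.Agent.L7h91.GT
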