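import Mathlib
import Pool.Agent.L7h91.GT.ModP

open Polynomial

namespace Pool.Agent.L7h91.GT

lemma int_fact {n : ℕ} (hn : 4 ≤ n) (f g : ℚ[X]) (hf : 0 < f.natDegree) (hg : 0 < g.natDegree)
    (hfg : (redS n).map (Int.castRingHom ℚ) = f * g) :
    ∃ F G : ℤ[X], F.natDegree = f.natDegree ∧ G.natDegree = g.natDegree ∧
      redS n = C ((Nat.gcd 2 (n - 1) : ℕ) : ℤ) * (F * G) ∧
      F.leadingCoeff * G.leadingCoeff = M n := by
  have hf0 : f ≠ 0 := by rintro rfl; simp at hf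
  have hg0 : g ≠ 0 := by rintro rfl; simp at hg
  obtain ⟨F, hFp, hFl, a, ha, hFa⟩ := exists_primitive_pos f hf0
  obtain ⟨G, hGp, hGl, b, hb, hGb⟩ := exists_primitive_pos g hg0
  obtain ⟨P, hP1, hP2, hP3, hP4⟩ := exists_P hn
  have hdF : F.natDegree = f.natDegree := by
    have h1 : (F.map (Int.castRingHom ℚ)).natDegree = F.natDegree :=
      natDegree_map_eq_of_injective (Int.castRingHom ℚ).injective_int _
    rw [← h1, hFa, natDegree_C_mul ha]
  have hdG : G.natDegree = g.natDegree := by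
    have h1 : (G.map (Int.castRingHom ℚ)).natDegree = G.natDegree :=
      natDegree_map_eq_of_injective (Int.castRingHom ℚ).injective_int _
    rw [← h1, hGb, natDegree_C_mul hb]
  have hua : IsUnit (C a) := isUnit_C.mpr (isUnit_iff_ne_zero.mpr ha)
  have hub : IsUnit (C b) := isUnit_C.mpr (isUnit_iff_ne_zero.mpr hb)
  have hg0' : ((Nat.gcd 2 (n - 1) : ℕ) : ℚ) ≠ 0 := by
    have : 0 < Nat.gcd 2 (n - 1) := Nat.gcd_pos_of_pos_left _ (by norm_num)
    exact_mod_cast this.ne'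
  have hu : IsUnit (C ((Int.castRingHom ℚ) ((Nat.gcd 2 (n - 1) : ℕ) : ℤ))) := by
    rw [isUnit_C, isUnit_iff_ne_zero]
    simp only [eq_intCast, Int.cast_natCast]
    exact hg0'
  have hrP : (redS n).map (Int.castRingHom ℚ)
      = C ((Int.castRingHom ℚ) ((Nat.gcd 2 (n - 1) : ℕ) : ℤ)) * P.map (Int.castRingHom ℚ) := by
    rw [hP2, Polynomial.map_mul, map_C]
  have hFGmap : (F * G).map (Int.castRingHom ℚ) = C a * C b * (f * g) := by
    rw [Polynomial.map_mul, hFa, hGb]; ring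
  have hd1 : F * G ∣ P := by
    rw [IsPrimitive.Int.dvd_iff_map_cast_dvd_map_cast _ _ (hFp.mul hGp), hFGmap,
      (hua.mul hub).mul_left_dvd, ← hfg, hrP, hu.mul_left_dvd]
  have hd2 : P ∣ F * G := by
    rw [IsPrimitive.Int.dvd_iff_map_cast_dvd_map_cast _ _ hP4, hFGmap,
      (hua.mul hub).dvd_mul_left, ← hfg, hrP]
    exact dvd_mul_left _ _
  obtain ⟨w, hw⟩ := associated_of_dvd_dvd hd1 hd2
  have hMpos : (0 : ℤ) < M n := by exact_mod_cast M_pos hn
  have hFG : P = F * G := by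
    obtain ⟨r, hr, hrw⟩ := Polynomial.isUnit_iff.mp w.isUnit
    have h1 : F.leadingCoeff * G.leadingCoeff * r = M n := by
      rw [← hP3, ← hw, leadingCoeff_mul, leadingCoeff_mul, ← hrw, leadingCoeff_C]
    have h2 : 0 < F.leadingCoeff * G.leadingCoeff := mul_pos hFl hGl
    have h3 : r = 1 := by
      rcases Int.isUnit_iff.mp hr with h | h
      · exact h
      · exfalso; rw [h] at h1; linarith
    rw [← hw, ← hrw, h3, C_1, mul_one]
  exact ⟨F, G, hdF, hdG, by rw [hP2, hFG], by rw [← hP3, hFG, leadingCoeff_mul]⟩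

lemma lift_mem (p : ℕ) [Fact p.Prime] (h q : ℤ[X])
    (hd : h.map (Int.castRingHom (ZMod p)) ∣ q.map (Int.castRingHom (ZMod p))) :
    q ∈ (Ideal.span {C (p : ℤ), h} : Ideal ℤ[X]) := by
  obtain ⟨r, hr⟩ := hd
  obtain ⟨r', rfl⟩ := Polynomial.map_surjective (Int.castRingHom (ZMod p))
    (ZMod.ringHom_surjective _) r
  have h1 : (q - h * r').map (Int.castRingHom (ZMod p)) = 0 := by
    rw [Polynomial.map_sub, Polynomial.map_mul, hr, sub_self]
  have h2 : C (p : ℤ) ∣ q - h * r' := by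
    rw [C_dvd_iff_dvd_coeff]
    intro i
    have := congrArg (fun q => q.coeff i) h1
    simp only [coeff_map, coeff_zero, eq_intCast] at this
    exact (ZMod.intCast_zmod_eq_zero_iff_dvd _ _).mp this
  obtain ⟨s, hs⟩ := h2
  rw [Ideal.mem_span_pair]
  exact ⟨s, r', by linear_combination -hs⟩

/-- The alternative that `N = mp` is the odd one of `n` and `n+1`. -/
def Alt (n m p : ℕ) : Prop := (Odd n ∧ n = m * p) ∨ (Even n ∧ n + 1 = m * p)

lemma mod_id {n m p : ℕ} (hp : p.Prime) (hp5 : 5 ≤ p) (hn : 4 ≤ n) (hN : Alt n m p)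
    (F G : ℤ[X]) (hFG : redS n = C ((Nat.gcd 2 (n - 1) : ℕ) : ℤ) * (F * G)) :
    ∃ κ : ZMod p, κ ≠ 0 ∧ F.map (Int.castRingHom (ZMod p)) * G.map (Int.castRingHom (ZMod p))
      * (X - 1) ^ 3 = C κ * (X ^ m - 1) ^ p := by
  have hF : Fact p.Prime := ⟨hp⟩
  have h2ne : (2 : ZMod p) ≠ 0 := by
    have : ((2 : ℕ) : ZMod p) ≠ 0 := by
      rw [Ne, ZMod.natCast_eq_zero_iff]
      intro h
      have := Nat.le_of_dvd (by norm_num) h
      omega
    simpa using this
  have hchar : ∀ N : ℕ, N = m * p → ((X : (ZMod p)[X]) ^ m - 1) ^ p = X ^ N - 1 := by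
    intro N hN
    rw [sub_pow_char, one_pow, ← pow_mul, hN]
  have hp0 : ((p : ℕ) : (ZMod p)[X]) = 0 := CharP.cast_eq_zero _ p
  have hc2 : (C ((2 : ZMod p)⁻¹) : (ZMod p)[X]) * 2 = 1 := by
    have : (2 : (ZMod p)[X]) = C 2 := (map_ofNat C 2).symm
    rw [this, ← C_mul, inv_mul_cancel₀ h2ne, C_1]
  rcases hN with ⟨ho, hN⟩ | ⟨he, hN⟩
  · have h1 := S_odd ho
    rw [hFG, gcd_odd ho] at h1
    have h2 := congrArg (Polynomial.map (Int.castRingHom (ZMod p))) h1
    have hn0 : ((n : ℕ) : (ZMod p)[X]) = 0 := by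
      rw [hN, Nat.cast_mul, hp0, mul_zero]
    simp only [S, Polynomial.map_mul, Polynomial.map_sub, Polynomial.map_add, Polynomial.map_pow,
      map_X, Polynomial.map_one, map_sub, map_add, map_one, eq_intCast, Int.cast_natCast,
      Polynomial.map_natCast, Nat.cast_ofNat, Int.cast_ofNat, Polynomial.map_ofNat, hn0] at h2
    refine ⟨-(2 : ZMod p)⁻¹, neg_ne_zero.mpr (inv_ne_zero h2ne), ?_⟩
    rw [hchar n hN]
    have hX1 : ((X : (ZMod p)[X]) + 1) ≠ 0 := by
      have : ((X : (ZMod p)[X]) + 1) = X + C 1 := by simp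
      rw [this]; exact (monic_X_add_C 1).ne_zero
    have h3 : ((X : (ZMod p)[X]) + 1) * (2 * (F.map (Int.castRingHom (ZMod p))
        * G.map (Int.castRingHom (ZMod p)) * (X - 1) ^ 3)) = (X + 1) * (-(X ^ n - 1)) := by
      linear_combination -h2
    have h4 := mul_left_cancel₀ hX1 h3
    rw [C_neg]
    linear_combination (C ((2 : ZMod p)⁻¹) : (ZMod p)[X]) * h4
      - (F.map (Int.castRingHom (ZMod p)) * G.map (Int.castRingHom (ZMod p)) * (X - 1) ^ 3) * hc2
  · have h1 := S_even he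
    rw [hFG, gcd_even (by omega) he] at h1
    have h2 := congrArg (Polynomial.map (Int.castRingHom (ZMod p))) h1
    have hn0 : ((n : ℕ) : (ZMod p)[X]) = -1 := by
      have : (((n + 1 : ℕ)) : (ZMod p)[X]) = 0 := by
        rw [hN, Nat.cast_mul, hp0, mul_zero]
      push_cast at this
      linear_combination this
    simp only [S, Polynomial.map_mul, Polynomial.map_sub, Polynomial.map_add, Polynomial.map_pow,
      map_X, Polynomial.map_one, map_sub, map_add, map_one, eq_intCast, Int.cast_natCast,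
      Polynomial.map_natCast, Nat.cast_one, hn0] at h2
    refine ⟨-2, neg_ne_zero.mpr h2ne, ?_⟩
    rw [hchar (n + 1) hN]
    have e1 : (C (-2 : ZMod p) : (ZMod p)[X]) = -2 := by
      rw [C_neg]; exact congrArg Neg.neg (map_ofNat C 2)
    rw [e1]
    linear_combination -h2

lemma coprime_mod {n m p : ℕ} (hp : p.Prime) (hp5 : 5 ≤ p) (hn : 4 ≤ n) (hN : Alt n m p)
    (hpm : ¬ p ∣ m) (F G : ℤ[X])
    (hFG : redS n = C ((Nat.gcd 2 (n - 1) : ℕ) : ℤ) * (F * G)) :
    IsCoprime (F.map (Int.castRingHom (ZMod p))) (G.map (Int.castRingHom (ZMod p))) := by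
  have hFact : Fact p.Prime := ⟨hp⟩
  obtain ⟨κ, hκ, hid⟩ := mod_id hp hp5 hn hN F G hFG
  have hmN : 0 < m := by
    rcases Nat.eq_zero_or_pos m with h | h
    · rw [h] at hpm; exact absurd (dvd_zero p) hpm
    · exact h
  have h2ne : (2 : ZMod p) ≠ 0 := by
    have : ((2 : ℕ) : ZMod p) ≠ 0 := by
      rw [Ne, ZMod.natCast_eq_zero_iff]
      intro h
      have := Nat.le_of_dvd (by norm_num) h
      omega
    simpa using this
  have hmne : ((m : ℕ) : ZMod p) ≠ 0 := by
    rw [Ne, ZMod.natCast_eq_zero_iff]; exact hpm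
  have hmonic : ((X : (ZMod p)[X]) ^ m - 1).Monic := by
    have : ((X : (ZMod p)[X]) ^ m - 1) = X ^ m - C 1 := by simp
    rw [this]
    exact monic_X_pow_sub_C 1 hmN.ne'
  have hrhs : C κ * ((X : (ZMod p)[X]) ^ m - 1) ^ p ≠ 0 :=
    mul_ne_zero (by rwa [Ne, C_eq_zero]) (pow_ne_zero _ hmonic.ne_zero)
  have hFne : F.map (Int.castRingHom (ZMod p)) ≠ 0 := by
    intro h
    rw [h, zero_mul, zero_mul] at hid
    exact hrhs hid.symm
  refine isCoprime_of_irreducible_dvd (fun h => hFne h.1) ?_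
  intro h hirr hhF hhG
  obtain ⟨h', rfl⟩ := Polynomial.map_surjective (Int.castRingHom (ZMod p))
    (ZMod.ringHom_surjective _) h
  set I : Ideal ℤ[X] := Ideal.span {C (p : ℤ), h'} with hI
  have hFI : F ∈ I := lift_mem p h' F hhF
  have hGI : G ∈ I := lift_mem p h' G hhG
  have hFGI : F * G ∈ I ^ 2 := by rw [sq]; exact Ideal.mul_mem_mul hFI hGI
  have hSI : S n ∈ I ^ 2 := by
    obtain ⟨R, hR⟩ := redS_dvd n
    rw [hR, hFG]
    have : C ((Nat.gcd 2 (n - 1) : ℕ) : ℤ) * (F * G) * R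
      = (C ((Nat.gcd 2 (n - 1) : ℕ) : ℤ) * R) * (F * G) := by ring
    rw [this]
    exact Ideal.mul_mem_left _ _ hFGI
  have hprime : Prime (h'.map (Int.castRingHom (ZMod p))) := hirr.prime
  have hXm : h'.map (Int.castRingHom (ZMod p)) ∣ (X : (ZMod p)[X]) ^ m - 1 := by
    have h1 : h'.map (Int.castRingHom (ZMod p)) ∣ C κ * (X ^ m - 1) ^ p := by
      rw [← hid, mul_assoc]
      exact Dvd.dvd.mul_right hhF _
    have h2 : h'.map (Int.castRingHom (ZMod p)) ∣ (X ^ m - 1) ^ p := by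
      have hu : IsUnit (C κ) := isUnit_C.mpr (isUnit_iff_ne_zero.mpr hκ)
      exact hu.dvd_mul_left.mp h1
    exact hprime.dvd_of_dvd_pow h2
  have hpI : (C (p : ℤ) : ℤ[X]) ∈ I := Ideal.subset_span (by simp)
  have hXmI : (X ^ m - 1 : ℤ[X]) ∈ I := by
    apply lift_mem
    simpa using hXm
  have hXN : (X ^ (m * p) - 1 : ℤ[X]) ∈ I ^ 2 := pow_sub_one_mem I p m hpI hXmI
  have hirr1 : Irreducible ((X : (ZMod p)[X]) - 1) := by
    have : ((X : (ZMod p)[X]) - 1) = X - C 1 := by simp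
    rw [this]; exact irreducible_X_sub_C _
  have hX1 : h'.map (Int.castRingHom (ZMod p)) ∣ (X : (ZMod p)[X]) - 1 := by
    rcases hN with ⟨ho, hN⟩ | ⟨he, hN⟩
    · have h1 : C (p : ℤ) * (C (2 * (m : ℤ)) * (X - 1)) ∈ I ^ 2 := by
        have h2 : C (p : ℤ) * (C (2 * (m : ℤ)) * (X - 1))
            = S n + ((X + 1) - C (n : ℤ) * (X - 1)) * (X ^ (m * p) - 1) := by
          rw [← hN, S]
          have h3 : (C (n : ℤ) : ℤ[X]) = C (m : ℤ) * C (p : ℤ) := by
            rw [← C_mul, hN]; push_cast; rfl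
          have h4 : (C (2 * (m : ℤ)) : ℤ[X]) = 2 * C (m : ℤ) := by rw [C_mul]; simp
          rw [C_sub, C_add, C_1, h3, h4]
          ring
        rw [h2]
        exact Ideal.add_mem _ hSI (Ideal.mul_mem_left _ _ hXN)
      have h5 := dvd_of_mem_sq p h' _ hprime.ne_zero h1
      have h6 : (C (2 * (m : ℤ)) * (X - 1) : ℤ[X]).map (Int.castRingHom (ZMod p))
          = C (2 * (m : ZMod p)) * (X - 1) := by
        rw [Polynomial.map_mul, map_C, Polynomial.map_sub, map_X, Polynomial.map_one]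
        have e : (Int.castRingHom (ZMod p)) (2 * (m : ℤ)) = 2 * (m : ZMod p) := by simp
        rw [e]
      rw [h6] at h5
      have hu : IsUnit (C (2 * (m : ZMod p))) :=
        isUnit_C.mpr (isUnit_iff_ne_zero.mpr (mul_ne_zero h2ne hmne))
      exact hu.dvd_mul_left.mp h5
    · have h1 : C (p : ℤ) * (C (m : ℤ) * (X ^ 2 - 1)) ∈ I ^ 2 := by
        have h2 : C (p : ℤ) * (C (m : ℤ) * (X ^ 2 - 1))
            = X * S n + (C ((n : ℤ) + 1) - C ((n : ℤ) - 1) * X) * (X ^ (m * p) - 1) := by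
          rw [← hN, S]
          have h3 : (C ((n : ℤ) + 1) : ℤ[X]) = C (m : ℤ) * C (p : ℤ) := by
            rw [← C_mul]
            congr 1
            exact_mod_cast hN
          linear_combination (-(X : ℤ[X]) ^ 2 + 1) * h3
        rw [h2]
        exact Ideal.add_mem _ (Ideal.mul_mem_left _ _ hSI) (Ideal.mul_mem_left _ _ hXN)
      have h5 := dvd_of_mem_sq p h' _ hprime.ne_zero h1
      have h6 : (C (m : ℤ) * (X ^ 2 - 1) : ℤ[X]).map (Int.castRingHom (ZMod p))
          = C (m : ZMod p) * ((X - 1) * (X + 1)) := by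
        rw [Polynomial.map_mul, map_C, Polynomial.map_sub, Polynomial.map_pow, map_X,
          Polynomial.map_one]
        have e : (Int.castRingHom (ZMod p)) (m : ℤ) = (m : ZMod p) := by simp
        rw [e]
        ring
      rw [h6] at h5
      have hu : IsUnit (C (m : ZMod p)) := isUnit_C.mpr (isUnit_iff_ne_zero.mpr hmne)
      have h7 := hu.dvd_mul_left.mp h5
      rcases hprime.dvd_or_dvd h7 with h8 | h8
      · exact h8
      · exfalso
        have hirr2 : Irreducible ((X : (ZMod p)[X]) + 1) := by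
          have : ((X : (ZMod p)[X]) + 1) = X - C (-1) := by simp
          rw [this]; exact irreducible_X_sub_C _
        have h9 := hirr.associated_of_dvd hirr2 h8
        have h10 : (X : (ZMod p)[X]) + 1 ∣ X ^ m - 1 := h9.symm.dvd.trans hXm
        have h11 : ((X : (ZMod p)[X]) ^ m - 1).eval (-1) = 0 := by
          obtain ⟨r, hr⟩ := h10
          rw [hr]; simp
        have hmo : Odd m := by
          have : Odd (m * p) := by rw [← hN]; exact he.add_one
          exact (Nat.odd_mul.mp this).1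
        simp [hmo.neg_one_pow] at h11
        apply h2ne
        linear_combination -h11
  have hass := hirr.associated_of_dvd hirr1 hX1
  have hdvdP : ∀ Q : ℤ[X], h'.map (Int.castRingHom (ZMod p)) ∣ Q.map (Int.castRingHom (ZMod p)) →
      (p : ℤ) ∣ Q.eval 1 := by
    intro Q hQ
    obtain ⟨r, hr⟩ := hass.symm.dvd.trans hQ
    have : (Q.map (Int.castRingHom (ZMod p))).eval 1 = 0 := by rw [hr]; simp
    rw [← map_one (Int.castRingHom (ZMod p)), eval_map, eval₂_at_apply, eq_intCast] at this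
    exact (ZMod.intCast_zmod_eq_zero_iff_dvd _ _).mp this
  have hF1 := hdvdP F hhF
  have hG1 := hdvdP G hhG
  have hred : (p : ℤ) * p ∣ (redS n).eval 1 := by
    rw [hFG, eval_mul, eval_mul]
    exact Dvd.dvd.mul_left (mul_dvd_mul hF1 hG1) _
  have hT : (p : ℤ) * p ∣ ((n : ℤ) + 1) * n * ((n : ℤ) - 1) := by
    rw [← T_eval_one]
    obtain ⟨R, hR⟩ := T_dvd n
    rw [hR, eval_mul]
    exact Dvd.dvd.mul_left (Dvd.dvd.mul_right hred _) _
  have hpZ : Prime (p : ℤ) := Nat.prime_iff_prime_int.mp hp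
  have hp0 : (p : ℤ) ≠ 0 := hpZ.ne_zero
  have hpmZ : ¬ (p : ℤ) ∣ (m : ℤ) := by
    rw [Int.natCast_dvd_natCast]; exact hpm
  have hle : ∀ t : ℤ, 0 < t → t < 5 → ¬ (p : ℤ) ∣ t := by
    intro t h0 h5 hd
    have := Int.le_of_dvd h0 hd
    omega
  rcases hN with ⟨-, hN⟩ | ⟨-, hN⟩
  · have hNZ : (n : ℤ) = m * p := by exact_mod_cast hN
    have h1 : (p : ℤ) ∣ ((n : ℤ) + 1) * m * ((n : ℤ) - 1) := by
      apply (mul_dvd_mul_iff_left hp0).mp
      have : (p : ℤ) * (((n : ℤ) + 1) * m * ((n : ℤ) - 1)) = ((n : ℤ) + 1) * n * ((n : ℤ) - 1) := by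
        linear_combination (-((n : ℤ) + 1) * ((n : ℤ) - 1)) * hNZ
      rw [this]; exact hT
    have hpn : (p : ℤ) ∣ n := ⟨m, by rw [hNZ]; ring⟩
    rcases hpZ.dvd_or_dvd h1 with h2 | h2
    · rcases hpZ.dvd_or_dvd h2 with h3 | h3
      · exact hle 1 (by norm_num) (by norm_num) (by
          have := dvd_sub h3 hpn
          simpa using this)
      · exact hpmZ h3
    · exact hle 1 (by norm_num) (by norm_num) (by
          have := dvd_sub hpn h2
          simpa using this)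
  · have hNZ : (n : ℤ) + 1 = m * p := by exact_mod_cast hN
    have h1 : (p : ℤ) ∣ (m : ℤ) * n * ((n : ℤ) - 1) := by
      apply (mul_dvd_mul_iff_left hp0).mp
      have : (p : ℤ) * ((m : ℤ) * n * ((n : ℤ) - 1)) = ((n : ℤ) + 1) * n * ((n : ℤ) - 1) := by
        linear_combination (-(n : ℤ) * ((n : ℤ) - 1)) * hNZ
      rw [this]; exact hT
    have hpn : (p : ℤ) ∣ (n : ℤ) + 1 := ⟨m, by rw [hNZ]; ring⟩
    rcases hpZ.dvd_or_dvd h1 with h2 | h2
    · rcases hpZ.dvd_or_dvd h2 with h3 | h3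
      · exact hpmZ h3
      · exact hle 1 (by norm_num) (by norm_num) (by
          have := dvd_sub hpn h3
          simpa using this)
    · exact hle 2 (by norm_num) (by norm_num) (by
          have := dvd_sub hpn h2
          have e : (n : ℤ) + 1 - ((n : ℤ) - 1) = 2 := by ring
          rwa [e] at this)

theorem deg_cong {n m p : ℕ} (hp : p.Prime) (hp5 : 5 ≤ p) (hn : 4 ≤ n) (hN : Alt n m p)
    (hpm : ¬ p ∣ m) (f g : ℚ[X]) (hf : 0 < f.natDegree) (hg : 0 < g.natDegree)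
    (hfg : (redS n).map (Int.castRingHom ℚ) = f * g) :
    p ∣ f.natDegree ∨ p ∣ g.natDegree := by
  have hFact : Fact p.Prime := ⟨hp⟩
  obtain ⟨F, G, hF, hG, hFG, hlc⟩ := int_fact hn f g hf hg hfg
  obtain ⟨κ, hκ, hid⟩ := mod_id hp hp5 hn hN F G hFG
  have hcop := coprime_mod hp hp5 hn hN hpm F G hFG
  have hpM : ¬ (p : ℤ) ∣ (M n : ℤ) := by
    rw [Int.natCast_dvd_natCast]
    intro h
    have h1 : p ∣ n - 1 := by
      rw [← M_mul (n := n)]; exact Dvd.dvd.mul_right h _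
    rcases hN with ⟨-, hN⟩ | ⟨-, hN⟩
    · have h2 : p ∣ n := ⟨m, by rw [hN, mul_comm]⟩
      have h3 := Nat.dvd_sub h2 h1
      have h4 : n - (n - 1) = 1 := by omega
      rw [h4] at h3
      have := Nat.le_of_dvd (by norm_num) h3
      omega
    · have h2 : p ∣ n + 1 := ⟨m, by rw [hN, mul_comm]⟩
      have h3 := Nat.dvd_sub h2 h1
      have h4 : n + 1 - (n - 1) = 2 := by omega
      rw [h4] at h3
      have := Nat.le_of_dvd (by norm_num) h3
      omega
  have hdegmap : ∀ Q : ℤ[X], Q.leadingCoeff ∣ (M n : ℤ) →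
      (Q.map (Int.castRingHom (ZMod p))).natDegree = Q.natDegree := by
    intro Q hQ
    apply natDegree_map_of_leadingCoeff_ne_zero
    rw [eq_intCast, Ne, ZMod.intCast_zmod_eq_zero_iff_dvd]
    intro h
    exact hpM (h.trans hQ)
  have hirr1 : Irreducible ((X : (ZMod p)[X]) - 1) := by
    have : ((X : (ZMod p)[X]) - 1) = X - C 1 := by simp
    rw [this]; exact irreducible_X_sub_C _
  have hcc : (C κ⁻¹ : (ZMod p)[X]) * C κ = 1 := by
    rw [← C_mul, inv_mul_cancel₀ hκ, C_1]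
  have key : ∀ A B : ℤ[X], A.leadingCoeff ∣ (M n : ℤ) →
      IsCoprime (A.map (Int.castRingHom (ZMod p))) (B.map (Int.castRingHom (ZMod p))) →
      A.map (Int.castRingHom (ZMod p)) * B.map (Int.castRingHom (ZMod p)) * (X - 1) ^ 3
        = C κ * (X ^ m - 1) ^ p →
      ¬ ((X : (ZMod p)[X]) - 1 ∣ A.map (Int.castRingHom (ZMod p))) → p ∣ A.natDegree := by
    intro A B hA hAB hid' hnd
    have h1 : IsCoprime (A.map (Int.castRingHom (ZMod p))) ((X : (ZMod p)[X]) - 1) :=
      ((hirr1.coprime_iff_not_dvd).mpr hnd).symm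
    have h2 : IsCoprime (A.map (Int.castRingHom (ZMod p)))
        (C κ⁻¹ * (B.map (Int.castRingHom (ZMod p)) * (X - 1) ^ 3)) := by
      apply IsCoprime.mul_right
      · exact ⟨0, C κ, by rw [zero_mul, zero_add, ← C_mul, mul_inv_cancel₀ hκ, C_1]⟩
      · exact hAB.mul_right h1.pow_right
    have h3 : A.map (Int.castRingHom (ZMod p))
        * (C κ⁻¹ * (B.map (Int.castRingHom (ZMod p)) * (X - 1) ^ 3)) = (X ^ m - 1) ^ p := by
      linear_combination (C κ⁻¹ : (ZMod p)[X]) * hid' + ((X ^ m - 1) ^ p) * hcc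
    obtain ⟨d, hd⟩ := exists_associated_pow_of_mul_eq_pow' h2 h3
    have h4 : (d ^ p).natDegree = (A.map (Int.castRingHom (ZMod p))).natDegree :=
      natDegree_eq_of_degree_eq (degree_eq_degree_of_associated hd)
    rw [natDegree_pow, hdegmap A hA] at h4
    exact ⟨d.natDegree, h4.symm⟩
  have hdF : F.leadingCoeff ∣ (M n : ℤ) := ⟨_, hlc.symm⟩
  have hdG : G.leadingCoeff ∣ (M n : ℤ) := ⟨F.leadingCoeff, by rw [← hlc]; ring⟩
  by_cases hc : (X : (ZMod p)[X]) - 1 ∣ F.map (Int.castRingHom (ZMod p))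
  · right
    rw [← hG]
    apply key G F hdG hcop.symm (by rw [← hid]; ring)
    intro hc2
    have := hcop.isUnit_of_dvd' hc hc2
    exact hirr1.not_isUnit this
  · left
    rw [← hF]
    exact key F G hdF hcop hid hc

end Pool.Agent.L7h91.GT
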