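import Mathlib
import Pool.Agent.L7h91.GT.DegCong

open Polynomial

namespace Pool.Agent.L7h91.GT

/-- The alternative that `N' = mp` is the even one of `n` and `n+1`. -/
def Alt2 (n m p : ℕ) : Prop := (Even n ∧ n = m * p) ∨ (Odd n ∧ n + 1 = m * p)

lemma redS_neg_one_formula {n : ℕ} (hn : 4 ≤ n) (hp : Odd n) :
    4 * (redS n).eval (-1) = ((n : ℤ) - 1) * ((n : ℤ) + 1) := by
  have h1 : (derivative (S n)).eval (-1) = -8 * (redS n).eval (-1) := by
    have e : S n = (X + 1) * ((X - 1) ^ 3 * redS n) := by rw [S_odd hp]; ring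
    rw [e, derivative_mul, eval_add, eval_mul, eval_mul, eval_mul]
    simp
  have h2 : (-1 : ℤ) ^ n = -1 := hp.neg_one_pow
  have h3 : (-1 : ℤ) ^ (n - 1) = 1 := (Nat.Odd.sub_odd hp odd_one).neg_one_pow
  simp [S, derivative_mul, derivative_pow, h2, h3] at h1
  linarith

lemma two_ne {p : ℕ} (hp5 : 5 ≤ p) : (2 : ZMod p) ≠ 0 := by
  have : ((2 : ℕ) : ZMod p) ≠ 0 := by
    rw [Ne, ZMod.natCast_eq_zero_iff]
    intro h
    have := Nat.le_of_dvd (by norm_num) h
    omega
  simpa using this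

/-- The two polynomials which carry the trivial factor. -/
noncomputable def Lft (p n : ℕ) : (ZMod p)[X] := if Odd n then (X - 1) ^ 3 * (X + 1) else (X - 1) ^ 3

noncomputable def Rgt (p n : ℕ) : (ZMod p)[X] := if Odd n then 1 else X + 1

lemma mod_id2 {n m p : ℕ} (hp : p.Prime) (hp5 : 5 ≤ p) (hn : 4 ≤ n) (hN : Alt2 n m p)
    (F G : ℤ[X]) (hFG : redS n = C ((Nat.gcd 2 (n - 1) : ℕ) : ℤ) * (F * G)) :
    F.map (Int.castRingHom (ZMod p)) * G.map (Int.castRingHom (ZMod p))
      * Lft p n = -(Rgt p n * (X ^ m - 1) ^ p) := by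
  have hF : Fact p.Prime := ⟨hp⟩
  have h2ne := two_ne hp5
  have hchar : ∀ N : ℕ, N = m * p → ((X : (ZMod p)[X]) ^ m - 1) ^ p = X ^ N - 1 := by
    intro N hN
    rw [sub_pow_char, one_pow, ← pow_mul, hN]
  have hp0 : ((p : ℕ) : (ZMod p)[X]) = 0 := CharP.cast_eq_zero _ p
  have h2X : (2 : (ZMod p)[X]) ≠ 0 := by
    have : (2 : (ZMod p)[X]) = C 2 := (map_ofNat C 2).symm
    rw [this, Ne, C_eq_zero]; exact h2ne
  rcases hN with ⟨he, hN⟩ | ⟨ho, hN⟩
  · have h1 := S_even he
    rw [hFG, gcd_even (by omega) he] at h1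
    have h2 := congrArg (Polynomial.map (Int.castRingHom (ZMod p))) h1
    have hn0 : ((n : ℕ) : (ZMod p)[X]) = 0 := by
      rw [hN, Nat.cast_mul, hp0, mul_zero]
    simp only [S, Polynomial.map_mul, Polynomial.map_sub, Polynomial.map_add, Polynomial.map_pow,
      map_X, Polynomial.map_one, map_sub, map_add, map_one, eq_intCast, Int.cast_natCast,
      Polynomial.map_natCast, Nat.cast_one, hn0] at h2
    rw [hchar n hN, Lft, Rgt, if_neg (Nat.not_odd_iff_even.mpr he), if_neg (Nat.not_odd_iff_even.mpr he)]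
    linear_combination -h2
  · have h1 := S_odd ho
    rw [hFG, gcd_odd ho] at h1
    have h2 := congrArg (Polynomial.map (Int.castRingHom (ZMod p))) h1
    have hn0 : ((n : ℕ) : (ZMod p)[X]) = -1 := by
      have : (((n + 1 : ℕ)) : (ZMod p)[X]) = 0 := by
        rw [hN, Nat.cast_mul, hp0, mul_zero]
      push_cast at this
      linear_combination this
    simp only [S, Polynomial.map_mul, Polynomial.map_sub, Polynomial.map_add, Polynomial.map_pow,
      map_X, Polynomial.map_one, map_sub, map_add, map_one, eq_intCast, Int.cast_natCast,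
      Polynomial.map_natCast, Nat.cast_ofNat, Int.cast_ofNat, Polynomial.map_ofNat, hn0] at h2
    rw [hchar (n + 1) hN, Lft, Rgt, if_pos ho, if_pos ho]
    apply mul_left_cancel₀ h2X
    linear_combination -h2

lemma coprime_mod2 {n m p : ℕ} (hp : p.Prime) (hp5 : 5 ≤ p) (hn : 4 ≤ n) (hN : Alt2 n m p)
    (hpm : ¬ p ∣ m) (F G : ℤ[X])
    (hFG : redS n = C ((Nat.gcd 2 (n - 1) : ℕ) : ℤ) * (F * G)) :
    IsCoprime (F.map (Int.castRingHom (ZMod p))) (G.map (Int.castRingHom (ZMod p))) := by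
  have hFact : Fact p.Prime := ⟨hp⟩
  have hid := mod_id2 hp hp5 hn hN F G hFG
  have hmN : 0 < m := by
    rcases Nat.eq_zero_or_pos m with h | h
    · rw [h] at hpm; exact absurd (dvd_zero p) hpm
    · exact h
  have h2ne := two_ne hp5
  have hmne : ((m : ℕ) : ZMod p) ≠ 0 := by
    rw [Ne, ZMod.natCast_eq_zero_iff]; exact hpm
  have hmev : Even m := by
    have h1 : Even (m * p) := by
      rcases hN with ⟨he, hN⟩ | ⟨ho, hN⟩
      · rw [← hN]; exact he
      · rw [← hN]; exact ho.add_one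
    rcases Nat.even_mul.mp h1 with h | h
    · exact h
    · exfalso
      have := (Nat.Prime.even_iff hp).mp h
      omega
  have hmonic : ((X : (ZMod p)[X]) ^ m - 1).Monic := by
    have : ((X : (ZMod p)[X]) ^ m - 1) = X ^ m - C 1 := by simp
    rw [this]
    exact monic_X_pow_sub_C 1 hmN.ne'
  have hX1e : ((X : (ZMod p)[X]) + 1) = X - C (-1) := by simp
  have hR0 : Rgt p n ≠ 0 := by
    unfold Rgt
    split_ifs
    · exact one_ne_zero
    · rw [hX1e]; exact (monic_X_sub_C _).ne_zero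
  have hrhs : -(Rgt p n * ((X : (ZMod p)[X]) ^ m - 1) ^ p) ≠ 0 :=
    neg_ne_zero.mpr (mul_ne_zero hR0 (pow_ne_zero _ hmonic.ne_zero))
  have hX1m : (X : (ZMod p)[X]) + 1 ∣ X ^ m - 1 := by
    rw [hX1e, dvd_iff_isRoot]
    simp [hmev.neg_one_pow]
  have hRm : Rgt p n ∣ X ^ m - 1 := by
    unfold Rgt
    split_ifs
    · exact one_dvd _
    · exact hX1m
  have hFne : F.map (Int.castRingHom (ZMod p)) ≠ 0 := by
    intro h
    rw [h, zero_mul, zero_mul] at hid
    exact hrhs hid.symm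
  refine isCoprime_of_irreducible_dvd (fun h => hFne h.1) ?_
  intro h hirr hhF hhG
  obtain ⟨h', rfl⟩ := Polynomial.map_surjective (Int.castRingHom (ZMod p))
    (ZMod.ringHom_surjective _) h
  set I : Ideal ℤ[X] := Ideal.span {C (p : ℤ), h'} with hI
  have hFI : F ∈ I := lift_mem p h' F hhF
  have hGI : G ∈ I := lift_mem p h' G hhG
  have hFGI : F * G ∈ I ^ 2 := by rw [sq]; exact Ideal.mul_mem_mul hFI hGI
  have hSI : S n ∈ I ^ 2 := by
    obtain ⟨R, hR⟩ := redS_dvd n
    rw [hR, hFG]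
    have : C ((Nat.gcd 2 (n - 1) : ℕ) : ℤ) * (F * G) * R
      = (C ((Nat.gcd 2 (n - 1) : ℕ) : ℤ) * R) * (F * G) := by ring
    rw [this]
    exact Ideal.mul_mem_left _ _ hFGI
  have hprime : Prime (h'.map (Int.castRingHom (ZMod p))) := hirr.prime
  have hXm : h'.map (Int.castRingHom (ZMod p)) ∣ (X : (ZMod p)[X]) ^ m - 1 := by
    have h1 : h'.map (Int.castRingHom (ZMod p)) ∣ -(Rgt p n * (X ^ m - 1) ^ p) := by
      rw [← hid, mul_assoc]
      exact Dvd.dvd.mul_right hhF _
    rw [dvd_neg] at h1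
    rcases hprime.dvd_or_dvd h1 with h2 | h2
    · exact h2.trans hRm
    · exact hprime.dvd_of_dvd_pow h2
  have hpI : (C (p : ℤ) : ℤ[X]) ∈ I := Ideal.subset_span (by simp)
  have hXmI : (X ^ m - 1 : ℤ[X]) ∈ I := by
    apply lift_mem
    simpa using hXm
  have hXN : (X ^ (m * p) - 1 : ℤ[X]) ∈ I ^ 2 := pow_sub_one_mem I p m hpI hXmI
  have hirr1 : Irreducible ((X : (ZMod p)[X]) - 1) := by
    have : ((X : (ZMod p)[X]) - 1) = X - C 1 := by simp
    rw [this]; exact irreducible_X_sub_C _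
  have hpZ : Prime (p : ℤ) := Nat.prime_iff_prime_int.mp hp
  have hp0 : (p : ℤ) ≠ 0 := hpZ.ne_zero
  have hpmZ : ¬ (p : ℤ) ∣ (m : ℤ) := by
    rw [Int.natCast_dvd_natCast]; exact hpm
  have hle : ∀ t : ℤ, 0 < t → t < 5 → ¬ (p : ℤ) ∣ t := by
    intro t h0 h5 hd
    have := Int.le_of_dvd h0 hd
    omega
  have hirr2 : Irreducible ((X : (ZMod p)[X]) + 1) := by
    rw [hX1e]; exact irreducible_X_sub_C _
  have hX1 : h'.map (Int.castRingHom (ZMod p)) ∣ (X : (ZMod p)[X]) - 1 := by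
    rcases hN with ⟨he, hN⟩ | ⟨ho, hN⟩
    · have h1 : C (p : ℤ) * (C (2 * (m : ℤ)) * (X - 1)) ∈ I ^ 2 := by
        have h2 : C (p : ℤ) * (C (2 * (m : ℤ)) * (X - 1))
            = S n + ((X + 1) - C (n : ℤ) * (X - 1)) * (X ^ (m * p) - 1) := by
          rw [← hN, S]
          have h3 : (C (n : ℤ) : ℤ[X]) = C (m : ℤ) * C (p : ℤ) := by
            rw [← C_mul, hN]; push_cast; rfl
          have h4 : (C (2 * (m : ℤ)) : ℤ[X]) = 2 * C (m : ℤ) := by rw [C_mul]; simp
          rw [C_sub, C_add, C_1, h3, h4]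
          ring
        rw [h2]
        exact Ideal.add_mem _ hSI (Ideal.mul_mem_left _ _ hXN)
      have h5 := dvd_of_mem_sq p h' _ hprime.ne_zero h1
      have h6 : (C (2 * (m : ℤ)) * (X - 1) : ℤ[X]).map (Int.castRingHom (ZMod p))
          = C (2 * (m : ZMod p)) * (X - 1) := by
        rw [Polynomial.map_mul, map_C, Polynomial.map_sub, map_X, Polynomial.map_one]
        have e : (Int.castRingHom (ZMod p)) (2 * (m : ℤ)) = 2 * (m : ZMod p) := by simp
        rw [e]
      rw [h6] at h5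
      have hu : IsUnit (C (2 * (m : ZMod p))) :=
        isUnit_C.mpr (isUnit_iff_ne_zero.mpr (mul_ne_zero h2ne hmne))
      exact hu.dvd_mul_left.mp h5
    · have h1 : C (p : ℤ) * (C (m : ℤ) * (X ^ 2 - 1)) ∈ I ^ 2 := by
        have h2 : C (p : ℤ) * (C (m : ℤ) * (X ^ 2 - 1))
            = X * S n + (C ((n : ℤ) + 1) - C ((n : ℤ) - 1) * X) * (X ^ (m * p) - 1) := by
          rw [← hN, S]
          have h3 : (C ((n : ℤ) + 1) : ℤ[X]) = C (m : ℤ) * C (p : ℤ) := by
            rw [← C_mul]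
            congr 1
            exact_mod_cast hN
          linear_combination (-(X : ℤ[X]) ^ 2 + 1) * h3
        rw [h2]
        exact Ideal.add_mem _ (Ideal.mul_mem_left _ _ hSI) (Ideal.mul_mem_left _ _ hXN)
      have h5 := dvd_of_mem_sq p h' _ hprime.ne_zero h1
      have h6 : (C (m : ℤ) * (X ^ 2 - 1) : ℤ[X]).map (Int.castRingHom (ZMod p))
          = C (m : ZMod p) * ((X - 1) * (X + 1)) := by
        rw [Polynomial.map_mul, map_C, Polynomial.map_sub, Polynomial.map_pow, map_X,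
          Polynomial.map_one]
        have e : (Int.castRingHom (ZMod p)) (m : ℤ) = (m : ZMod p) := by simp
        rw [e]
        ring
      rw [h6] at h5
      have hu : IsUnit (C (m : ZMod p)) := isUnit_C.mpr (isUnit_iff_ne_zero.mpr hmne)
      have h7 := hu.dvd_mul_left.mp h5
      rcases hprime.dvd_or_dvd h7 with h8 | h8
      · exact h8
      · exfalso
        have h9 := hirr.associated_of_dvd hirr2 h8
        have hdvdQ : ∀ Q : ℤ[X], h'.map (Int.castRingHom (ZMod p)) ∣ Q.map (Int.castRingHom (ZMod p)) →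
            (p : ℤ) ∣ Q.eval (-1) := by
          intro Q hQ
          obtain ⟨r, hr⟩ := h9.symm.dvd.trans hQ
          have : (Q.map (Int.castRingHom (ZMod p))).eval (-1) = 0 := by rw [hr]; simp
          have e1 : (-1 : ZMod p) = Int.castRingHom (ZMod p) (-1) := by simp
          rw [e1, eval_map, eval₂_at_apply, eq_intCast] at this
          exact (ZMod.intCast_zmod_eq_zero_iff_dvd _ _).mp this
        have hred : (p : ℤ) * p ∣ (redS n).eval (-1) := by
          rw [hFG, eval_mul, eval_mul]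
          exact Dvd.dvd.mul_left (mul_dvd_mul (hdvdQ F hhF) (hdvdQ G hhG)) _
        have hT : (p : ℤ) * p ∣ ((n : ℤ) - 1) * ((n : ℤ) + 1) := by
          rw [← redS_neg_one_formula hn ho]
          exact Dvd.dvd.mul_left hred _
        have hNZ : (n : ℤ) + 1 = m * p := by exact_mod_cast hN
        have h1 : (p : ℤ) ∣ (m : ℤ) * ((n : ℤ) - 1) := by
          apply (mul_dvd_mul_iff_left hp0).mp
          have : (p : ℤ) * ((m : ℤ) * ((n : ℤ) - 1)) = ((n : ℤ) - 1) * ((n : ℤ) + 1) := by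
            linear_combination (-((n : ℤ) - 1)) * hNZ
          rw [this]; exact hT
        have hpn : (p : ℤ) ∣ (n : ℤ) + 1 := ⟨m, by rw [hNZ]; ring⟩
        rcases hpZ.dvd_or_dvd h1 with h2 | h2
        · exact hpmZ h2
        · exact hle 2 (by norm_num) (by norm_num) (by
            have := dvd_sub hpn h2
            have e : (n : ℤ) + 1 - ((n : ℤ) - 1) = 2 := by ring
            rwa [e] at this)
  have hass := hirr.associated_of_dvd hirr1 hX1
  have hdvdP : ∀ Q : ℤ[X], h'.map (Int.castRingHom (ZMod p)) ∣ Q.map (Int.castRingHom (ZMod p)) →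
      (p : ℤ) ∣ Q.eval 1 := by
    intro Q hQ
    obtain ⟨r, hr⟩ := hass.symm.dvd.trans hQ
    have : (Q.map (Int.castRingHom (ZMod p))).eval 1 = 0 := by rw [hr]; simp
    rw [← map_one (Int.castRingHom (ZMod p)), eval_map, eval₂_at_apply, eq_intCast] at this
    exact (ZMod.intCast_zmod_eq_zero_iff_dvd _ _).mp this
  have hF1 := hdvdP F hhF
  have hG1 := hdvdP G hhG
  have hred : (p : ℤ) * p ∣ (redS n).eval 1 := by
    rw [hFG, eval_mul, eval_mul]
    exact Dvd.dvd.mul_left (mul_dvd_mul hF1 hG1) _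
  have hT : (p : ℤ) * p ∣ ((n : ℤ) + 1) * n * ((n : ℤ) - 1) := by
    rw [← T_eval_one]
    obtain ⟨R, hR⟩ := T_dvd n
    rw [hR, eval_mul]
    exact Dvd.dvd.mul_left (Dvd.dvd.mul_right hred _) _
  rcases hN with ⟨-, hN⟩ | ⟨-, hN⟩
  · have hNZ : (n : ℤ) = m * p := by exact_mod_cast hN
    have h1 : (p : ℤ) ∣ ((n : ℤ) + 1) * m * ((n : ℤ) - 1) := by
      apply (mul_dvd_mul_iff_left hp0).mp
      have : (p : ℤ) * (((n : ℤ) + 1) * m * ((n : ℤ) - 1)) = ((n : ℤ) + 1) * n * ((n : ℤ) - 1) := by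
        linear_combination (-((n : ℤ) + 1) * ((n : ℤ) - 1)) * hNZ
      rw [this]; exact hT
    have hpn : (p : ℤ) ∣ n := ⟨m, by rw [hNZ]; ring⟩
    rcases hpZ.dvd_or_dvd h1 with h2 | h2
    · rcases hpZ.dvd_or_dvd h2 with h3 | h3
      · exact hle 1 (by norm_num) (by norm_num) (by
          have := dvd_sub h3 hpn
          simpa using this)
      · exact hpmZ h3
    · exact hle 1 (by norm_num) (by norm_num) (by
          have := dvd_sub hpn h2
          simpa using this)
  · have hNZ : (n : ℤ) + 1 = m * p := by exact_mod_cast hN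
    have h1 : (p : ℤ) ∣ (m : ℤ) * n * ((n : ℤ) - 1) := by
      apply (mul_dvd_mul_iff_left hp0).mp
      have : (p : ℤ) * ((m : ℤ) * n * ((n : ℤ) - 1)) = ((n : ℤ) + 1) * n * ((n : ℤ) - 1) := by
        linear_combination (-(n : ℤ) * ((n : ℤ) - 1)) * hNZ
      rw [this]; exact hT
    have hpn : (p : ℤ) ∣ (n : ℤ) + 1 := ⟨m, by rw [hNZ]; ring⟩
    rcases hpZ.dvd_or_dvd h1 with h2 | h2
    · rcases hpZ.dvd_or_dvd h2 with h3 | h3
      · exact hpmZ h3
      · exact hle 1 (by norm_num) (by norm_num) (by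
          have := dvd_sub hpn h3
          simpa using this)
    · exact hle 2 (by norm_num) (by norm_num) (by
          have := dvd_sub hpn h2
          have e : (n : ℤ) + 1 - ((n : ℤ) - 1) = 2 := by ring
          rwa [e] at this)

end Pool.Agent.L7h91.GT
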