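import Mathlib
import Pool.Agent.L7h91.GT.DegCong2
import Pool.Agent.L7h91.GT.Cor

open Polynomial

namespace Pool.Agent.L7h91.GT

lemma pth {p m : ℕ} [Fact p.Prime] (κ : ZMod p) (hκ : κ ≠ 0) (A B : (ZMod p)[X])
    (hAB : IsCoprime A B) (hid : A * B * (X - 1) ^ 3 = C κ * (X ^ m - 1) ^ p) :
    p ∣ A.natDegree ∨ p ∣ B.natDegree := by
  have hirr1 : Irreducible ((X : (ZMod p)[X]) - 1) := by
    have : ((X : (ZMod p)[X]) - 1) = X - C 1 := by simp
    rw [this]; exact irreducible_X_sub_C _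
  have hcc : (C κ⁻¹ : (ZMod p)[X]) * C κ = 1 := by
    rw [← C_mul, inv_mul_cancel₀ hκ, C_1]
  have key : ∀ A B : (ZMod p)[X], IsCoprime A B → A * B * (X - 1) ^ 3 = C κ * (X ^ m - 1) ^ p →
      ¬ ((X : (ZMod p)[X]) - 1 ∣ A) → p ∣ A.natDegree := by
    intro A B hAB hid' hnd
    have h1 : IsCoprime A ((X : (ZMod p)[X]) - 1) :=
      ((hirr1.coprime_iff_not_dvd).mpr hnd).symm
    have h2 : IsCoprime A (C κ⁻¹ * (B * (X - 1) ^ 3)) := by
      apply IsCoprime.mul_right
      · exact ⟨0, C κ, by rw [zero_mul, zero_add, ← C_mul, mul_inv_cancel₀ hκ, C_1]⟩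
      · exact hAB.mul_right h1.pow_right
    have h3 : A * (C κ⁻¹ * (B * (X - 1) ^ 3)) = (X ^ m - 1) ^ p := by
      linear_combination (C κ⁻¹ : (ZMod p)[X]) * hid' + ((X ^ m - 1) ^ p) * hcc
    obtain ⟨d, hd⟩ := exists_associated_pow_of_mul_eq_pow' h2 h3
    have h4 : (d ^ p).natDegree = A.natDegree :=
      natDegree_eq_of_degree_eq (degree_eq_degree_of_associated hd)
    rw [natDegree_pow] at h4
    exact ⟨d.natDegree, h4.symm⟩
  by_cases hc : (X : (ZMod p)[X]) - 1 ∣ A
  · right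
    apply key B A hAB.symm (by rw [← hid]; ring)
    intro hc2
    exact hirr1.not_isUnit (hAB.isUnit_of_dvd' hc hc2)
  · left
    exact key A B hAB hid hc

theorem deg_cong2 {n m p : ℕ} (hp : p.Prime) (hp5 : 5 ≤ p) (hn : 4 ≤ n) (hN : Alt2 n m p)
    (hpm : ¬ p ∣ m) (f g : ℚ[X]) (hf : 0 < f.natDegree) (hg : 0 < g.natDegree)
    (hfg : (redS n).map (Int.castRingHom ℚ) = f * g) :
    (Odd n ∧ (p ∣ f.natDegree ∨ p ∣ g.natDegree ∨ p ∣ f.natDegree + 1 ∨ p ∣ g.natDegree + 1)) ∨
    (Even n ∧ (p ∣ f.natDegree ∨ p ∣ g.natDegree ∨ p ∣ f.natDegree - 1 ∨ p ∣ g.natDegree - 1)) := by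
  have hFact : Fact p.Prime := ⟨hp⟩
  obtain ⟨F, G, hF, hG, hFG, hlc⟩ := int_fact hn f g hf hg hfg
  have hid := mod_id2 hp hp5 hn hN F G hFG
  have hcop := coprime_mod2 hp hp5 hn hN hpm F G hFG
  have hpM : ¬ (p : ℤ) ∣ (M n : ℤ) := by
    rw [Int.natCast_dvd_natCast]
    intro h
    have h1 : p ∣ n - 1 := by
      rw [← M_mul (n := n)]; exact Dvd.dvd.mul_right h _
    rcases hN with ⟨-, hN⟩ | ⟨-, hN⟩
    · have h2 : p ∣ n := ⟨m, by rw [hN, mul_comm]⟩
      have h3 := Nat.dvd_sub h2 h1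
      have h4 : n - (n - 1) = 1 := by omega
      rw [h4] at h3
      have := Nat.le_of_dvd (by norm_num) h3
      omega
    · have h2 : p ∣ n + 1 := ⟨m, by rw [hN, mul_comm]⟩
      have h3 := Nat.dvd_sub h2 h1
      have h4 : n + 1 - (n - 1) = 2 := by omega
      rw [h4] at h3
      have := Nat.le_of_dvd (by norm_num) h3
      omega
  have hdegmap : ∀ Q : ℤ[X], Q.leadingCoeff ∣ (M n : ℤ) →
      (Q.map (Int.castRingHom (ZMod p))).natDegree = Q.natDegree := by
    intro Q hQ
    apply natDegree_map_of_leadingCoeff_ne_zero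
    rw [eq_intCast, Ne, ZMod.intCast_zmod_eq_zero_iff_dvd]
    intro h
    exact hpM (h.trans hQ)
  have hdF : F.leadingCoeff ∣ (M n : ℤ) := ⟨_, hlc.symm⟩
  have hdG : G.leadingCoeff ∣ (M n : ℤ) := ⟨F.leadingCoeff, by rw [← hlc]; ring⟩
  have hFn := hdegmap F hdF
  have hGn := hdegmap G hdG
  set F' := F.map (Int.castRingHom (ZMod p)) with hF'
  set G' := G.map (Int.castRingHom (ZMod p)) with hG'
  have hX1e : ((X : (ZMod p)[X]) + 1) = X + C 1 := by simp
  have hX1m : ((X : (ZMod p)[X]) + 1).Monic := by rw [hX1e]; exact monic_X_add_C 1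
  have hX1d : ((X : (ZMod p)[X]) + 1).natDegree = 1 := by rw [hX1e]; exact natDegree_X_add_C 1
  have hirr2 : Irreducible ((X : (ZMod p)[X]) + 1) := by
    have : ((X : (ZMod p)[X]) + 1) = X - C (-1) := by simp
    rw [this]; exact irreducible_X_sub_C _
  have hF'0 : F' ≠ 0 := by
    intro h
    rw [h, natDegree_zero] at hFn
    omega
  have hG'0 : G' ≠ 0 := by
    intro h
    rw [h, natDegree_zero] at hGn
    omega
  have hm1 : (-1 : ZMod p) ≠ 0 := neg_ne_zero.mpr one_ne_zero
  have hC1 : (C (-1 : ZMod p) : (ZMod p)[X]) = -1 := by simp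
  rcases Nat.even_or_odd n with he | ho
  · right
    refine ⟨he, ?_⟩
    rw [Lft, Rgt, if_neg (Nat.not_odd_iff_even.mpr he), if_neg (Nat.not_odd_iff_even.mpr he)] at hid
    have h1 : (X : (ZMod p)[X]) + 1 ∣ F' * G' * (X - 1) ^ 3 := by
      rw [hid, dvd_neg]; exact dvd_mul_right _ _
    have h2 : ¬ (X : (ZMod p)[X]) + 1 ∣ (X - 1) ^ 3 := by
      intro h
      have h3 := hirr2.prime.dvd_of_dvd_pow h
      have h4 : (X : (ZMod p)[X]) + 1 ∣ C 2 := by
        have := dvd_sub (dvd_refl ((X : (ZMod p)[X]) + 1)) h3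
        have e : (X : (ZMod p)[X]) + 1 - (X - 1) = C 2 := by
          rw [map_ofNat C 2]; ring
        rwa [e] at this
      exact hirr2.not_isUnit (isUnit_of_dvd_unit h4
        (isUnit_C.mpr (isUnit_iff_ne_zero.mpr (two_ne hp5))))
    rcases hirr2.prime.dvd_or_dvd h1 with h3 | h3
    · rcases hirr2.prime.dvd_or_dvd h3 with h4 | h4
      · obtain ⟨F1, hF1⟩ := h4
        have hF10 : F1 ≠ 0 := by rintro rfl; rw [mul_zero] at hF1; exact hF'0 hF1
        have hd : F'.natDegree = F1.natDegree + 1 := by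
          rw [hF1, natDegree_mul hX1m.ne_zero hF10, hX1d]; ring
        have h5 : IsCoprime F1 G' := (hcop.of_isCoprime_of_dvd_left ⟨X + 1, by rw [hF1]; ring⟩)
        have h6 : F1 * G' * (X - 1) ^ 3 = C (-1) * (X ^ m - 1) ^ p := by
          apply mul_left_cancel₀ hX1m.ne_zero
          rw [hC1]
          rw [hF1] at hid
          linear_combination hid
        rcases pth (-1) hm1 F1 G' h5 h6 with h7 | h7
        · right; right; left
          rw [← hF, ← hFn, hd, Nat.add_sub_cancel]; exact h7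
        · right; left
          rw [← hG, ← hGn]; exact h7
      · obtain ⟨G1, hG1⟩ := h4
        have hG10 : G1 ≠ 0 := by rintro rfl; rw [mul_zero] at hG1; exact hG'0 hG1
        have hd : G'.natDegree = G1.natDegree + 1 := by
          rw [hG1, natDegree_mul hX1m.ne_zero hG10, hX1d]; ring
        have h5 : IsCoprime F' G1 := (hcop.of_isCoprime_of_dvd_right ⟨X + 1, by rw [hG1]; ring⟩)
        have h6 : F' * G1 * (X - 1) ^ 3 = C (-1) * (X ^ m - 1) ^ p := by
          apply mul_left_cancel₀ hX1m.ne_zero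
          rw [hC1]
          rw [hG1] at hid
          linear_combination hid
        rcases pth (-1) hm1 F' G1 h5 h6 with h7 | h7
        · left
          rw [← hF, ← hFn]; exact h7
        · right; right; right
          rw [← hG, ← hGn, hd, Nat.add_sub_cancel]; exact h7
    · exact absurd h3 h2
  · left
    refine ⟨ho, ?_⟩
    rw [Lft, Rgt, if_pos ho, if_pos ho, one_mul] at hid
    by_cases hc : (X : (ZMod p)[X]) + 1 ∣ G'
    · have hnF : ¬ (X : (ZMod p)[X]) + 1 ∣ F' := fun h => hirr2.not_isUnit (hcop.isUnit_of_dvd' h hc)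
      have h5 : IsCoprime F' ((X + 1) * G') :=
        IsCoprime.mul_right ((hirr2.coprime_iff_not_dvd).mpr hnF).symm hcop
      have h6 : F' * ((X + 1) * G') * (X - 1) ^ 3 = C (-1) * (X ^ m - 1) ^ p := by
        rw [hC1]; linear_combination hid
      have hd : ((X + 1) * G').natDegree = G'.natDegree + 1 := by
        rw [natDegree_mul hX1m.ne_zero hG'0, hX1d]; ring
      rcases pth (-1) hm1 _ _ h5 h6 with h7 | h7
      · left; rw [← hF, ← hFn]; exact h7
      · right; right; right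
        rw [← hG, ← hGn, ← hd]; exact h7
    · have h5 : IsCoprime ((X + 1) * F') G' :=
        IsCoprime.mul_left ((hirr2.coprime_iff_not_dvd).mpr hc) hcop
      have h6 : ((X + 1) * F') * G' * (X - 1) ^ 3 = C (-1) * (X ^ m - 1) ^ p := by
        rw [hC1]; linear_combination hid
      have hd : ((X + 1) * F').natDegree = F'.natDegree + 1 := by
        rw [natDegree_mul hX1m.ne_zero hF'0, hX1d]; ring
      rcases pth (-1) hm1 _ _ h5 h6 with h7 | h7
      · right; right; left
        rw [← hF, ← hFn, ← hd]; exact h7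
      · right; left
        rw [← hG, ← hGn]; exact h7

lemma total_deg {n : ℕ} (hn : 4 ≤ n) (f g : ℚ[X]) (hf : 0 < f.natDegree) (hg : 0 < g.natDegree)
    (hfg : (redS n).map (Int.castRingHom ℚ) = f * g) :
    (Odd n ∧ f.natDegree + g.natDegree + 3 = n) ∨ (Even n ∧ f.natDegree + g.natDegree + 2 = n) := by
  have hf0 : f ≠ 0 := by rintro rfl; simp at hf
  have hg0 : g ≠ 0 := by rintro rfl; simp at hg
  obtain ⟨P, hP1, hP2, hP3, hP4⟩ := exists_P hn
  have hP0 : P ≠ 0 := by
    rintro rfl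
    have := M_pos hn
    simp at hP3
    omega
  have hg0' : ((Nat.gcd 2 (n - 1) : ℕ) : ℤ) ≠ 0 := by
    have : 0 < Nat.gcd 2 (n - 1) := Nat.gcd_pos_of_pos_left _ (by norm_num)
    exact_mod_cast this.ne'
  have h1 : f.natDegree + g.natDegree = P.natDegree := by
    rw [← natDegree_mul hf0 hg0, ← hfg,
      natDegree_map_eq_of_injective (Int.castRingHom ℚ).injective_int, hP2, natDegree_C_mul hg0']
  have h2 := S'_natDegree hn
  rw [hP1, natDegree_mul (W_monic n).ne_zero hP0] at h2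
  rcases Nat.even_or_odd n with he | ho
  · right
    have hd : (W n).natDegree = 3 := by
      rw [W, if_neg (Nat.not_odd_iff_even.mpr he)]
      compute_degree!
    exact ⟨he, by omega⟩
  · left
    have hd : (W n).natDegree = 4 := by
      rw [W, if_pos ho]
      compute_degree!
    exact ⟨ho, by omega⟩

end Pool.Agent.L7h91.GT
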