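import Mathlib
import Pool.Agent.L7h91.GT.Two

open Polynomial

namespace Pool.Agent.L7h91.GT

lemma arith_odd {n m m' P Q k k' : ℕ} (hN : n = m * P) (hN' : n + 1 = m' * Q)
    (hsum : k + k' + 3 = n) (hk : 0 < k) (hP : P ∣ k)
    (hQ : Q ∣ k ∨ Q ∣ k' ∨ Q ∣ k + 1 ∨ Q ∣ k' + 1) : Q < 4 * m := by
  obtain ⟨a, rfl⟩ := hP
  have ha : 0 < a := by
    rcases Nat.eq_zero_or_pos a with h | h
    · rw [h] at hk; simp at hk
    · exact h
  have ham : a < m := by
    by_contra hcon
    have : m * P ≤ a * P := Nat.mul_le_mul_right P (not_lt.mp hcon)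
    have h2 : P * a = a * P := mul_comm _ _
    omega
  have e0 : (n : ℤ) = m * P := by exact_mod_cast hN
  have e1 : ((P * a : ℕ) : ℤ) + k' + 3 = n := by exact_mod_cast hsum
  push_cast at e1
  have hQn : (Q : ℤ) ∣ (n : ℤ) + 1 := ⟨m', by
    have : ((n + 1 : ℕ) : ℤ) = ((m' * Q : ℕ) : ℤ) := by rw [hN']
    push_cast at this
    linarith⟩
  have close : ∀ t : ℤ, 0 < t → t < 4 * m → (Q : ℤ) ∣ t → Q < 4 * m := by
    intro t h0 h1 h2
    have := Int.le_of_dvd h0 h2
    omega
  have ha' : (0 : ℤ) < a := by exact_mod_cast ha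
  have ham' : (a : ℤ) < m := by exact_mod_cast ham
  rcases hQ with h | h | h | h
  · have h' : (Q : ℤ) ∣ (P : ℤ) * a := by exact_mod_cast h
    refine close a ha' (by linarith) ?_
    have e : (a : ℤ) = a * (n + 1) - m * ((P : ℤ) * a) := by rw [e0]; ring
    rw [e]
    exact dvd_sub (Dvd.dvd.mul_left hQn _) (Dvd.dvd.mul_left h' _)
  · have h' : (Q : ℤ) ∣ (k' : ℤ) := by exact_mod_cast h
    refine close (4 * m - a) (by linarith) (by linarith) ?_
    have e : (4 * m - a : ℤ) = m * ((n + 1) - k') - a * (n + 1) := by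
      have : (k' : ℤ) = n - 3 - P * a := by linarith
      rw [this, e0]; ring
    rw [e]
    exact dvd_sub (Dvd.dvd.mul_left (dvd_sub hQn h') _) (Dvd.dvd.mul_left hQn _)
  · have h' : (Q : ℤ) ∣ (P : ℤ) * a + 1 := by exact_mod_cast h
    refine close (m - a) (by linarith) (by linarith) ?_
    have e : (m - a : ℤ) = m * ((P : ℤ) * a + 1) - a * (n + 1) := by rw [e0]; ring
    rw [e]
    exact dvd_sub (Dvd.dvd.mul_left h' _) (Dvd.dvd.mul_left hQn _)
  · have h' : (Q : ℤ) ∣ (k' : ℤ) + 1 := by exact_mod_cast h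
    refine close (3 * m - a) (by linarith) (by linarith) ?_
    have e : (3 * m - a : ℤ) = m * ((n + 1) - (k' + 1)) - a * (n + 1) := by
      have : (k' : ℤ) = n - 3 - P * a := by linarith
      rw [this, e0]; ring
    rw [e]
    exact dvd_sub (Dvd.dvd.mul_left (dvd_sub hQn h') _) (Dvd.dvd.mul_left hQn _)

lemma arith_even {n m m' P Q k k' : ℕ} (hN : n + 1 = m * P) (hN' : n = m' * Q)
    (hsum : k + k' + 2 = n) (hk : 0 < k) (hk' : 0 < k') (hP : P ∣ k)
    (hQ : Q ∣ k ∨ Q ∣ k' ∨ Q ∣ k - 1 ∨ Q ∣ k' - 1) : Q < 4 * m := by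
  obtain ⟨a, rfl⟩ := hP
  have ha : 0 < a := by
    rcases Nat.eq_zero_or_pos a with h | h
    · rw [h] at hk; simp at hk
    · exact h
  have ham : a < m := by
    by_contra hcon
    have : m * P ≤ a * P := Nat.mul_le_mul_right P (not_lt.mp hcon)
    have h2 : P * a = a * P := mul_comm _ _
    omega
  have e0 : (n : ℤ) + 1 = m * P := by exact_mod_cast hN
  have e1 : ((P * a : ℕ) : ℤ) + k' + 2 = n := by exact_mod_cast hsum
  push_cast at e1
  have hQn : (Q : ℤ) ∣ (n : ℤ) := ⟨m', by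
    have : ((n : ℕ) : ℤ) = ((m' * Q : ℕ) : ℤ) := by rw [hN']
    push_cast at this
    linarith⟩
  have close : ∀ t : ℤ, 0 < t → t < 4 * m → (Q : ℤ) ∣ t → Q < 4 * m := by
    intro t h0 h1 h2
    have := Int.le_of_dvd h0 h2
    omega
  have ha' : (0 : ℤ) < a := by exact_mod_cast ha
  have ham' : (a : ℤ) < m := by exact_mod_cast ham
  rcases hQ with h | h | h | h
  · have h' : (Q : ℤ) ∣ (P : ℤ) * a := by exact_mod_cast h
    refine close a ha' (by linarith) ?_
    have e : (a : ℤ) = m * ((P : ℤ) * a) - a * n := by linear_combination (a : ℤ) * e0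
    rw [e]
    exact dvd_sub (Dvd.dvd.mul_left h' _) (Dvd.dvd.mul_left hQn _)
  · have h' : (Q : ℤ) ∣ (k' : ℤ) := by exact_mod_cast h
    refine close (2 * m + a) (by linarith) (by linarith) ?_
    have e : (2 * m + a : ℤ) = m * (n - k') - a * n := by
      linear_combination (a : ℤ) * e0 + (m : ℤ) * e1
    rw [e]
    exact dvd_sub (Dvd.dvd.mul_left (dvd_sub hQn h') _) (Dvd.dvd.mul_left hQn _)
  · have h' : (Q : ℤ) ∣ (P : ℤ) * a - 1 := by
      have h2 : ((P * a - 1 : ℕ) : ℤ) = (P : ℤ) * a - 1 := by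
        rw [Nat.cast_sub (by omega)]; push_cast; ring
      rw [← h2]; exact_mod_cast h
    refine close (m - a) (by linarith) (by linarith) ?_
    have e : (m - a : ℤ) = a * n - m * ((P : ℤ) * a - 1) := by linear_combination -(a : ℤ) * e0
    rw [e]
    exact dvd_sub (Dvd.dvd.mul_left hQn _) (Dvd.dvd.mul_left h' _)
  · have h' : (Q : ℤ) ∣ (k' : ℤ) - 1 := by
      have h2 : ((k' - 1 : ℕ) : ℤ) = (k' : ℤ) - 1 := by
        rw [Nat.cast_sub (by omega)]; push_cast; ring
      rw [← h2]; exact_mod_cast h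
    refine close (3 * m + a) (by linarith) (by linarith) ?_
    have e : (3 * m + a : ℤ) = m * (n - (k' - 1)) - a * n := by
      linear_combination (a : ℤ) * e0 + (m : ℤ) * e1
    rw [e]
    exact dvd_sub (Dvd.dvd.mul_left (dvd_sub hQn h') _) (Dvd.dvd.mul_left hQn _)

theorem two_primes {n m m' P Q : ℕ} (hn : 4 ≤ n) (hP : P.Prime) (hP5 : 5 ≤ P) (hQ : Q.Prime)
    (hQ5 : 5 ≤ Q) (h1 : Alt n m P) (hPm : ¬ P ∣ m) (h2 : Alt2 n m' Q) (hQm : ¬ Q ∣ m')
    (hPQ : 4 * m ≤ Q) : Irreducible ((redS n).map (Int.castRingHom ℚ)) := by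
  refine irr_of hn fun f g hf hg hfg => ?_
  have hlt : Q < 4 * m := by
    have ht := total_deg hn f g hf hg hfg
    have hd := deg_cong hP hP5 hn h1 hPm f g hf hg hfg
    have hd2 := deg_cong2 hQ hQ5 hn h2 hQm f g hf hg hfg
    rcases h1 with ⟨ho, h1⟩ | ⟨he, h1⟩
    · have hne : ¬ Even n := Nat.not_even_iff_odd.mpr ho
      have ht' : f.natDegree + g.natDegree + 3 = n := by
        rcases ht with ⟨-, h⟩ | ⟨h, -⟩
        · exact h
        · exact absurd h hne
      have h2' : n + 1 = m' * Q := by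
        rcases h2 with ⟨h, -⟩ | ⟨-, h⟩
        · exact absurd h hne
        · exact h
      have hd2' : Q ∣ f.natDegree ∨ Q ∣ g.natDegree ∨ Q ∣ f.natDegree + 1 ∨ Q ∣ g.natDegree + 1 := by
        rcases hd2 with ⟨-, h⟩ | ⟨h, -⟩
        · exact h
        · exact absurd h hne
      rcases hd with hd | hd
      · exact arith_odd h1 h2' ht' hf hd hd2'
      · exact arith_odd (k' := f.natDegree) h1 h2' (by omega) hg hd (by tauto)
    · have hne : ¬ Odd n := Nat.not_odd_iff_even.mpr he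
      have ht' : f.natDegree + g.natDegree + 2 = n := by
        rcases ht with ⟨h, -⟩ | ⟨-, h⟩
        · exact absurd h hne
        · exact h
      have h2' : n = m' * Q := by
        rcases h2 with ⟨-, h⟩ | ⟨h, -⟩
        · exact h
        · exact absurd h hne
      have hd2' : Q ∣ f.natDegree ∨ Q ∣ g.natDegree ∨ Q ∣ f.natDegree - 1 ∨ Q ∣ g.natDegree - 1 := by
        rcases hd2 with ⟨h, -⟩ | ⟨-, h⟩
        · exact absurd h hne
        · exact h
      rcases hd with hd | hd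
      · exact arith_even h1 h2' ht' hf hg hd hd2'
      · exact arith_even (k' := f.natDegree) h1 h2' (by omega) hg hf hd (by tauto)
  omega

theorem one_prime {n P : ℕ} (hn : 4 ≤ n) (hP : P.Prime) (h1 : Alt n 1 P) :
    Irreducible ((redS n).map (Int.castRingHom ℚ)) := by
  refine irr_of hn fun f g hf hg hfg => ?_
  have hP4 : 4 ≤ P := by
    rcases h1 with ⟨-, h⟩ | ⟨-, h⟩ <;> omega
  have hP5 : 5 ≤ P := by
    rcases Nat.lt_or_ge 4 P with h | h
    · exact h
    · have : P = 4 := by omega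
      rw [this] at hP
      exact absurd hP (by norm_num)
  have ht := total_deg hn f g hf hg hfg
  have hd := deg_cong hP hP5 hn h1 (by
    intro h
    have := Nat.le_of_dvd (by norm_num) h
    omega) f g hf hg hfg
  have hb : f.natDegree < P ∧ g.natDegree < P := by
    rcases h1 with ⟨ho, h1⟩ | ⟨he, h1⟩
    · rcases ht with ⟨-, h⟩ | ⟨-, h⟩ <;> omega
    · rcases ht with ⟨-, h⟩ | ⟨-, h⟩ <;> omega
  rcases hd with h | h
  · have := Nat.le_of_dvd hf h; omega
  · have := Nat.le_of_dvd hg h; omega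

end Pool.Agent.L7h91.GT
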