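import Mathlib
import Pool.Agent.L7h91.GT.TwoPrimes
import Pool.Agent.L7h91.GT.Fam

open Polynomial

namespace Pool.Agent.L7h91.GT

theorem class_one {n : ℕ} (hn : 4 ≤ n)
    (h : IsPrimePow ((n - 1) / Nat.gcd 2 (n - 1)) ∨
      (∃ p : ℕ, p.Prime ∧ n = 4 * p - 1) ∨
      (∃ m q b : ℕ, q.Prime ∧ 0 < b ∧ n = 2 * m * q ^ b + 1 ∧ ¬ q ∣ m ∧
        ∀ e, e ∣ m → 1 < e → ¬ q ∣ e ^ (2 * m) - 1) ∨
      (∃ m q b : ℕ, q.Prime ∧ 0 < b ∧ n = 2 * m * q ^ b + 1 ∧ m ^ (2 * m) < q)) :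
    Irreducible ((redS n).map (Int.castRingHom ℚ)) := by
  rcases h with h | ⟨p, hp, rfl⟩ | ⟨m, q, b, hq, hb, rfl, h1, h2⟩ | ⟨m, q, b, hq, hb, rfl, hlt⟩
  · exact irr_primePow hn h
  · exact irr_four_p hp
  · exact irr_mqb hq hb h1 h2 hn
  · have hm : 0 < m := by
      rcases Nat.eq_zero_or_pos m with h0 | h0
      · subst h0; simp at hn
      · exact h0
    have hmq : m < q := by
      calc m ≤ m ^ (2 * m) := Nat.le_self_pow (by omega) m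
        _ < q := hlt
    refine irr_mqb hq hb ?_ ?_ hn
    · intro h
      have := Nat.le_of_dvd hm h
      omega
    · intro e he h1 h
      have h2 : e ≤ m := Nat.le_of_dvd hm he
      have h3 : e ^ (2 * m) ≤ m ^ (2 * m) := Nat.pow_le_pow_left h2 _
      have h4 : 1 < e ^ (2 * m) := Nat.one_lt_pow (by omega) h1
      have h5 := Nat.le_of_dvd (by omega) h
      omega

theorem class_two {n : ℕ} (hn : 4 ≤ n) (N N' : ℕ) (hN : Odd N)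
    (hc : (N = n ∧ N' = n + 1) ∨ (N = n + 1 ∧ N' = n))
    (h : N.Prime ∨ ∃ P Q : ℕ, P.Prime ∧ Q.Prime ∧ 5 ≤ P ∧ 5 ≤ Q ∧ P ∣ N ∧ ¬ P ^ 2 ∣ N ∧
      Q ∣ N' ∧ ¬ Q ^ 2 ∣ N' ∧ 4 * N ≤ P * Q) :
    Irreducible ((redS n).map (Int.castRingHom ℚ)) := by
  have hex : ∀ R K : ℕ, R ∣ K → ¬ R ^ 2 ∣ K → ∃ m, K = m * R ∧ ¬ R ∣ m := by
    intro R K h1 h2
    obtain ⟨m, hm⟩ := h1
    refine ⟨m, by rw [hm]; ring, ?_⟩
    intro h3
    obtain ⟨r, hr⟩ := h3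
    exact h2 ⟨r, by rw [hm, hr]; ring⟩
  rcases h with h | ⟨P, Q, hP, hQ, hP5, hQ5, h1, h2, h3, h4, h5⟩
  · apply one_prime hn h
    rcases hc with ⟨rfl, -⟩ | ⟨rfl, -⟩
    · exact Or.inl ⟨hN, by rw [one_mul]⟩
    · refine Or.inr ⟨?_, by rw [one_mul]⟩
      by_contra he
      rw [Nat.not_even_iff_odd] at he
      exact absurd hN (Nat.not_odd_iff_even.mpr he.add_one)
  · obtain ⟨m, hm, hPm⟩ := hex P N h1 h2
    obtain ⟨m', hm', hQm⟩ := hex Q N' h3 h4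
    have h6 : 4 * m ≤ Q := by
      have : P * (4 * m) ≤ P * Q := by
        calc P * (4 * m) = 4 * N := by rw [hm]; ring
          _ ≤ P * Q := h5
      exact Nat.le_of_mul_le_mul_left this hP.pos
    rcases hc with ⟨rfl, rfl⟩ | ⟨rfl, rfl⟩
    · exact two_primes hn hP hP5 hQ hQ5 (Or.inl ⟨hN, hm⟩) hPm
        (Or.inr ⟨hN, hm'⟩) hQm h6
    · have he : Even N' := by
        by_contra he
        rw [Nat.not_even_iff_odd] at he
        exact absurd hN (Nat.not_odd_iff_even.mpr he.add_one)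
      exact two_primes hn hP hP5 hQ hQ5 (Or.inr ⟨he, hm⟩) hPm
        (Or.inl ⟨he, hm'⟩) hQm h6

end Pool.Agent.L7h91.GT
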