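import Mathlib
import Pool.Agent.L7h91.GT.Classes

open Polynomial

namespace Pool.Agent.L7h91.GT

lemma irr_four_pp {p b : ℕ} (hp : p.Prime) (hb : 0 < b) :
    Irreducible ((redS (4 * p ^ b - 1)).map (Int.castRingHom ℚ)) := by
  set q := p ^ b with hq
  have hq2 : 2 ≤ q := hp.two_le.trans (Nat.le_self_pow hb.ne' p)
  have hn : 4 ≤ 4 * q - 1 := by omega
  have ho : Odd (4 * q - 1) := ⟨2 * q - 1, by omega⟩
  have hcop0 : Nat.Coprime (2 * q - 1) (Nat.totient q) := by
    by_contra hcon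
    obtain ⟨r, hr, h1, h2⟩ := Nat.Prime.not_coprime_iff_dvd.mp hcon
    rw [hq, Nat.totient_prime_pow hp hb] at h2
    have fin : r ∣ q → False := by
      intro h
      have h3 : r ∣ 2 * q - (2 * q - 1) := Nat.dvd_sub (Dvd.dvd.mul_left h 2) h1
      have h4 : 2 * q - (2 * q - 1) = 1 := by omega
      rw [h4] at h3
      exact hr.one_lt.ne' (Nat.dvd_one.mp h3)
    rcases (hr.dvd_mul).mp h2 with h3 | h3
    · have h4 : r ∣ p := hr.dvd_of_dvd_pow h3
      exact fin (h4.trans (dvd_pow_self p hb.ne'))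
    · have h4 : r ∣ q - 1 := by
        have : p - 1 ∣ p ^ b - 1 ^ b := Nat.sub_dvd_pow_sub_pow p 1 b
        rw [one_pow] at this
        exact h3.trans this
      have h5 : r ∣ (2 * q - 1) - 2 * (q - 1) := Nat.dvd_sub h1 (Dvd.dvd.mul_left h4 2)
      have h6 : (2 * q - 1) - 2 * (q - 1) = 1 := by omega
      rw [h6] at h5
      exact hr.one_lt.ne' (Nat.dvd_one.mp h5)
  have key : ∀ c d : ℕ, 1 < c → c < d → c * d = 2 * q - 1 →
      c ^ (4 * q - 1 - 1) ≡ 1 [MOD 2 * q] → False := by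
    intro c d hc hcd hm hcong
    have hcq : Nat.Coprime c q := by
      by_contra hcon
      obtain ⟨r, hr, h1, h2⟩ := Nat.Prime.not_coprime_iff_dvd.mp hcon
      have h3 : r ∣ 2 * q - 1 := by rw [← hm]; exact Dvd.dvd.mul_right h1 d
      have h4 : r ∣ 2 * q - (2 * q - 1) := Nat.dvd_sub (Dvd.dvd.mul_left h2 2) h3
      have h5 : 2 * q - (2 * q - 1) = 1 := by omega
      rw [h5] at h4
      exact hr.one_lt.ne' (Nat.dvd_one.mp h4)
    have h1 : c ^ (2 * (2 * q - 1)) ≡ 1 [MOD q] := by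
      have e : 4 * q - 1 - 1 = 2 * (2 * q - 1) := by omega
      rw [← e]
      exact hcong.of_dvd (dvd_mul_left q 2)
    have h2 : c ^ (Nat.totient q) ≡ 1 [MOD q] := Nat.ModEq.pow_totient hcq
    have h5 : c ^ 2 ≡ 1 [MOD q] := by
      rw [← ZMod.natCast_eq_natCast_iff] at h1 h2 ⊢
      push_cast at h1 h2 ⊢
      have h3 := orderOf_dvd_of_pow_eq_one h1
      have h4 := orderOf_dvd_of_pow_eq_one h2
      have h6 : Nat.Coprime (orderOf ((c : ℕ) : ZMod q)) (2 * q - 1) :=
        (Nat.Coprime.coprime_dvd_right h4 hcop0).symm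
      exact orderOf_dvd_iff_pow_eq_one.mp (h6.dvd_of_dvd_mul_right h3)
    have h7 : q ∣ c ^ 2 - 1 := (Nat.modEq_iff_dvd' (Nat.one_le_pow _ _ (by omega))).mp h5.symm
    have h8 : c ^ 2 - 1 < 2 * q := by
      have : c ^ 2 ≤ c * d := by rw [sq]; exact Nat.mul_le_mul_left c hcd.le
      omega
    obtain ⟨t, ht⟩ := h7
    have h11 : 1 < c ^ 2 := Nat.one_lt_pow (by norm_num) hc
    have ht1 : t = 1 := by
      have h12 : t < 2 := by
        by_contra hcon
        have : q * 2 ≤ q * t := Nat.mul_le_mul_left q (not_lt.mp hcon)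
        omega
      have h13 : t ≠ 0 := by rintro rfl; omega
      omega
    rw [ht1, mul_one] at ht
    have h14 : c ∣ 3 := by
      have h15 : c ∣ 2 * c ^ 2 := Dvd.dvd.mul_left (dvd_pow_self c (by norm_num)) 2
      have h16 : c ∣ 2 * q - 1 := ⟨d, hm.symm⟩
      have h17 := Nat.dvd_sub h15 h16
      have h18 : 2 * c ^ 2 - (2 * q - 1) = 3 := by omega
      rwa [h18] at h17
    have hc3 : c = 3 := by
      rcases (Nat.dvd_prime Nat.prime_three).mp h14 with h | h
      · omega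
      · exact h
    subst hc3
    have hq8 : q = 8 := by omega
    rw [hq8] at hcong
    exact absurd hcong (by decide)
  refine irr_of hn fun f g hf hg hfg => ?_
  obtain ⟨c, d, u, v, hc, hd, hcd, hcop, -, -, huv, -, h1, h2, -⟩ := core hn f g hf hg hfg
  obtain ⟨hu, hv⟩ := huv ho
  have hM : M (4 * q - 1) = 2 * q - 1 := by rw [M_odd ho]; omega
  have hL : L (4 * q - 1) = 2 * q := by rw [L_odd ho]; omega
  rw [hM] at hcd
  rw [hM, hL, hu, mul_one] at h1
  rw [hM, hL, hv, mul_one] at h2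
  have h3 : 2 * q - (2 * q - 1) = 1 := by omega
  rw [h3, one_pow] at h1 h2
  have hne : c ≠ d := by
    rintro rfl
    rw [Nat.coprime_self] at hcop
    omega
  rcases lt_or_gt_of_ne hne with hlt | hlt
  · exact key c d hc hlt hcd (h1.of_dvd (dvd_mul_right _ _))
  · exact key d c hd hlt (by rw [mul_comm]; exact hcd) (h2.of_dvd (dvd_mul_right _ _))

end Pool.Agent.L7h91.GT
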